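import Pool.Agent.R413.CK.Lw

/-!
The kernel vectors of the matrix as sets of prime numbers.
-/

set_option autoImplicit false

namespace Pool.Agent.R413.TI

open Pool.Agent.Results.MP_4a9ea6_nt.TwoPartTwistsX49 (split mat nonsq nonfourth Adm)
open Pool.Agent.R413.CK (corank)

/-- the entries of the matrix -/
noncomputable def ent (D p j : ℕ) : ZMod 2 :=
  if p = j then nonfourth p + ∑ l ∈ D.primeFactors.erase p, nonsq p l else nonsq p j

/-- the set is a kernel vector -/
def Ker (D : ℕ) (V : Finset ℕ) : Prop := V ⊆ split D ∧ ∀ p ∈ split D, ∑ j ∈ V, ent D p j = 0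

theorem mat_ent (D : ℕ) (i j : split D) : mat D i j = ent D i j := by
  unfold mat ent
  rw [Matrix.of_apply]
  by_cases h : i = j
  · rw [if_pos h, if_pos (congrArg Subtype.val h)]
  · rw [if_neg h, if_neg (fun h' => h (Subtype.ext h'))]

open Classical in
/-- the set of a vector -/
noncomputable def toSet {D : ℕ} (v : split D → ZMod 2) : Finset ℕ :=
  (split D).filter fun p => ∃ h : p ∈ split D, v ⟨p, h⟩ = 1

theorem z2 (a : ZMod 2) : a = 0 ∨ a = 1 := by
  revert a
  decide

theorem mulVec_toSet {D : ℕ} (v : split D → ZMod 2) (p : split D) :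
    (mat D).mulVec v p = ∑ j ∈ toSet v, ent D p j := by
  classical
  unfold Matrix.mulVec dotProduct toSet
  rw [Finset.sum_filter, ← Finset.sum_coe_sort (split D)]
  refine Finset.sum_congr rfl fun j _ => ?_
  show mat D p j * v j = _
  rw [mat_ent]
  rcases z2 (v j) with h | h
  · rw [h, mul_zero, if_neg]
    rintro ⟨h1, h2⟩
    rw [h] at h2
    exact absurd h2 (by decide)
  · rw [h, mul_one, if_pos ⟨j.2, h⟩]

theorem toSet_inj {D : ℕ} {v w : split D → ZMod 2} (h : toSet v = toSet w) : v = w := by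
  classical
  funext j
  have h1 : (j : ℕ) ∈ toSet v ↔ (j : ℕ) ∈ toSet w := by rw [h]
  unfold toSet at h1
  rw [Finset.mem_filter, Finset.mem_filter] at h1
  have h2 : v j = 1 ↔ w j = 1 := by
    constructor
    · intro hv
      obtain ⟨-, h3, h4⟩ := h1.1 ⟨j.2, j.2, hv⟩
      exact h4
    · intro hw
      obtain ⟨-, h3, h4⟩ := h1.2 ⟨j.2, j.2, hw⟩
      exact h4
  rcases z2 (v j) with h3 | h3 <;> rcases z2 (w j) with h4 | h4
  · rw [h3, h4]
  · rw [h3] at h2
    exact absurd (h2.2 h4) (by decide)
  · rw [h4] at h2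
    exact absurd (h2.1 h3) (by decide)
  · rw [h3, h4]

open Classical in
theorem toSet_ind {D : ℕ} {V : Finset ℕ} (hV : V ⊆ split D) :
    toSet (fun j : split D => if (j : ℕ) ∈ V then (1 : ZMod 2) else 0) = V := by
  ext p
  unfold toSet
  rw [Finset.mem_filter]
  constructor
  · rintro ⟨-, h1, h2⟩
    by_contra h3
    have h2' : (if p ∈ V then (1 : ZMod 2) else 0) = 1 := h2
    rw [if_neg h3] at h2'
    exact absurd h2' (by decide)
  · intro h
    exact ⟨hV h, hV h, if_pos h⟩

open Classical in
/-- **the number of the kernel vectors** -/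
theorem card_ker (D : ℕ) : ((split D).powerset.filter (Ker D)).card = 2 ^ corank D := by
  have h1 : Nat.card (LinearMap.ker (mat D).mulVecLin) = 2 ^ corank D := by
    have h2 := Module.card_eq_pow_finrank (K := ZMod 2) (V := LinearMap.ker (mat D).mulVecLin)
    rw [Nat.card_eq_fintype_card, h2, ZMod.card]
    congr 1
    have h3 := LinearMap.finrank_range_add_finrank_ker (mat D).mulVecLin
    rw [Module.finrank_pi, Fintype.card_coe] at h3
    unfold corank Matrix.rank
    omega
  rw [← h1, Nat.card_eq_fintype_card, ← Finset.card_univ]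
  symm
  refine Finset.card_bij (fun v _ => toSet v.1) ?_ ?_ ?_
  · intro v _
    have hsub : toSet v.1 ⊆ split D := by
      unfold toSet
      exact Finset.filter_subset _ _
    refine Finset.mem_filter.2 ⟨Finset.mem_powerset.2 hsub, hsub, fun p hp => ?_⟩
    rw [← mulVec_toSet v.1 ⟨p, hp⟩]
    have := LinearMap.mem_ker.1 v.2
    exact congrFun this ⟨p, hp⟩
  · intro v _ w _ h
    exact Subtype.ext (toSet_inj h)
  · intro V hV
    obtain ⟨-, hV1, hV2⟩ := Finset.mem_filter.1 hV
    refine ⟨⟨fun j : split D => if (j : ℕ) ∈ V then (1 : ZMod 2) else 0, ?_⟩, Finset.mem_univ _,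
      toSet_ind hV1⟩
    rw [LinearMap.mem_ker]
    funext p
    show (mat D).mulVec _ p = 0
    rw [mulVec_toSet, toSet_ind hV1]
    exact hV2 p p.2

end Pool.Agent.R413.TI
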