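import Pool.Agent.R413.TI.StmH

/-!
Project GE (helper413), second round: GE-DT.
-/

set_option autoImplicit false

open scoped Classical

namespace Pool.Agent.R413.TI

open Finset

namespace DtgAux

variable {n : ℕ} {p : Fin n → ℕ} {q : ℕ}

theorem sumS (hinj : Function.Injective p) (hpq : ∀ i, p i ≠ q) (F : ℕ → ZMod 2) :
    ∑ l ∈ insert q (univ.image p), F l = F q + ∑ i, F (p i) := by
  rw [Finset.sum_insert, Finset.sum_image fun a _ b _ h => hinj h]
  intro h
  obtain ⟨i, -, hi⟩ := Finset.mem_image.1 h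
  exact hpq i hi

theorem sumV (hinj : Function.Injective p) (hpq : ∀ i, p i ≠ q) (F : ℕ → ZMod 2) {V : Finset ℕ}
    (hV : V ⊆ insert q (univ.image p)) {x₀ : ZMod 2} {x : Fin n → ZMod 2}
    (h0 : x₀ = if q ∈ V then 1 else 0) (hx : ∀ i, x i = if p i ∈ V then 1 else 0) :
    ∑ j ∈ V, F j = x₀ * F q + ∑ i, x i * F (p i) := by
  have h1 : ∑ j ∈ V, F j = ∑ j ∈ insert q (univ.image p), if j ∈ V then F j else 0 := by
    rw [← Finset.sum_filter]
    congr 1
    ext j
    rw [Finset.mem_filter]
    exact ⟨fun h => ⟨hV h, h⟩, fun h => h.2⟩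
  rw [h1, sumS hinj hpq, h0]
  congr 1
  · split_ifs <;> simp
  · refine Finset.sum_congr rfl fun i _ => ?_
    rw [hx i]
    split_ifs <;> simp

theorem sumE (hinj : Function.Injective p) (hpq : ∀ i, p i ≠ q) (g : ℕ → ℕ → ZMod 2) (s : ℕ) :
    ∑ l ∈ (insert q (univ.image p)).erase s, g s l =
      (if q = s then 0 else g s q) + ∑ i, (if p i = s then 0 else g s (p i)) := by
  have h1 : ∑ l ∈ (insert q (univ.image p)).erase s, g s l =
      ∑ l ∈ (insert q (univ.image p)).erase s, (if l = s then 0 else g s l) := by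
    refine Finset.sum_congr rfl fun l hl => ?_
    rw [if_neg (Finset.ne_of_mem_erase hl)]
  rw [h1, Finset.sum_erase (f := fun l => if l = s then 0 else g s l) _ (if_pos rfl),
    sumS hinj hpq (fun l => if l = s then 0 else g s l)]

theorem main {f : ℕ → ZMod 2} {g : ℕ → ℕ → ZMod 2} {G : SimpleGraph (Fin n)}
    (hinj : Function.Injective p) (hpq : ∀ i, p i ≠ q) (hsym : ∀ i, g (p i) q = g q (p i))
    (hadj : ∀ i k, i ≠ k → g (p i) (p k) = if G.Adj i k then 1 else 0)
    (hf : f q = 1) (hw : ∑ i, g q (p i) = 1) {V : Finset ℕ}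
    (hV : V ⊆ insert q (univ.image p)) {x₀ : ZMod 2} {x : Fin n → ZMod 2}
    (h0 : x₀ = if q ∈ V then 1 else 0) (hx : ∀ i, x i = if p i ∈ V then 1 else 0) :
    (∀ s ∈ insert q (univ.image p),
      ∑ j ∈ V, (if s = j then f s + ∑ l ∈ (insert q (univ.image p)).erase s, g s l
        else g s j) = 0) ↔
    (∑ i, g q (p i) * x i = 0 ∧
    ∀ i, g q (p i) * x₀ + (f (p i) + g q (p i)) * x i +
      ∑ k, (if G.Adj i k then (1 : ZMod 2) else 0) * (x k + x i) = 0) := by
  have hq : ∑ j ∈ V, (if q = j then f q + ∑ l ∈ (insert q (univ.image p)).erase q, g q l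
        else g q j) = ∑ i, g q (p i) * x i := by
    rw [sumV hinj hpq _ hV h0 hx, if_pos rfl, sumE hinj hpq, if_pos rfl, hf]
    have e1 : ∀ i, (if p i = q then 0 else g q (p i)) = g q (p i) := fun i => if_neg (hpq i)
    have e3 : (1 : ZMod 2) + (0 + ∑ i, (if p i = q then 0 else g q (p i))) = 0 := by
      rw [Finset.sum_congr rfl fun i _ => e1 i, hw]
      decide
    rw [e3, mul_zero, zero_add]
    refine Finset.sum_congr rfl fun i _ => ?_
    rw [if_neg (hpq i).symm, mul_comm]
  have hp : ∀ i, ∑ j ∈ V, (if p i = j then f (p i) +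
      ∑ l ∈ (insert q (univ.image p)).erase (p i), g (p i) l else g (p i) j) =
      g q (p i) * x₀ + (f (p i) + g q (p i)) * x i +
      ∑ k, (if G.Adj i k then (1 : ZMod 2) else 0) * (x k + x i) := by
    intro i
    rw [sumV hinj hpq _ hV h0 hx, if_neg (hpq i), sumE hinj hpq, if_neg (hpq i).symm, hsym]
    have e1 : ∀ k, (if p k = p i then 0 else g (p i) (p k)) =
        (if G.Adj i k then (1 : ZMod 2) else 0) := by
      intro k
      by_cases hk : k = i
      · rw [hk, if_pos rfl, if_neg (G.irrefl)]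
      · rw [if_neg fun h => hk (hinj h), hadj i k (Ne.symm hk)]
    simp only [e1]
    set D : ZMod 2 := f (p i) + (g q (p i) + ∑ k, (if G.Adj i k then (1 : ZMod 2) else 0)) with hD
    have e2 : ∀ k, x k * (if p i = p k then D else g (p i) (p k)) =
        (if k = i then D * x k else 0) + (if G.Adj i k then (1 : ZMod 2) else 0) * x k := by
      intro k
      by_cases hk : k = i
      · rw [hk, if_pos rfl, if_pos rfl, if_neg (G.irrefl)]
        ring
      · rw [if_neg fun h => hk (hinj h).symm, if_neg hk, hadj i k (Ne.symm hk)]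
        ring
    rw [Finset.sum_congr rfl fun k _ => e2 k, Finset.sum_add_distrib, Finset.sum_ite_eq',
      if_pos (Finset.mem_univ i)]
    simp only [mul_add]
    rw [Finset.sum_add_distrib, hD, ← Finset.sum_mul]
    ring
  constructor
  · intro h
    refine ⟨?_, fun i => ?_⟩
    · rw [← hq]
      exact h q (Finset.mem_insert_self _ _)
    · rw [← hp i]
      exact h (p i) (Finset.mem_insert_of_mem (Finset.mem_image_of_mem _ (Finset.mem_univ i)))
  · rintro ⟨h1, h2⟩ s hs
    rcases Finset.mem_insert.1 hs with rfl | hs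
    · rw [hq]
      exact h1
    · obtain ⟨i, -, rfl⟩ := Finset.mem_image.1 hs
      rw [hp i]
      exact h2 i

theorem z2 (a : ZMod 2) : a = if a = 1 then 1 else 0 := by
  revert a
  decide

end DtgAux

open DtgAux in
theorem dtg : DTG := by
  intro n p q f g G hinj hpq hsym hadj hf hw
  constructor
  · intro h x₀ x h1 h2
    set V : Finset ℕ := (insert q (univ.image p)).filter
      (fun s => (s = q ∧ x₀ = 1) ∨ ∃ i, s = p i ∧ x i = 1) with hV
    have hVs : V ⊆ insert q (univ.image p) := Finset.filter_subset _ _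
    have hqV : q ∈ V ↔ x₀ = 1 := by
      rw [hV, Finset.mem_filter]
      constructor
      · rintro ⟨-, h | ⟨i, h, -⟩⟩
        · exact h.2
        · exact absurd h.symm (hpq i)
      · intro h
        exact ⟨Finset.mem_insert_self _ _, Or.inl ⟨rfl, h⟩⟩
    have hpV : ∀ i, p i ∈ V ↔ x i = 1 := by
      intro i
      rw [hV, Finset.mem_filter]
      constructor
      · rintro ⟨-, h | ⟨k, h, hk⟩⟩
        · exact absurd h.1 (hpq i)
        · rw [hinj h]
          exact hk
      · intro h
        exact ⟨Finset.mem_insert_of_mem (Finset.mem_image_of_mem _ (Finset.mem_univ i)),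
          Or.inr ⟨i, rfl, h⟩⟩
    have h0 : x₀ = if q ∈ V then 1 else 0 := by
      by_cases hc : x₀ = 1
      · rw [if_pos (hqV.2 hc), hc]
      · rw [if_neg fun h => hc (hqV.1 h)]
        have := z2 x₀
        rwa [if_neg hc] at this
    have hx : ∀ i, x i = if p i ∈ V then 1 else 0 := by
      intro i
      by_cases hc : x i = 1
      · rw [if_pos ((hpV i).2 hc), hc]
      · rw [if_neg fun h => hc ((hpV i).1 h)]
        have := z2 (x i)
        rwa [if_neg hc] at this
    have h3 := h V hVs ((main hinj hpq hsym hadj hf hw hVs h0 hx).2 ⟨h1, h2⟩)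
    rw [h3] at h0 hx
    refine ⟨by simpa using h0, ?_⟩
    funext i
    simpa using hx i
  · intro h V hV h1
    obtain ⟨h2, h3⟩ := (main hinj hpq hsym hadj hf hw hV (x₀ := if q ∈ V then 1 else 0)
      (x := fun i => if p i ∈ V then 1 else 0) rfl (fun _ => rfl)).1 h1
    obtain ⟨h4, h5⟩ := h _ _ h2 h3
    rw [Finset.eq_empty_iff_forall_notMem]
    intro s hs
    rcases Finset.mem_insert.1 (hV hs) with rfl | hs'
    · rw [if_pos hs] at h4
      exact one_ne_zero h4
    · obtain ⟨i, -, rfl⟩ := Finset.mem_image.1 hs'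
      have := congrFun h5 i
      simp only [Pi.zero_apply] at this
      rw [if_pos hs] at this
      exact one_ne_zero this

end Pool.Agent.R413.TI
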