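import Pool.Agent.R413.TI.StmH

/-!
Project GE: the kernel vectors of the bordered matrix.
-/

set_option autoImplicit false

open scoped Classical

namespace Pool.Agent.R413.TI

open Finset

namespace DtgP

variable {n : ℕ} {p : Fin n → ℕ} {q : ℕ} {f : ℕ → ZMod 2} {g : ℕ → ℕ → ZMod 2}
  {G : SimpleGraph (Fin n)}

theorem z2c (a : ZMod 2) : a = 0 ∨ a = 1 := by
  revert a
  decide

theorem q_notMem (hpq : ∀ i, p i ≠ q) : q ∉ univ.image p := by
  intro h
  obtain ⟨i, -, hi⟩ := mem_image.1 h
  exact hpq i hi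

theorem sum_V (hinj : Function.Injective p) (hpq : ∀ i, p i ≠ q) {V : Finset ℕ}
    (hV : V ⊆ insert q (univ.image p)) (F : ℕ → ZMod 2) :
    ∑ j ∈ V, F j = F q * (if q ∈ V then 1 else 0) + ∑ i, F (p i) * (if p i ∈ V then 1 else 0) := by
  have h1 : ∑ j ∈ V, F j = ∑ j ∈ insert q (univ.image p), F j * (if j ∈ V then 1 else 0) := by
    rw [← sum_subset hV (f := fun j => F j * (if j ∈ V then 1 else 0))]
    · refine sum_congr rfl fun j hj => ?_
      rw [if_pos hj, mul_one]
    · intro j _ hj
      rw [if_neg hj, mul_zero]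
  rw [h1, sum_insert (q_notMem hpq), sum_image fun x _ y _ h => hinj h]

theorem rowq (hinj : Function.Injective p) (hpq : ∀ i, p i ≠ q) (hf : f q = 1)
    (hw : ∑ i, g q (p i) = 1) {V : Finset ℕ} (hV : V ⊆ insert q (univ.image p)) :
    ∑ j ∈ V, (if q = j then f q + ∑ l ∈ (insert q (univ.image p)).erase q, g q l else g q j) =
      ∑ i, g q (p i) * (if p i ∈ V then 1 else 0) := by
  rw [sum_V hinj hpq hV, if_pos rfl, erase_insert (q_notMem hpq),
    sum_image fun x _ y _ h => hinj h, hw, hf]
  have h2 : (1 : ZMod 2) + 1 = 0 := by decide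
  rw [h2, zero_mul, zero_add]
  refine sum_congr rfl fun i _ => ?_
  rw [if_neg (hpq i).symm]

theorem rowp (hinj : Function.Injective p) (hpq : ∀ i, p i ≠ q) (hs : ∀ i, g (p i) q = g q (p i))
    (hG : ∀ i k, i ≠ k → g (p i) (p k) = if G.Adj i k then 1 else 0)
    {V : Finset ℕ} (hV : V ⊆ insert q (univ.image p)) (i : Fin n) :
    ∑ j ∈ V, (if p i = j then f (p i) + ∑ l ∈ (insert q (univ.image p)).erase (p i), g (p i) l
      else g (p i) j) =
      g q (p i) * (if q ∈ V then 1 else 0) + (f (p i) + g q (p i)) * (if p i ∈ V then 1 else 0) +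
        ∑ k, (if G.Adj i k then (1 : ZMod 2) else 0) *
          ((if p k ∈ V then 1 else 0) + (if p i ∈ V then 1 else 0)) := by
  have h1 : ∑ l ∈ (insert q (univ.image p)).erase (p i), g (p i) l =
      g q (p i) + ∑ k, (if G.Adj i k then (1 : ZMod 2) else 0) := by
    rw [erase_insert_of_ne (hpq i).symm, sum_insert fun h => q_notMem hpq (mem_of_mem_erase h), hs]
    congr 1
    have h2 : (univ.image p).erase (p i) = (univ.erase i).image p := by
      rw [image_erase hinj]
    rw [h2, sum_image fun x _ y _ h => hinj h, ← add_sum_erase univ _ (mem_univ i),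
      if_neg (SimpleGraph.irrefl G), zero_add]
    exact sum_congr rfl fun k hk => hG i k (ne_of_mem_erase hk).symm
  rw [sum_V hinj hpq hV, if_neg (hpq i), hs, h1]
  have h3 : ∑ k, (if p i = p k then f (p i) + (g q (p i) + ∑ k, (if G.Adj i k then (1 : ZMod 2) else 0))
        else g (p i) (p k)) * (if p k ∈ V then (1 : ZMod 2) else 0) =
      (f (p i) + (g q (p i) + ∑ k, (if G.Adj i k then (1 : ZMod 2) else 0))) *
        (if p i ∈ V then 1 else 0) +
        ∑ k, (if G.Adj i k then (1 : ZMod 2) else 0) * (if p k ∈ V then 1 else 0) := by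
    rw [← add_sum_erase univ _ (mem_univ i), if_pos rfl,
      ← add_sum_erase univ (fun k => (if G.Adj i k then (1 : ZMod 2) else 0) *
        (if p k ∈ V then 1 else 0)) (mem_univ i), if_neg (SimpleGraph.irrefl G), zero_mul, zero_add]
    congr 1
    refine sum_congr rfl fun k hk => ?_
    rw [if_neg fun h => (ne_of_mem_erase hk) (hinj h).symm, hG i k (ne_of_mem_erase hk).symm]
  rw [h3]
  have h4 : ∑ k, (if G.Adj i k then (1 : ZMod 2) else 0) *
      ((if p k ∈ V then 1 else 0) + (if p i ∈ V then 1 else 0)) =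
      ∑ k, (if G.Adj i k then (1 : ZMod 2) else 0) * (if p k ∈ V then 1 else 0) +
        (∑ k, (if G.Adj i k then (1 : ZMod 2) else 0)) * (if p i ∈ V then 1 else 0) := by
    rw [sum_mul, ← sum_add_distrib]
    exact sum_congr rfl fun k _ => mul_add _ _ _
  rw [h4]
  ring

end DtgP

open DtgP in
theorem dtg : DTG := by
  intro n p q f g G hinj hpq hs hG hf hw
  constructor
  · intro h x₀ x hx hk
    set V : Finset ℕ := (insert q (univ.image p)).filter
      fun j => (j = q ∧ x₀ = 1) ∨ ∃ i, p i = j ∧ x i = 1 with hVd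
    have hV : V ⊆ insert q (univ.image p) := filter_subset _ _
    have hqV : (if q ∈ V then (1 : ZMod 2) else 0) = x₀ := by
      rcases z2c x₀ with h0 | h0
      · rw [if_neg, h0]
        intro h1
        rcases (mem_filter.1 h1).2 with ⟨-, h2⟩ | ⟨i, hi, -⟩
        · rw [h0] at h2
          exact zero_ne_one h2
        · exact hpq i hi
      · rw [if_pos, h0]
        exact mem_filter.2 ⟨mem_insert_self _ _, Or.inl ⟨rfl, h0⟩⟩
    have hpV : ∀ i, (if p i ∈ V then (1 : ZMod 2) else 0) = x i := by
      intro i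
      rcases z2c (x i) with h0 | h0
      · rw [if_neg, h0]
        intro h1
        rcases (mem_filter.1 h1).2 with ⟨h2, -⟩ | ⟨j, hj, h2⟩
        · exact hpq i h2
        · rw [hinj hj, h0] at h2
          exact zero_ne_one h2
      · rw [if_pos, h0]
        exact mem_filter.2 ⟨mem_insert_of_mem (mem_image_of_mem _ (mem_univ _)),
          Or.inr ⟨i, rfl, h0⟩⟩
    have hV0 : V = ∅ := by
      refine h V hV fun s hsS => ?_
      rcases mem_insert.1 hsS with rfl | hsS
      · rw [rowq hinj hpq hf hw hV]
        refine Eq.trans (sum_congr rfl fun i _ => ?_) hx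
        rw [hpV i]
      · obtain ⟨i, -, rfl⟩ := mem_image.1 hsS
        rw [rowp (G := G) hinj hpq hs hG hV i, hqV, hpV i]
        refine Eq.trans ?_ (hk i)
        congr 1
        refine sum_congr rfl fun k _ => ?_
        rw [hpV k]
    constructor
    · rw [← hqV, hV0, if_neg (notMem_empty q)]
    · funext i
      rw [← hpV i, hV0, if_neg (notMem_empty _)]
      rfl
  · intro h V hV hk
    have h1 := h (if q ∈ V then 1 else 0) (fun i => if p i ∈ V then 1 else 0) (by
      rw [← rowq hinj hpq hf hw hV]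
      exact hk q (mem_insert_self _ _)) (fun i => by
      rw [← rowp (G := G) hinj hpq hs hG hV i]
      exact hk (p i) (mem_insert_of_mem (mem_image_of_mem _ (mem_univ _))))
    rw [eq_empty_iff_forall_notMem]
    intro j hj
    rcases mem_insert.1 (hV hj) with rfl | hjS
    · have h2 := h1.1
      rw [if_pos hj] at h2
      exact one_ne_zero h2
    · obtain ⟨i, -, rfl⟩ := mem_image.1 hjS
      have h2 := congrFun h1.2 i
      simp only [if_pos hj] at h2
      exact one_ne_zero h2

end Pool.Agent.R413.TI
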