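import Pool.Agent.R413.TI.StmG
import Pool.Agent.R413.CK.Rk

/-!
Project GE: the group of points is finitely generated.
-/

set_option autoImplicit false

namespace Pool.Agent.R413.TI

open WeierstrassCurve

theorem ce_delta {a b : ℤ} (hb : b ≠ 0) (hd : a ^ 2 - 4 * b ≠ 0) : (CE a b).Δ ≠ 0 := by
  have h : (CE a b).Δ = 16 * (b : ℚ) ^ 2 * ((a : ℚ) ^ 2 - 4 * b) := by
    simp only [WeierstrassCurve.Δ, WeierstrassCurve.b₂, WeierstrassCurve.b₄, WeierstrassCurve.b₆,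
      WeierstrassCurve.b₈, CE]
    ring
  rw [h]
  have h1 : (b : ℚ) ≠ 0 := by exact_mod_cast hb
  have h2 : (a : ℚ) ^ 2 - 4 * b ≠ 0 := by exact_mod_cast hd
  exact mul_ne_zero (mul_ne_zero (by norm_num) (pow_ne_zero 2 h1)) h2

/-- the group of points is finitely generated -/
theorem ce_fg {a b : ℤ} (hb : b ≠ 0) (hd : a ^ 2 - 4 * b ≠ 0) :
    Module.Finite ℤ (CE a b).toAffine.Point := by
  have hne : b ^ 2 * (a ^ 2 - 4 * b) ≠ 0 := mul_ne_zero (pow_ne_zero 2 hb) hd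
  have h1 := Pool.Agent.H64R2.DCMW.mw (-27 * a ^ 2 + 81 * b) (54 * a ^ 3 - 243 * a * b) (by
    intro h
    apply hne
    have h2 : 4 * (-27 * a ^ 2 + 81 * b) ^ 3 + 27 * (54 * a ^ 3 - 243 * a * b) ^ 2 =
        -531441 * (b ^ 2 * (a ^ 2 - 4 * b)) := by
      ring
    rw [h2] at h
    have h3 : (-531441 : ℤ) ≠ 0 := by norm_num
    exact (mul_eq_zero.1 h).resolve_left h3)
  have hv : Pool.Agent.Y700.VR (Pool.Agent.H925R3.DC.crv ℚ ((-27 * a ^ 2 + 81 * b : ℤ) : ℚ)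
      ((54 * a ^ 3 - 243 * a * b : ℤ) : ℚ)) (CE a b) 3 (3 * (a : ℚ)) 0 0 := by
    refine ⟨by norm_num, ?_, ?_, ?_, ?_, ?_⟩ <;>
      simp only [Pool.Agent.H925R3.DC.crv, CE] <;> push_cast <;> ring
  rw [← Module.Finite.iff_addGroup_fg] at h1
  have e := hv.equiv (ce_delta hb hd)
  exact Module.Finite.of_injective (e.toAddMonoidHom.toIntLinearMap) e.injective

end Pool.Agent.R413.TI
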