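import Mathlib

/-!
Square integers in the fields of `p`-adic numbers (copied from the starting file
`Pool/Agent/TH841/LS/Lin.lean`).
-/

set_option autoImplicit false

namespace Pool.Agent.R413.TI

open Finset Polynomial

lemma padic_sq {p : ℕ} [hp : Fact p.Prime] (hp2 : p ≠ 2) {n : ℤ} (hn : ¬ (p : ℤ) ∣ n)
    (h : IsSquare (n : ZMod p)) : IsSquare (n : ℚ_[p]) := by
  obtain ⟨a, ha⟩ := h
  obtain ⟨s, hs⟩ := ZMod.intCast_surjective a
  have h1 : (p : ℤ) ∣ s ^ 2 - n := by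
    rw [← ZMod.intCast_zmod_eq_zero_iff_dvd]
    push_cast
    rw [ha, hs]
    ring
  have h2 : ¬ (p : ℤ) ∣ 2 * s := by
    intro h2
    have hpi : Prime (p : ℤ) := Nat.prime_iff_prime_int.1 hp.out
    rcases hpi.dvd_or_dvd h2 with h3 | h3
    · have h5 : p ∣ 2 := by exact_mod_cast h3
      exact hp2 ((Nat.prime_dvd_prime_iff_eq hp.out Nat.prime_two).1 h5)
    · apply hn
      have := dvd_sub ((dvd_pow h3 two_ne_zero : (p : ℤ) ∣ s ^ 2)) h1
      simpa using this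
  have e1 : ∀ w : ℤ_[p], (aeval w) (X ^ 2 - C (n : ℤ_[p]) : ℤ_[p][X]) = w ^ 2 - n := by
    intro w; simp
  have e2 : ∀ w : ℤ_[p], (aeval w) (derivative (X ^ 2 - C (n : ℤ_[p]) : ℤ_[p][X])) = 2 * w := by
    intro w; simp; norm_num
  obtain ⟨z, hz, -⟩ := hensels_lemma (p := p) (R := ℤ_[p]) (F := X ^ 2 - C (n : ℤ_[p]))
    (a := (s : ℤ_[p])) (by
      rw [e1, e2]
      have h3 : ‖((s ^ 2 - n : ℤ) : ℤ_[p])‖ < 1 := by
        rw [PadicInt.norm_intCast_lt_one_iff]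
        exact h1
      have h4 : ‖((2 * s : ℤ) : ℤ_[p])‖ = 1 := by
        have h5 : ¬ ‖((2 * s : ℤ) : ℤ_[p])‖ < 1 := by
          rw [PadicInt.norm_intCast_lt_one_iff]
          exact h2
        exact le_antisymm (PadicInt.norm_le_one _) (not_lt.1 h5)
      push_cast at h3 h4
      rw [h4]
      simpa using h3)
  rw [e1] at hz
  have h6 := congrArg (fun w : ℤ_[p] => (w : ℚ_[p])) (sub_eq_zero.1 hz)
  push_cast at h6
  exact ⟨z, by rw [← h6]; ring⟩

lemma padic_sq2 {n : ℤ} (hn : n % 8 = 1) : IsSquare (n : ℚ_[2]) := by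
  have e1 : ∀ w : ℤ_[2], (aeval w) (X ^ 2 - C (n : ℤ_[2]) : ℤ_[2][X]) = w ^ 2 - n := by
    intro w; simp
  have e2 : ∀ w : ℤ_[2], (aeval w) (derivative (X ^ 2 - C (n : ℤ_[2]) : ℤ_[2][X])) = 2 * w := by
    intro w; simp; norm_num
  obtain ⟨z, hz, -⟩ := hensels_lemma (p := 2) (R := ℤ_[2]) (F := X ^ 2 - C (n : ℤ_[2]))
    (a := 1) (by
      rw [e1, e2]
      have h4 : ‖(2 : ℤ_[2])‖ = 2⁻¹ := by
        have := PadicInt.norm_p (p := 2)
        exact_mod_cast this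
      have h3 : ‖((1 - n : ℤ) : ℤ_[2])‖ ≤ ((2 : ℕ) : ℝ) ^ (-(3 : ℕ) : ℤ) := by
        rw [PadicInt.norm_int_le_pow_iff_dvd]
        push_cast
        omega
      push_cast at h3
      rw [one_pow, mul_one, h4]
      refine lt_of_le_of_lt h3 ?_
      norm_num)
  rw [e1] at hz
  have h6 := congrArg (fun w : ℤ_[2] => (w : ℚ_[2])) (sub_eq_zero.1 hz)
  push_cast at h6
  exact ⟨z, by rw [← h6]; ring⟩

end Pool.Agent.R413.TI
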