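import Pool.Agent.R413.TI.Leg
import Pool.Agent.R413.TI.Sq
import Pool.Agent.R428.Q0.Cls
import Pool.Agent.Y698.Lq

/-!
The groups of the classes `b₁` from the local statements.
-/

set_option autoImplicit false

namespace Pool.Agent.R413.TI

open Pool.Agent.Results.MP_4a9ea6_nt.TwoPartTwistsX49 (split mat nonsq nonfourth Adm inert)
open Pool.Agent.R413.CK (corank)

/-- the classes of the problem -/
def Cls (a B : ℤ) : Set ℤ := {b₁ | Squarefree b₁ ∧ b₁ ∣ B ∧ Sol ℝ a b₁ (B / b₁) ∧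
  ∀ (p : ℕ) [Fact p.Prime], Sol ℚ_[p] a b₁ (B / b₁)}

theorem swap {K : Type} [Field K] {a d w t : ℤ} (ht : (t : K) ≠ 0)
    (h : Sol K a d (w * d * t ^ 2)) : Sol K a (w * d) (d * t ^ 2) := by
  obtain ⟨N, M, e, hMe, hN⟩ := h
  refine ⟨t * N, t * e, M, ?_, ?_⟩
  · rcases hMe with h | h
    · exact Or.inr h
    · exact Or.inl (mul_ne_zero ht h)
  · push_cast at hN ⊢
    linear_combination (t : K) ^ 2 * hN

theorem sq_sol {K : Type} [Field K] {a b₁ b₂ : ℤ} (h : IsSquare (b₁ : K)) : Sol K a b₁ b₂ := by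
  obtain ⟨N, hN⟩ := h
  refine ⟨N, 1, 0, Or.inl one_ne_zero, ?_⟩
  rw [hN]
  ring

theorem real_sol {a d b₂ : ℤ} (hd : 0 < d) : Sol ℝ a d b₂ := by
  refine sq_sol ⟨Real.sqrt d, ?_⟩
  rw [Real.mul_self_sqrt (by exact_mod_cast hd.le)]

/-- the class of a set of primes -/
def dV (V : Finset ℕ) : ℤ := ((∏ j ∈ V, j : ℕ) : ℤ)

/-- the local statements for one of the two curves -/
structure Data (D : ℕ) (a B w : ℤ) : Prop where
  spl : ∀ (p : ℕ) [Fact p.Prime] (D' : ℕ) (ρ : ZMod p), p ∈ split D → ρ ^ 2 = -7 → D = p * D' →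
    ∀ b₁ b₂ : ℤ, Squarefree b₁ → b₁ * b₂ = B →
      (¬ (p : ℤ) ∣ b₁ → (Sol ℚ_[p] a b₁ b₂ ↔ IsSquare (b₁ : ZMod p))) ∧
      (∀ c : ℤ, b₁ = p * c →
        (Sol ℚ_[p] a b₁ b₂ ↔ IsSquare ((c : ZMod p) * (D' : ZMod p) * ρ)))
  ine : ∀ (q : ℕ) [Fact q.Prime], q ∈ inert D → ∀ b₁ b₂ : ℤ, Squarefree b₁ → b₁ * b₂ = B →
    (Sol ℚ_[q] a b₁ b₂ ↔ ¬ (q : ℤ) ∣ b₁)
  two : ∀ b₁ b₂ : ℤ, Squarefree b₁ → b₁ * b₂ = B → b₁ % 4 = 1 → Sol ℚ_[2] a b₁ b₂
  good : ∀ (l : ℕ) [Fact l.Prime], l ≠ 2 → l ≠ 7 → ¬ l ∣ D → ∀ b₁ b₂ : ℤ, b₁ * b₂ = B →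
    Sol ℚ_[l] a b₁ b₂
  wval : w = 7 ∨ w = -7
  nec : ∀ b₁ ∈ Cls a B, ∃ V ⊆ split D, b₁ = dV V ∨ b₁ = w * dV V
  fac : ∀ d m : ℤ, (D : ℤ) = d * m → ∃ t : ℤ, t ≠ 0 ∧ B = d * (w * d * t ^ 2)

variable {D : ℕ}

theorem split_prime (hD : Adm D) {p : ℕ} (h : p ∈ split D) :
    p.Prime ∧ p % 4 = 1 ∧ p ∣ D ∧ p ≠ 7 ∧ (p % 7 = 1 ∨ p % 7 = 2 ∨ p % 7 = 4) := by
  obtain ⟨h1, h2⟩ := mem_split.1 h
  have hp := Nat.prime_of_mem_primeFactors h1
  have h4 := hD.2 p h1
  refine ⟨hp, h4, Nat.dvd_of_mem_primeFactors h1, by rintro rfl; omega, ?_⟩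
  exact (Pool.Agent.R428.Q0.sq7_iff hp h4).1 h2

theorem dV_pos (hD : Adm D) {V : Finset ℕ} (hV : V ⊆ split D) : 0 < dV V := by
  unfold dV
  exact_mod_cast Finset.prod_pos fun j hj => (split_prime hD (hV hj)).1.pos

theorem pf_dV (hD : Adm D) {V : Finset ℕ} (hV : V ⊆ split D) :
    (∏ j ∈ V, j).primeFactors = V :=
  Nat.primeFactors_prod fun j hj => (split_prime hD (hV hj)).1

theorem dV_dvd (hD : Adm D) {V : Finset ℕ} (hV : V ⊆ split D) : ∃ m : ℤ, (D : ℤ) = dV V * m := by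
  have h1 : (∏ j ∈ V, j) ∣ D := by
    have h2 := Nat.prod_primeFactors_of_squarefree hD.1
    conv_rhs => rw [← h2]
    exact Finset.prod_dvd_prod_of_subset _ _ _ fun j hj => (mem_split.1 (hV hj)).1
  obtain ⟨m, hm⟩ := h1
  exact ⟨m, by unfold dV; exact_mod_cast hm⟩

theorem dV_sf (hD : Adm D) {V : Finset ℕ} (hV : V ⊆ split D) : Squarefree (dV V) := by
  obtain ⟨m, hm⟩ := dV_dvd hD hV
  have h1 : Squarefree ((D : ℕ) : ℤ) := Int.squarefree_natCast.2 hD.1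
  exact h1.squarefree_of_dvd ⟨m, hm⟩

theorem dV_mod (hD : Adm D) {V : Finset ℕ} (hV : V ⊆ split D) : dV V % 4 = 1 := by
  have h1 := Pool.Agent.Y698.prod_mod_four (S := V) fun q hq => (split_prime hD (hV hq)).2.1
  unfold dV
  omega

theorem dvd_dV (hD : Adm D) {V : Finset ℕ} (hV : V ⊆ split D) {p : ℕ} (hp : p.Prime) :
    (p : ℤ) ∣ dV V ↔ p ∈ V := by
  unfold dV
  rw [Int.natCast_dvd_natCast]
  constructor
  · intro h
    have h0 : ∏ j ∈ V, j ≠ 0 := (Finset.prod_pos fun j hj =>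
      (split_prime hD (hV hj)).1.pos).ne'
    have h1 := Nat.mem_primeFactors.2 ⟨hp, h, h0⟩
    rwa [pf_dV hD hV] at h1
  · intro h
    exact Finset.dvd_prod_of_mem _ h

theorem not_seven (hD : Adm D) {V : Finset ℕ} (hV : V ⊆ split D) : ¬ (7 : ℤ) ∣ dV V := by
  have h := dvd_dV hD hV (p := 7) (by norm_num)
  intro h1
  have h2 := h.1 (by exact_mod_cast h1)
  exact (split_prime hD (hV h2)).2.2.2.1 rfl

theorem dV_sq7 (hD : Adm D) {V : Finset ℕ} (hV : V ⊆ split D) :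
    IsSquare ((dV V : ℤ) : ZMod 7) := by
  have key : ∀ j ∈ V, IsSquare ((j : ℕ) : ZMod 7) := by
    intro j hj
    obtain ⟨-, -, -, -, h⟩ := split_prime hD (hV hj)
    have e : ((j : ℕ) : ZMod 7) = ((j % 7 : ℕ) : ZMod 7) := by
      rw [ZMod.natCast_mod]
    rw [e]
    rcases h with h | h | h <;> rw [h]
    · exact ⟨1, by decide⟩
    · exact ⟨3, by decide⟩
    · exact ⟨2, by decide⟩
  unfold dV
  rw [Int.cast_natCast]
  clear hV
  induction V using Finset.induction_on with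
  | empty => exact ⟨1, by simp⟩
  | insert a s ha ih =>
    rw [Finset.prod_insert ha, Nat.cast_mul]
    exact (key a (Finset.mem_insert_self a s)).mul
      (ih fun j hj => key j (Finset.mem_insert_of_mem hj))

theorem dV_erase {V : Finset ℕ} {p : ℕ} (h : p ∈ V) : dV V = (p : ℤ) * dV (V.erase p) := by
  unfold dV
  rw [← Finset.mul_prod_erase V (fun j => j) h]
  push_cast
  ring

theorem dV_cast (p : ℕ) (V : Finset ℕ) :
    ((dV V : ℤ) : ZMod p) = ((∏ j ∈ V, j : ℕ) : ZMod p) := by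
  unfold dV
  rw [Int.cast_natCast]

/-- multiplication by a nonzero square -/
theorem sq_mul_iff {F : Type} [Field F] {x y : F} (hx : x ≠ 0) (h : IsSquare x) :
    IsSquare (x * y) ↔ IsSquare y := by
  constructor
  · intro h1
    have h2 : y = x * y / x := by field_simp
    rw [h2]
    exact h1.div h
  · exact h.mul

theorem w_sq {w : ℤ} (hw : w = 7 ∨ w = -7) {p : ℕ} [Fact p.Prime] (h4 : p % 4 = 1)
    {ρ : ZMod p} (hρ : ρ ^ 2 = -7) : ((w : ℤ) : ZMod p) ≠ 0 ∧ IsSquare ((w : ℤ) : ZMod p) := by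
  have h7 : (7 : ZMod p) ≠ 0 := seven_ne h4
  obtain ⟨i, hi⟩ := neg_one_sq h4
  rcases hw with rfl | rfl
  · refine ⟨by push_cast; exact h7, i * ρ, ?_⟩
    push_cast
    have : i * ρ * (i * ρ) = (i * i) * ρ ^ 2 := by ring
    rw [this, ← hi, hρ]
    ring
  · refine ⟨by push_cast; exact neg_ne_zero.2 h7, ρ, ?_⟩
    push_cast
    rw [← hρ]
    ring

/-- **local solubility of the classes of kernel vectors** -/
theorem Data.suf {a B w : ℤ} (H : Data D a B w) (hD : Adm D) {V : Finset ℕ} (hV : Ker D V)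
    {b₂ : ℤ} (hb : dV V * b₂ = B) (p : ℕ) [hp : Fact p.Prime] : Sol ℚ_[p] a (dV V) b₂ := by
  have hsf := dV_sf hD hV.1
  by_cases h2 : p = 2
  · subst h2
    exact H.two _ _ hsf hb (dV_mod hD hV.1)
  by_cases h7 : p = 7
  · subst h7
    refine sq_sol (padic_sq (by norm_num) ?_ (dV_sq7 hD hV.1))
    exact not_seven hD hV.1
  by_cases hpD : p ∣ D
  · have hpm : p ∈ D.primeFactors := Nat.mem_primeFactors.2 ⟨hp.out, hpD, hD.1.ne_zero⟩
    have h4 := hD.2 p hpm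
    by_cases hs : IsSquare (-7 : ZMod p)
    · have hps : p ∈ split D := mem_split.2 ⟨hpm, hs⟩
      obtain ⟨ρ, hρ⟩ := hs
      have hρ' : ρ ^ 2 = -7 := by rw [hρ]; ring
      obtain ⟨D', hD'⟩ := hpD
      obtain ⟨k1, k2⟩ := H.spl p D' ρ hps hρ' hD' _ _ hsf hb
      by_cases hpV : p ∈ V
      · refine (k2 _ (dV_erase hpV)).2 ?_
        rw [dV_cast]
        exact (leg_in hD hV.1 hpV hρ' hD').2 (hV.2 p hps)
      · refine (k1 fun h => hpV ((dvd_dV hD hV.1 hp.out).1 h)).2 ?_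
        rw [dV_cast]
        exact (leg_out hV.1 hpV).2 (hV.2 p hps)
    · have hpi : p ∈ inert D := mem_inert.2 ⟨hpm, hs⟩
      refine (H.ine p hpi _ _ hsf hb).2 fun h => ?_
      have h5 := (dvd_dV hD hV.1 hp.out).1 h
      exact hs (mem_split.1 (hV.1 h5)).2
  · exact H.good p h2 h7 hpD _ _ hb

/-- **the classes are those of the kernel vectors** -/
theorem Data.cls {a B w : ℤ} (H : Data D a B w) (hD : Adm D) (b₁ : ℤ) :
    b₁ ∈ Cls a B ↔ ∃ V, Ker D V ∧ (b₁ = dV V ∨ b₁ = w * dV V) := by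
  constructor
  · intro h
    obtain ⟨V, hV, hb⟩ := H.nec b₁ h
    obtain ⟨hsf, hdv, -, hloc⟩ := h
    have hbB : b₁ * (B / b₁) = B := Int.mul_ediv_cancel' hdv
    refine ⟨V, ⟨hV, fun p hps => ?_⟩, hb⟩
    obtain ⟨hp, h4, hpD, -, -⟩ := split_prime hD hps
    have : Fact p.Prime := ⟨hp⟩
    obtain ⟨ρ, hρ⟩ := (mem_split.1 hps).2
    have hρ' : ρ ^ 2 = -7 := by rw [hρ]; ring
    obtain ⟨D', hD'⟩ := hpD
    obtain ⟨k1, k2⟩ := H.spl p D' ρ hps hρ' hD' _ _ hsf hbB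
    obtain ⟨u, hu0, hu2, hu⟩ : ∃ u : ℤ, ((u : ℤ) : ZMod p) ≠ 0 ∧ IsSquare ((u : ℤ) : ZMod p) ∧
        b₁ = u * dV V := by
      rcases hb with hb | hb
      · exact ⟨1, by simp, ⟨1, by simp⟩, by rw [hb, one_mul]⟩
      · exact ⟨w, (w_sq H.wval h4 hρ').1, (w_sq H.wval h4 hρ').2, hb⟩
    have hpu : ¬ (p : ℤ) ∣ u := by
      intro h
      exact hu0 ((ZMod.intCast_zmod_eq_zero_iff_dvd u p).2 h)
    by_cases hpV : p ∈ V
    · have h5 : b₁ = p * (u * dV (V.erase p)) := by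
        rw [hu, dV_erase hpV]
        ring
      have h6 := (k2 _ h5).1 (hloc p)
      rw [Int.cast_mul, mul_assoc, mul_assoc, sq_mul_iff hu0 hu2, ← mul_assoc, dV_cast] at h6
      exact (leg_in hD hV hpV hρ' hD').1 h6
    · have h5 : ¬ (p : ℤ) ∣ b₁ := by
        rw [hu]
        intro h
        rcases (Nat.prime_iff_prime_int.1 hp).dvd_or_dvd h with h | h
        · exact hpu h
        · exact hpV ((dvd_dV hD hV hp).1 h)
      have h6 := (k1 h5).1 (hloc p)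
      rw [hu, Int.cast_mul, sq_mul_iff hu0 hu2, dV_cast] at h6
      exact (leg_out hV hpV).1 h6
  · rintro ⟨V, hV, hb⟩
    obtain ⟨m, hm⟩ := dV_dvd hD hV.1
    obtain ⟨t, ht, hB⟩ := H.fac _ m hm
    have hd0 : dV V ≠ 0 := (dV_pos hD hV.1).ne'
    have hw0 : w ≠ 0 := by
      rcases H.wval with h | h <;> rw [h] <;> norm_num
    have hsf := dV_sf hD hV.1
    rcases hb with rfl | rfl
    · have h1 : B / dV V = w * dV V * t ^ 2 := by
        rw [hB]
        exact Int.mul_ediv_cancel_left _ hd0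
      refine ⟨hsf, ⟨_, hB⟩, real_sol (dV_pos hD hV.1), fun p _ => ?_⟩
      exact H.suf hD hV (by rw [h1]; exact hB.symm) p
    · have h0 : w * dV V ≠ 0 := mul_ne_zero hw0 hd0
      have h1 : B / (w * dV V) = dV V * t ^ 2 := by
        have : B = w * dV V * (dV V * t ^ 2) := by
          rw [hB]
          ring
        rw [this]
        exact Int.mul_ediv_cancel_left _ h0
      refine ⟨?_, ⟨dV V * t ^ 2, by rw [hB]; ring⟩, ?_, fun p _ => ?_⟩
      · have h7 : Prime (7 : ℤ) := by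
          have := Nat.prime_iff_prime_int.1 (by norm_num : Nat.Prime 7)
          exact_mod_cast this
        have hcop : IsCoprime (7 : ℤ) (dV V) :=
          (h7.irreducible.coprime_iff_not_dvd).2 (not_seven hD hV.1)
        have h8 : Squarefree (7 * dV V) :=
          (squarefree_mul_iff.2 ⟨hcop.isRelPrime, h7.squarefree, hsf⟩)
        rcases H.wval with h | h <;> rw [h]
        · exact h8
        · rw [neg_mul]
          intro x hx
          exact h8 x ((dvd_neg).1 hx)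
      · rw [h1]
        exact swap (by exact_mod_cast ht) (real_sol (dV_pos hD hV.1))
      · rw [h1]
        exact swap (by exact_mod_cast ht) (H.suf hD hV (by rw [hB]) p)

open Classical in
/-- **the number of the classes** -/
theorem Data.card {a B w : ℤ} (H : Data D a B w) (hD : Adm D) :
    (Cls a B).ncard = 2 ^ (corank D + 1) := by
  have hw7 : (7 : ℤ) ∣ w := by
    rcases H.wval with h | h <;> rw [h] <;> norm_num
  have hw0 : w ≠ 0 := by
    rcases H.wval with h | h <;> rw [h] <;> norm_num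
  have hinj : ∀ V ⊆ split D, ∀ V' ⊆ split D, dV V = dV V' → V = V' := by
    intro V hV V' hV' h
    have h1 : ∏ j ∈ V, j = ∏ j ∈ V', j := by
      unfold dV at h
      exact_mod_cast h
    rw [← pf_dV hD hV, h1, pf_dV hD hV']
  set S := (split D).powerset.filter (Ker D) with hS
  have hSm : ∀ V, V ∈ S ↔ Ker D V := by
    intro V
    rw [hS, Finset.mem_filter, Finset.mem_powerset]
    exact ⟨fun h => h.2, fun h => ⟨h.1, h⟩⟩
  have h1 : Cls a B = ((S.image dV ∪ S.image fun V => w * dV V : Finset ℤ) : Set ℤ) := by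
    ext b
    rw [H.cls hD, Finset.mem_coe, Finset.mem_union, Finset.mem_image, Finset.mem_image]
    constructor
    · rintro ⟨V, hV, h | h⟩
      · exact Or.inl ⟨V, (hSm V).2 hV, h.symm⟩
      · exact Or.inr ⟨V, (hSm V).2 hV, h.symm⟩
    · rintro (⟨V, hV, h⟩ | ⟨V, hV, h⟩)
      · exact ⟨V, (hSm V).1 hV, Or.inl h.symm⟩
      · exact ⟨V, (hSm V).1 hV, Or.inr h.symm⟩
  rw [h1, Set.ncard_coe_finset, Finset.card_union_of_disjoint, Finset.card_image_of_injOn,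
    Finset.card_image_of_injOn, card_ker, pow_succ]
  · ring
  · intro V hV V' hV' h
    have h2 : w * dV V = w * dV V' := h
    exact hinj V ((hSm V).1 hV).1 V' ((hSm V').1 hV').1 (mul_left_cancel₀ hw0 h2)
  · intro V hV V' hV' h
    exact hinj V ((hSm V).1 hV).1 V' ((hSm V').1 hV').1 h
  · rw [Finset.disjoint_left]
    intro b hb hb'
    obtain ⟨V, hV, rfl⟩ := Finset.mem_image.1 hb
    obtain ⟨V', -, h⟩ := Finset.mem_image.1 hb'
    apply not_seven hD ((hSm V).1 hV).1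
    rw [← h]
    exact hw7.mul_right _

end Pool.Agent.R413.TI
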