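import Pool.Agent.R413.TI.Glob
import Pool.Agent.R413.TI.StmG

/-!
Project GE: the classes of the twists of any curve by products of split primes.
-/

set_option autoImplicit false

namespace Pool.Agent.R413.TI

open Pool.Agent.Results.MP_4a9ea6_nt.TwoPartTwistsX49 (nonsq)

/-- the split primes of the curve `y² = x³ + a x² + b x` -/
def Spl (a b : ℤ) (p : ℕ) : Prop := p % 8 = 1 ∧ ∀ l : ℕ, l.Prime → l ≠ 2 →
  (l : ℤ) ∣ b * (a ^ 2 - 4 * b) → ¬ l ∣ p ∧ IsSquare ((p : ℕ) : ZMod l)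

/-- a finite set of split primes -/
def SS (a b : ℤ) (S : Finset ℕ) : Prop := ∀ p ∈ S, p.Prime ∧ Spl a b p

/-- the entries of the matrix -/
noncomputable def en (f : ℕ → ZMod 2) (S : Finset ℕ) (p j : ℕ) : ZMod 2 :=
  if p = j then f p + ∑ l ∈ S.erase p, nonsq p l else nonsq p j

/-- kernel vectors -/
def KerG (f : ℕ → ZMod 2) (S V : Finset ℕ) : Prop := V ⊆ S ∧ ∀ p ∈ S, ∑ j ∈ V, en f S p j = 0

variable {a b : ℤ} {S : Finset ℕ}

theorem spl_ndvd (hS : SS a b S) {p : ℕ} (hp : p ∈ S) : ¬ (p : ℤ) ∣ b * (a ^ 2 - 4 * b) := by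
  intro h
  obtain ⟨hpp, h8, h1⟩ := hS p hp
  exact (h1 p hpp (by omega) h).1 dvd_rfl

/-- the integers with bad prime factors are squares modulo the split primes -/
theorem bad_sq (hS : SS a b S) {p : ℕ} (hp : p ∈ S) {u : ℤ} (hu0 : u ≠ 0)
    (hu : ∀ l : ℕ, l.Prime → (l : ℤ) ∣ u → l = 2 ∨ (l : ℤ) ∣ b * (a ^ 2 - 4 * b)) :
    ((u : ℤ) : ZMod p) ≠ 0 ∧ IsSquare ((u : ℤ) : ZMod p) := by
  obtain ⟨hpp, h8, h1⟩ := hS p hp
  have : Fact p.Prime := ⟨hpp⟩
  have hp2 : p ≠ 2 := by omega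
  have hpr : ∀ l : ℕ, l.Prime → (l = 2 ∨ (l : ℤ) ∣ b * (a ^ 2 - 4 * b)) →
      ((l : ℕ) : ZMod p) ≠ 0 ∧ IsSquare ((l : ℕ) : ZMod p) := by
    intro l hl hlb
    have hlp : l ≠ p := by
      rintro rfl
      rcases hlb with h | h
      · exact hp2 h
      · exact spl_ndvd hS hp h
    refine ⟨cast_ne hpp hl hlp, ?_⟩
    by_cases hl2 : l = 2
    · subst hl2
      have h2 := (ZMod.exists_sq_eq_two_iff (p := p) hp2).2 (Or.inl h8)
      exact_mod_cast h2
    · have hlb' := hlb.resolve_left hl2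
      obtain ⟨-, h3⟩ := h1 l hl hl2 hlb'
      have : Fact l.Prime := ⟨hl⟩
      exact (ZMod.exists_sq_eq_prime_iff_of_mod_four_eq_one (p := p) (q := l) (by omega) hl2).2 h3
  have key : ∀ n : ℕ, n ≠ 0 → (∀ l : ℕ, l.Prime → l ∣ n → l = 2 ∨ (l : ℤ) ∣ b * (a ^ 2 - 4 * b)) →
      ((n : ℕ) : ZMod p) ≠ 0 ∧ IsSquare ((n : ℕ) : ZMod p) := by
    intro n
    induction n using Nat.recOnMul with
    | zero => exact fun h => absurd rfl h
    | one => exact fun _ _ => ⟨by simp, ⟨1, by simp⟩⟩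
    | prime l hl => exact fun _ h => hpr l hl (h l hl dvd_rfl)
    | mul m k hm hk =>
      intro h0 h
      obtain ⟨h2, h3⟩ := hm (left_ne_zero_of_mul h0) fun l hl hd => h l hl (hd.mul_right _)
      obtain ⟨h4, h5⟩ := hk (right_ne_zero_of_mul h0) fun l hl hd => h l hl (hd.mul_left _)
      rw [Nat.cast_mul]
      exact ⟨mul_ne_zero h2 h4, h3.mul h5⟩
  obtain ⟨h2, h3⟩ := key u.natAbs (Int.natAbs_ne_zero.2 hu0) fun l hl hd =>
    hu l hl (Int.natCast_dvd.2 hd)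
  rcases Int.natAbs_eq u with h | h
  · rw [h, Int.cast_natCast]
    exact ⟨h2, h3⟩
  · rw [h, Int.cast_neg, Int.cast_natCast]
    refine ⟨neg_ne_zero.2 h2, ?_⟩
    rw [← neg_one_mul]
    exact (neg_one_sq (by omega)).mul h3

theorem pf_dG (hS : SS a b S) {V : Finset ℕ} (hV : V ⊆ S) : (∏ j ∈ V, j).primeFactors = V :=
  Nat.primeFactors_prod fun j hj => (hS j (hV hj)).1

theorem dG_pos (hS : SS a b S) {V : Finset ℕ} (hV : V ⊆ S) : 0 < dV V := by
  unfold dV
  exact_mod_cast Finset.prod_pos fun j hj => (hS j (hV hj)).1.pos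

theorem dvd_dG (hS : SS a b S) {V : Finset ℕ} (hV : V ⊆ S) {p : ℕ} (hp : p.Prime) :
    (p : ℤ) ∣ dV V ↔ p ∈ V := by
  unfold dV
  rw [Int.natCast_dvd_natCast]
  constructor
  · intro h
    have h0 : ∏ j ∈ V, j ≠ 0 := (Finset.prod_pos fun j hj => (hS j (hV hj)).1.pos).ne'
    have h1 := Nat.mem_primeFactors.2 ⟨hp, h, h0⟩
    rwa [pf_dG hS hV] at h1
  · intro h
    exact Finset.dvd_prod_of_mem _ h

theorem dG_sf (hS : SS a b S) {V : Finset ℕ} (hV : V ⊆ S) : Squarefree (dV V) := by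
  unfold dV
  rw [Int.squarefree_natCast]
  have hcop : (V : Set ℕ).Pairwise (Function.onFun Nat.Coprime fun j => j) := by
    intro i hi j hj hij
    exact (Nat.coprime_primes (hS i (hV hi)).1 (hS j (hV hj)).1).2 hij
  refine Finset.squarefree_prod_of_pairwise_isCoprime ?_ ?_
  · intro i hi j hj hij
    exact (Nat.coprime_iff_isRelPrime).1 (hcop hi hj hij)
  · intro j hj
    exact (Nat.prime_iff.1 (hS j (hV hj)).1).squarefree

theorem dG_erase {V : Finset ℕ} {p : ℕ} (h : p ∈ V) : dV V = (p : ℤ) * dV (V.erase p) :=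
  dV_erase h

/-- the products are squares at the bad primes -/
theorem dG_sqb (hS : SS a b S) {V : Finset ℕ} (hV : V ⊆ S) {l : ℕ} [hl : Fact l.Prime]
    (hlb : l = 2 ∨ (l : ℤ) ∣ b * (a ^ 2 - 4 * b)) : IsSquare ((dV V : ℤ) : ℚ_[l]) := by
  by_cases hl2 : l = 2
  · subst hl2
    refine padic_sq2 ?_
    unfold dV
    have h1 : (∏ j ∈ V, j) % 8 = 1 := by
      have : ∀ j ∈ V, j % 8 = 1 := fun j hj => (hS j (hV hj)).2.1
      clear hV
      induction V using Finset.induction_on with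
      | empty => rfl
      | insert q s hq ih =>
        rw [Finset.prod_insert hq, Nat.mul_mod, this q (Finset.mem_insert_self _ _),
          ih fun j hj => this j (Finset.mem_insert_of_mem hj)]
    omega
  · have hlb' := hlb.resolve_left hl2
    have hlV : l ∉ V := by
      intro h
      exact spl_ndvd hS (hV h) hlb'
    refine padic_sq hl2 (fun h => hlV ((dvd_dG hS hV hl.out).1 h)) ?_
    rw [dV_cast]
    have : ∀ j ∈ V, IsSquare ((j : ℕ) : ZMod l) := fun j hj =>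
      ((hS j (hV hj)).2.2 l hl.out hl2 hlb').2
    clear hV hlV
    induction V using Finset.induction_on with
    | empty => exact ⟨1, by simp⟩
    | insert q s hq ih =>
      rw [Finset.prod_insert hq, Nat.cast_mul]
      exact (this q (Finset.mem_insert_self _ _)).mul
        (ih fun j hj => this j (Finset.mem_insert_of_mem hj))

/-- scaling -/
theorem scale {K : Type} [Field K] {a D u d b₂ B₂ : ℤ} (hD : IsSquare (D : K)) (hd : IsSquare (d : K))
    (hD0 : (D : K) ≠ 0) (hd0 : (d : K) ≠ 0) (hB : B₂ * d = b₂ * D ^ 2) :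
    Sol K (a * D) (u * d) B₂ ↔ Sol K a u b₂ := by
  obtain ⟨δ, hδ⟩ := hD
  obtain ⟨γ, hγ⟩ := hd
  have hδ0 : δ ≠ 0 := by
    rintro rfl
    exact hD0 (by rw [hδ, mul_zero])
  have hγ0 : γ ≠ 0 := by
    rintro rfl
    exact hd0 (by rw [hγ, mul_zero])
  have hBK : (B₂ : K) * d = b₂ * (D : K) ^ 2 := by
    have := congrArg (Int.cast : ℤ → K) hB
    push_cast at this
    exact this
  have hBK' : (B₂ : K) = b₂ * δ ^ 4 / γ ^ 2 := by
    rw [eq_div_iff (pow_ne_zero 2 hγ0)]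
    rw [hδ, hγ] at hBK
    linear_combination hBK
  constructor
  · rintro ⟨N, M, e, hMe, hN⟩
    refine ⟨N * γ / δ ^ 2, M * γ / δ, e, ?_, ?_⟩
    · rcases hMe with h | h
      · exact Or.inl (div_ne_zero (mul_ne_zero h hγ0) hδ0)
      · exact Or.inr h
    · push_cast at hN
      rw [hBK', hδ, hγ] at hN
      field_simp at hN ⊢
      linear_combination hN
  · rintro ⟨N, M, e, hMe, hN⟩
    refine ⟨N * δ ^ 2 / γ, M * δ / γ, e, ?_, ?_⟩
    · rcases hMe with h | h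
      · exact Or.inl (div_ne_zero (mul_ne_zero h hδ0) hγ0)
      · exact Or.inr h
    · push_cast
      rw [hBK', hδ, hγ]
      field_simp
      linear_combination hN

/-- the symbols of the roots -/
def Root (a b : ℤ) (S : Finset ℕ) (f : ℕ → ZMod 2) : Prop :=
  ∀ p ∈ S, ∃ e : ZMod p, e ^ 2 + (a : ZMod p) * e + (b : ZMod p) = 0 ∧ f p = sg p e

theorem leg_outG (hS : SS a b S) {V : Finset ℕ} (hV : V ⊆ S) {p : ℕ} [hp : Fact p.Prime]
    (hpV : p ∉ V) (f : ℕ → ZMod 2) :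
    IsSquare ((∏ j ∈ V, j : ℕ) : ZMod p) ↔ ∑ j ∈ V, en f S p j = 0 := by
  have h1 : ∀ j ∈ V, (j : ZMod p) ≠ 0 := fun j hj =>
    cast_ne hp.out (hS j (hV hj)).1 (fun e : j = p => hpV (e ▸ hj))
  rw [← sg_zero, (sg_prod V h1).2]
  have h2 : ∑ j ∈ V, nonsq p j = ∑ j ∈ V, en f S p j := by
    refine Finset.sum_congr rfl fun j hj => ?_
    unfold en
    rw [if_neg (fun e : p = j => hpV (e ▸ hj))]
  rw [h2]

theorem leg_inG (hS : SS a b S) {V : Finset ℕ} (hV : V ⊆ S) {p : ℕ} [hp : Fact p.Prime]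
    (hpV : p ∈ V) {e : ZMod p} (he : e ≠ 0) {f : ℕ → ZMod 2} (hf : f p = sg p e) :
    IsSquare (((∏ j ∈ V.erase p, j : ℕ) : ZMod p) * ((∏ j ∈ S.erase p, j : ℕ) : ZMod p) * e) ↔
      ∑ j ∈ V, en f S p j = 0 := by
  have h1 : ∀ j ∈ V.erase p, (j : ZMod p) ≠ 0 := fun j hj =>
    cast_ne hp.out (hS j (hV (Finset.mem_of_mem_erase hj))).1 (Finset.ne_of_mem_erase hj)
  have h2 : ∀ j ∈ S.erase p, (j : ZMod p) ≠ 0 := fun j hj =>
    cast_ne hp.out (hS j (Finset.mem_of_mem_erase hj)).1 (Finset.ne_of_mem_erase hj)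
  obtain ⟨k1, k2⟩ := sg_prod (p := p) _ h1
  obtain ⟨k3, k4⟩ := sg_prod (p := p) _ h2
  rw [← sg_zero, sg_mul (mul_ne_zero k1 k3) he, sg_mul k1 k3, k2, k4,
    ← hf, ← Finset.add_sum_erase V _ hpV]
  have h6 : ∑ j ∈ V.erase p, nonsq p j = ∑ j ∈ V.erase p, en f S p j := by
    refine Finset.sum_congr rfl fun j hj => ?_
    unfold en
    rw [if_neg (fun e => Finset.ne_of_mem_erase hj e.symm)]
  have h7 : en f S p p = f p + ∑ l ∈ S.erase p, nonsq p l := by
    unfold en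
    rw [if_pos rfl]
  rw [h6, h7]
  have e : ∀ a b c : ZMod 2, a + b + c = c + b + a := fun a b c => by ring
  rw [e]

/-- local solubility at the places outside `S` of the twisted and of the original quartic -/
theorem outside (hG : GOOD) (hS : SS a b S) {V : Finset ℕ} (hV : V ⊆ S) {u b₂ B₂ : ℤ} (hu : u * b₂ = b) (hB : B₂ * dV V = b₂ * dV S ^ 2)
    (l : ℕ) [hl : Fact l.Prime] (hlS : l ∉ S) :
    Sol ℚ_[l] (a * dV S) (u * dV V) B₂ ↔ Sol ℚ_[l] a u b₂ := by
  have hSp := dG_pos hS (Finset.Subset.refl S)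
  have hVp := dG_pos hS hV
  by_cases hlb : l = 2 ∨ (l : ℤ) ∣ b * (a ^ 2 - 4 * b)
  · exact scale (dG_sqb hS (Finset.Subset.refl S) hlb) (dG_sqb hS hV hlb)
      (by exact_mod_cast hSp.ne') (by exact_mod_cast hVp.ne') hB
  · push Not at hlb
    obtain ⟨hl2, hlb⟩ := hlb
    have hlp := Nat.prime_iff_prime_int.1 hl.out
    have h1 : ¬ (l : ℤ) ∣ b := fun h => hlb (h.mul_right _)
    have h2 : ¬ (l : ℤ) ∣ a ^ 2 - 4 * b := fun h => hlb (h.mul_left _)
    have h3 : ¬ (l : ℤ) ∣ dV S := fun h => hlS ((dvd_dG hS (Finset.Subset.refl S) hl.out).1 h)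
    have h4 : (u * dV V) * B₂ = b * dV S ^ 2 := by
      rw [← hu]
      linear_combination u * hB
    have h5 : ¬ (l : ℤ) ∣ b * dV S ^ 2 := fun h => by
      rcases hlp.dvd_or_dvd h with h | h
      · exact h1 h
      · exact h3 (hlp.dvd_of_dvd_pow h)
    constructor
    · intro _
      refine hG l a u b₂ hl2 (fun h => h1 (hu ▸ h.mul_right _)) (fun h => h1 (hu ▸ h.mul_left _)) ?_
      rw [mul_assoc, hu]
      exact h2
    · intro _
      refine hG l _ _ B₂ hl2 (fun h => h5 (h4 ▸ h.mul_right _)) (fun h => h5 (h4 ▸ h.mul_left _)) ?_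
      have e : (a * dV S) ^ 2 - 4 * (u * dV V) * B₂ = (a ^ 2 - 4 * b) * dV S ^ 2 := by
        linear_combination -4 * h4
      rw [e]
      intro h
      rcases hlp.dvd_or_dvd h with h | h
      · exact h2 h
      · exact h3 (hlp.dvd_of_dvd_pow h)

end Pool.Agent.R413.TI
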