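import Pool.Agent.R413.TI.GlobG

/-!
Project GE: the classes of the twists of any curve by products of split primes, the count.
-/

set_option autoImplicit false

namespace Pool.Agent.R413.TI

open Pool.Agent.Results.MP_4a9ea6_nt.TwoPartTwistsX49 (nonsq)

variable {a b : ℤ} {S : Finset ℕ} {f : ℕ → ZMod 2}

theorem b_ndvd (hS : SS a b S) {p : ℕ} (hp : p ∈ S) : ¬ (p : ℤ) ∣ b := fun h =>
  spl_ndvd hS hp (h.mul_right _)

theorem d_ndvd (hS : SS a b S) {p : ℕ} (hp : p ∈ S) : ¬ (p : ℤ) ∣ a ^ 2 - 4 * b := fun h =>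
  spl_ndvd hS hp (h.mul_left _)

/-- the local condition at a prime of `S` -/
theorem at_S (hP : SPLG) (hb : b ≠ 0) (hS : SS a b S) (hf : Root a b S f) {V : Finset ℕ}
    (hV : V ⊆ S) {u b₂ B₂ : ℤ} (hu : u * b₂ = b) (hB : B₂ * dV V = b₂ * dV S ^ 2)
    (hsf : Squarefree (u * dV V)) {p : ℕ} [hp : Fact p.Prime] (hpS : p ∈ S) :
    Sol ℚ_[p] (a * dV S) (u * dV V) B₂ ↔ ∑ j ∈ V, en f S p j = 0 := by
  obtain ⟨e, he, hfe⟩ := hf p hpS
  have hp8 := (hS p hpS).2.1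
  have hu0 : u ≠ 0 := by
    rintro rfl
    exact hb (by rw [← hu, zero_mul])
  have hbsq := bad_sq hS hpS hb fun l _ h => Or.inr (h.mul_right _)
  have husq := bad_sq hS hpS hu0 fun l _ h => Or.inr ((h.trans ⟨b₂, hu.symm⟩).mul_right _)
  have he0 : e ≠ 0 := by
    rintro rfl
    apply hbsq.1
    linear_combination he
  have hD : dV S = p * dV (S.erase p) := dG_erase hpS
  have hD' : ¬ (p : ℤ) ∣ dV (S.erase p) := by
    rw [dvd_dG hS (Finset.erase_subset p S) hp.out]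
    exact Finset.notMem_erase p S
  have hBB : u * dV V * B₂ = b * dV S ^ 2 := by
    rw [← hu]
    linear_combination u * hB
  obtain ⟨k1, k2⟩ := hP p a b (dV S) (dV (S.erase p)) (u * dV V) B₂ e (by omega) (b_ndvd hS hpS)
    (d_ndvd hS hpS) hbsq.2 he hD hD' hsf hBB
  have hpu : ¬ (p : ℤ) ∣ u := fun h => b_ndvd hS hpS (hu ▸ h.mul_right _)
  by_cases hpV : p ∈ V
  · have h5 : u * dV V = p * (u * dV (V.erase p)) := by
      rw [dG_erase hpV]
      ring
    rw [k2 _ h5, Int.cast_mul, mul_assoc, mul_assoc, sq_mul_iff husq.1 husq.2, ← mul_assoc,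
      dV_cast, dV_cast]
    exact leg_inG hS hV hpV he0 hfe
  · have h5 : ¬ (p : ℤ) ∣ u * dV V := by
      intro h
      rcases (Nat.prime_iff_prime_int.1 hp.out).dvd_or_dvd h with h | h
      · exact hpu h
      · exact hpV ((dvd_dG hS hV hp.out).1 h)
    rw [k1 h5, Int.cast_mul, sq_mul_iff husq.1 husq.2, dV_cast]
    exact leg_outG hS hV hpV f

/-- the real place -/
theorem at_R (hS : SS a b S) {V : Finset ℕ} (hV : V ⊆ S) {u b₂ B₂ : ℤ}
    (hB : B₂ * dV V = b₂ * dV S ^ 2) :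
    Sol ℝ (a * dV S) (u * dV V) B₂ ↔ Sol ℝ a u b₂ := by
  have key : ∀ n : ℤ, 0 < n → IsSquare ((n : ℤ) : ℝ) ∧ ((n : ℤ) : ℝ) ≠ 0 := by
    intro n hn
    refine ⟨⟨Real.sqrt n, ?_⟩, by exact_mod_cast hn.ne'⟩
    rw [Real.mul_self_sqrt (by exact_mod_cast hn.le)]
  have h1 := key _ (dG_pos hS (Finset.Subset.refl S))
  have h2 := key _ (dG_pos hS hV)
  exact scale h1.1 h2.1 h1.2 h2.2 hB

theorem rel_prime (hS : SS a b S) {V : Finset ℕ} (hV : V ⊆ S) {u : ℤ}
    (hu : ∀ p ∈ V, ¬ (p : ℤ) ∣ u) : IsCoprime u (dV V) := by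
  rw [Int.isCoprime_iff_gcd_eq_one]
  by_contra h
  obtain ⟨p, hp, hpd⟩ := Nat.exists_prime_and_dvd h
  have h1 : (p : ℤ) ∣ u := (Int.natCast_dvd_natCast.2 hpd).trans (Int.gcd_dvd_left ..)
  have h2 : (p : ℤ) ∣ dV V := (Int.natCast_dvd_natCast.2 hpd).trans (Int.gcd_dvd_right ..)
  exact hu p ((dvd_dG hS hV hp).1 h2) h1

/-- **the classes** -/
theorem clsG (hG : GOOD) (hP : SPLG) (hb : b ≠ 0) (hS : SS a b S) (hf : Root a b S f) (b₁ : ℤ) :
    b₁ ∈ CL (a * dV S) (b * dV S ^ 2) ↔ ∃ u ∈ CL a b, ∃ V, KerG f S V ∧ b₁ = u * dV V := by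
  classical
  have hSp := dG_pos hS (Finset.Subset.refl S)
  constructor
  · rintro ⟨hsf, hdv, hR, hloc⟩
    set V := S.filter fun p : ℕ => (p : ℤ) ∣ b₁ with hVdef
    have hV : V ⊆ S := Finset.filter_subset _ _
    have h1 : dV V ∣ b₁ := by
      unfold dV
      rw [← Int.dvd_natAbs, Int.natCast_dvd_natCast]
      refine Finset.prod_primes_dvd _ (fun p hp => Nat.prime_iff.1 (hS p (hV hp)).1) fun p hp => ?_
      exact Int.natCast_dvd.1 (Finset.mem_filter.1 hp).2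
    obtain ⟨u, hu⟩ := h1
    have hu' : b₁ = u * dV V := by rw [hu, mul_comm]
    have hb10 : b₁ ≠ 0 := hsf.ne_zero
    have hu0 : u ≠ 0 := by
      rintro rfl
      exact hb10 (by rw [hu', zero_mul])
    have hpu : ∀ p ∈ S, ¬ (p : ℤ) ∣ u := by
      intro p hp h
      have hpV : p ∈ V := Finset.mem_filter.2 ⟨hp, hu' ▸ h.mul_right _⟩
      have h2 : (p : ℤ) ∣ dV V := (dvd_dG hS hV (hS p hp).1).2 hpV
      have h3 : (p : ℤ) * p ∣ b₁ := hu' ▸ mul_dvd_mul h h2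
      have h4 := hsf p h3
      exact (Nat.prime_iff_prime_int.1 (hS p hp).1).not_isUnit h4
    have hub : u ∣ b := by
      have h2 : u ∣ b * dV S ^ 2 := (Dvd.intro (dV V) hu'.symm : u ∣ b₁).trans hdv
      exact (rel_prime hS (Finset.Subset.refl S) hpu).pow_right.dvd_of_dvd_mul_right h2
    have hub' : u * (b / u) = b := Int.mul_ediv_cancel' hub
    have hBB : b₁ * (b * dV S ^ 2 / b₁) = b * dV S ^ 2 := Int.mul_ediv_cancel' hdv
    have hB : (b * dV S ^ 2 / b₁) * dV V = (b / u) * dV S ^ 2 := by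
      have h6 : u * ((b / u) * dV S ^ 2) = b * dV S ^ 2 := by
        rw [← mul_assoc, hub']
      have h7 : ∀ Q : ℤ, u * (Q * dV V) = b₁ * Q := fun Q => by
        rw [hu']
        ring
      have h5 : u * ((b * dV S ^ 2 / b₁) * dV V) = u * ((b / u) * dV S ^ 2) := by
        rw [h7, hBB, h6]
      exact mul_left_cancel₀ hu0 h5
    have hsf' : Squarefree (u * dV V) := hu' ▸ hsf
    refine ⟨u, ⟨hsf.squarefree_of_dvd ⟨dV V, hu'⟩, hub, ?_, fun l hl => ?_⟩, V, ⟨hV, fun p hp => ?_⟩,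
      hu'⟩
    · exact (at_R hS hV hB).1 (hu' ▸ hR)
    · by_cases hlS : l ∈ S
      · refine hG l a u _ ?_ (fun h => b_ndvd hS hlS (hub' ▸ h.mul_right _))
          (fun h => b_ndvd hS hlS (hub' ▸ h.mul_left _)) ?_
        · have := (hS l hlS).2.1
          omega
        · rw [mul_assoc, hub']
          exact d_ndvd hS hlS
      · exact (outside hG hS hV hub' hB l hlS).1 (hu' ▸ hloc l)
    · have : Fact p.Prime := ⟨(hS p hp).1⟩
      exact (at_S hP hb hS hf hV hub' hB hsf' hp).1 (hu' ▸ hloc p)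
  · rintro ⟨u, ⟨hsu, hub, hR, hloc⟩, V, ⟨hV, hk⟩, rfl⟩
    have hub' : u * (b / u) = b := Int.mul_ediv_cancel' hub
    have hu0 : u ≠ 0 := hsu.ne_zero
    have hpu : ∀ p ∈ V, ¬ (p : ℤ) ∣ u := fun p hp h => b_ndvd hS (hV hp) (h.trans hub)
    have hcop := rel_prime hS hV hpu
    have hsf : Squarefree (u * dV V) :=
      squarefree_mul_iff.2 ⟨hcop.isRelPrime, hsu, dG_sf hS hV⟩
    have hdS : dV V ∣ dV S := by
      unfold dV
      exact Int.natCast_dvd_natCast.2 (Finset.prod_dvd_prod_of_subset _ _ _ hV)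
    obtain ⟨m, hm⟩ := hdS
    have h1 : b * dV S ^ 2 = u * dV V * (b / u * (m * dV S)) := by
      conv_lhs => rw [← hub']
      linear_combination u * (b / u) * dV S * hm
    have h0 : u * dV V ≠ 0 := mul_ne_zero hu0 (dG_pos hS hV).ne'
    have h2 : b * dV S ^ 2 / (u * dV V) = b / u * (m * dV S) := by
      rw [h1]
      exact Int.mul_ediv_cancel_left _ h0
    have hB : (b / u * (m * dV S)) * dV V = (b / u) * dV S ^ 2 := by
      linear_combination (-(b / u) * dV S) * hm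
    refine ⟨hsf, ⟨_, h1⟩, ?_, fun l hl => ?_⟩
    · rw [h2]
      exact (at_R hS hV hB).2 hR
    · rw [h2]
      by_cases hlS : l ∈ S
      · exact (at_S hP hb hS hf hV hub' hB hsf hlS).2 (hk l hlS)
      · exact (outside hG hS hV hub' hB l hlS).2 (hloc l)

theorem CL_finite (a : ℤ) {b : ℤ} (hb : b ≠ 0) : (CL a b).Finite := by
  refine (Set.finite_Icc (-|b|) |b|).subset fun u hu => ?_
  have h1 : |u| ≤ |b| := Int.le_of_dvd (abs_pos.2 hb) ((abs_dvd_abs u b).2 hu.2.1)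
  exact abs_le.1 h1

theorem ker_finite (f : ℕ → ZMod 2) (S : Finset ℕ) : {V | KerG f S V}.Finite :=
  (Finset.finite_toSet S.powerset).subset fun _ hV => Finset.mem_coe.2 (Finset.mem_powerset.2 hV.1)

/-- **the number of the classes** -/
theorem ncardG (hG : GOOD) (hP : SPLG) (hb : b ≠ 0) (hS : SS a b S) (hf : Root a b S f) :
    (CL (a * dV S) (b * dV S ^ 2)).ncard = (CL a b).ncard * {V | KerG f S V}.ncard := by
  have h1 : CL (a * dV S) (b * dV S ^ 2) =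
      (fun x : ℤ × Finset ℕ => x.1 * dV x.2) '' (CL a b ×ˢ {V | KerG f S V}) := by
    ext b₁
    rw [clsG hG hP hb hS hf]
    constructor
    · rintro ⟨u, hu, V, hV, rfl⟩
      exact ⟨(u, V), ⟨hu, hV⟩, rfl⟩
    · rintro ⟨⟨u, V⟩, ⟨hu, hV⟩, rfl⟩
      exact ⟨u, hu, V, hV, rfl⟩
  rw [h1, Set.InjOn.ncard_image, Set.ncard_prod]
  rintro ⟨u, V⟩ ⟨hu, hV⟩ ⟨u', V'⟩ ⟨hu', hV'⟩ h
  have h2 : u * dV V = u' * dV V' := h
  have hu2 : u ∈ CL a b := hu
  have hu2' : u' ∈ CL a b := hu'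
  have hk : KerG f S V := hV
  have hk' : KerG f S V' := hV'
  have key : ∀ (u : ℤ) (V : Finset ℕ), u ∈ CL a b → KerG f S V → ∀ p ∈ S,
      ((p : ℤ) ∣ u * dV V ↔ p ∈ V) := by
    intro u V hu hV p hp
    rw [(Nat.prime_iff_prime_int.1 (hS p hp).1).dvd_mul, dvd_dG hS hV.1 (hS p hp).1]
    constructor
    · rintro (h | h)
      · exact absurd (h.trans hu.2.1) (b_ndvd hS hp)
      · exact h
    · exact Or.inr
  have hVV : V = V' := by
    ext p
    constructor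
    · intro hp
      have := (key u V hu2 hk p (hk.1 hp)).2 hp
      rw [h2] at this
      exact (key u' V' hu2' hk' p (hk.1 hp)).1 this
    · intro hp
      have := (key u' V' hu2' hk' p (hk'.1 hp)).2 hp
      rw [← h2] at this
      exact (key u V hu2 hk p (hk'.1 hp)).1 this
  subst hVV
  have h3 := mul_right_cancel₀ (dG_pos hS hk.1).ne' h2
  rw [h3]

end Pool.Agent.R413.TI
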