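import Pool.Agent.R413.TI.StmG

/-!
Project GE, piece GRP: ranks and indices for two homomorphisms with `ψ φ = 2`, `φ ψ = 2`.
-/

set_option autoImplicit false

namespace Pool.Agent.R413.TI

namespace GrpAux

open AddSubgroup

/-- `#ker (f restricted to K) * #f(K) = #K` -/
theorem card_ker_map {G H : Type} [AddCommGroup G] [AddCommGroup H] (f : G →+ H)
    (K : AddSubgroup G) (hK : f.ker ≤ K) :
    Nat.card f.ker * Nat.card (K.map f) = Nat.card K := by
  have h1 : (⊥ : AddSubgroup G).relIndex f.ker * f.ker.relIndex K =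
      (⊥ : AddSubgroup G).relIndex K := relIndex_mul_relIndex _ _ _ bot_le hK
  have h2 : f.ker.relIndex K = Nat.card (K.map f) := by
    have : f.ker = AddSubgroup.comap f ⊥ := rfl
    rw [this, relIndex_comap, relIndex_bot_left]
  rwa [relIndex_bot_left, relIndex_bot_left, h2] at h1

theorem index_two (A : Type) [AddCommGroup A] [Module.Finite ℤ A] :
    (nsmulAddMonoidHom (α := A) 2).range.index =
      2 ^ Module.finrank ℤ A * Nat.card (nsmulAddMonoidHom (α := A) 2).ker ∧
    Nat.card (nsmulAddMonoidHom (α := A) 2).ker ≠ 0 := by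
  obtain ⟨N2, hN2⟩ : ∃ N2 : A →+ A, N2 = nsmulAddMonoidHom (α := A) 2 := ⟨_, rfl⟩
  rw [← hN2]
  have hN2a : ∀ x, N2 x = 2 • x := by intro x; rw [hN2]; rfl
  -- the torsion submodule
  obtain ⟨M, hM⟩ : ∃ M : Submodule ℤ A, M = Submodule.torsion ℤ A := ⟨_, rfl⟩
  have hfinM : Finite M := by
    rw [hM]
    exact Module.finite_of_fg_torsion _ (Submodule.torsion_isTorsion)
  have hfr : Module.finrank ℤ (A ⧸ M) = Module.finrank ℤ A :=
    finrank_quotient_eq_of_le_torsion (le_of_eq hM)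
  have htf : Module.IsTorsionFree ℤ (A ⧸ M) := by
    rw [hM]
    infer_instance
  have hfree : Module.Free ℤ (A ⧸ M) := inferInstance
  obtain ⟨t, ht⟩ : ∃ t : AddSubgroup A, t = M.toAddSubgroup := ⟨_, rfl⟩
  have hfint : Finite t := by
    rw [ht]
    exact hfinM
  have hmem : ∀ x : A, x ∈ t ↔ ∃ a : ℤ, a ≠ 0 ∧ a • x = 0 := by
    intro x
    rw [ht, Submodule.mem_toAddSubgroup, hM, Submodule.mem_torsion_iff]
    constructor
    · rintro ⟨⟨a, ha⟩, hax⟩
      exact ⟨a, nonZeroDivisors.ne_zero ha, hax⟩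
    · rintro ⟨a, ha, hax⟩
      exact ⟨⟨a, mem_nonZeroDivisors_of_ne_zero ha⟩, hax⟩
  have hker : N2.ker ≤ t := by
    intro x hx
    rw [AddMonoidHom.mem_ker, hN2a] at hx
    rw [hmem]
    exact ⟨2, by norm_num, by rw [← hx]; exact_mod_cast (natCast_zsmul x 2)⟩
  obtain ⟨q, hq⟩ : ∃ q : A →+ A ⧸ M, q = M.mkQ.toAddMonoidHom := ⟨_, rfl⟩
  have hqs : Function.Surjective q := by
    rw [hq]
    exact M.mkQ_surjective
  have hqk : q.ker = t := by
    ext x
    rw [AddMonoidHom.mem_ker, hq, ht]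
    show M.mkQ x = 0 ↔ x ∈ M
    rw [Submodule.mkQ_apply, Submodule.Quotient.mk_eq_zero]
  -- the index of `R ⊔ t`
  have e1 : (N2.range.map q) = (nsmulAddMonoidHom (α := A ⧸ M) 2).range := by
    ext y
    constructor
    · rintro ⟨x, ⟨z, rfl⟩, rfl⟩
      refine ⟨q z, ?_⟩
      rw [hN2a, map_nsmul]
      rfl
    · rintro ⟨y, rfl⟩
      obtain ⟨z, rfl⟩ := hqs y
      refine ⟨N2 z, ⟨z, rfl⟩, ?_⟩
      rw [hN2a, map_nsmul]
      rfl
  have e2 : (N2.range ⊔ t).index = 2 ^ Module.finrank ℤ A := by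
    have h := index_map N2.range q
    rw [e1, index_range_nsmul, hfr, hqk, AddMonoidHom.range_eq_top_of_surjective q hqs, index_top,
      mul_one] at h
    exact h.symm
  have e3 : N2.range.relIndex (N2.range ⊔ t) * (N2.range ⊔ t).index = N2.range.index :=
    relIndex_mul_index le_sup_left
  have e4 : N2.range.relIndex (N2.range ⊔ t) = N2.range.relIndex t := relIndex_sup_left _ _
  have e5 : N2.range ⊓ t = t.map N2 := by
    ext x
    constructor
    · rintro ⟨⟨z, rfl⟩, hx⟩
      refine ⟨z, ?_, rfl⟩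
      have hx' : N2 z ∈ t := hx
      rw [hmem] at hx'
      obtain ⟨a, ha, hax⟩ := hx'
      show z ∈ t
      rw [hmem]
      refine ⟨a * 2, by positivity, ?_⟩
      rw [mul_smul, ← hax, hN2a]
      congr 1
      exact_mod_cast (natCast_zsmul z 2)
    · rintro ⟨z, hz, rfl⟩
      refine ⟨⟨z, rfl⟩, ?_⟩
      rw [hN2a]
      exact t.nsmul_mem hz 2
  have e6 : N2.range.relIndex t = (t.map N2).relIndex t := by
    rw [← e5, inf_relIndex_right]
  have hle : t.map N2 ≤ t := by
    rw [← e5]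
    exact inf_le_right
  have e7 : Nat.card (t.map N2) * (t.map N2).relIndex t = Nat.card t := by
    have := relIndex_mul_relIndex (⊥ : AddSubgroup A) (t.map N2) t bot_le hle
    rwa [relIndex_bot_left, relIndex_bot_left] at this
  have e8 := card_ker_map N2 t hker
  have ht0 : Nat.card t ≠ 0 := Nat.card_pos.ne'
  have h0 : Nat.card (t.map N2) ≠ 0 := by
    intro h
    rw [h, zero_mul] at e7
    exact ht0 e7.symm
  have e9 : (t.map N2).relIndex t = Nat.card N2.ker := by
    apply Nat.eq_of_mul_eq_mul_left (Nat.pos_of_ne_zero h0)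
    rw [e7, ← e8, mul_comm]
  refine ⟨?_, ?_⟩
  · rw [← e3, e2, e4, e6, e9, mul_comm]
  · intro h
    rw [h, zero_mul] at e8
    exact ht0 e8.symm

theorem card_pair {G : Type} [AddCommGroup G] (K : AddSubgroup G) (T : G) (hT : T ≠ 0)
    (hK : ∀ x, x ∈ K ↔ x = 0 ∨ x = T) : Nat.card K = 2 := by
  have : (K : Set G) = {0, T} := by
    ext x
    rw [SetLike.mem_coe, hK]
    simp
  have h2 : Nat.card K = (K : Set G).ncard := rfl
  rw [h2, this, Set.ncard_pair hT.symm]

end GrpAux

open AddSubgroup GrpAux in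
theorem grp : GRP := by
  intro A B _ _ _ _ φ ψ T T' h1 h2 hT hT' hφ hψ
  obtain ⟨i1, i2⟩ := index_two A
  obtain ⟨N2, hN2⟩ : ∃ N2 : A →+ A, N2 = nsmulAddMonoidHom (α := A) 2 := ⟨_, rfl⟩
  rw [← hN2] at i1 i2
  have hN2a : ∀ x, N2 x = ψ (φ x) := by
    intro x
    rw [hN2, h1]
    show 2 • x = x + x
    rw [two_nsmul]
  have e1 : N2.range = φ.range.map ψ := by
    ext x
    constructor
    · rintro ⟨z, rfl⟩
      exact ⟨φ z, ⟨z, rfl⟩, (hN2a z).symm⟩
    · rintro ⟨y, ⟨z, rfl⟩, rfl⟩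
      exact ⟨z, hN2a z⟩
  have c1 : Nat.card φ.ker = 2 := card_pair φ.ker T hT (fun x => by
    rw [AddMonoidHom.mem_ker]; exact hφ x)
  have c2 : Nat.card ψ.ker = 2 := card_pair ψ.ker T' hT' (fun x => by
    rw [AddMonoidHom.mem_ker]; exact hψ x)
  -- (i)
  have f1 : N2.range.index = (φ.range ⊔ ψ.ker).index * ψ.range.index := by
    rw [e1, index_map]
  -- (ii)
  have f2 : φ.range.relIndex ψ.ker * (φ.range ⊔ ψ.ker).index = φ.range.index := by
    rw [← relIndex_sup_left ψ.ker φ.range]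
    exact relIndex_mul_index le_sup_left
  -- (iii)
  have f3 : Nat.card (φ.range ⊓ ψ.ker : AddSubgroup B) * φ.range.relIndex ψ.ker = 2 := by
    have := relIndex_mul_relIndex (⊥ : AddSubgroup B) (φ.range ⊓ ψ.ker) ψ.ker bot_le inf_le_right
    rwa [relIndex_bot_left, relIndex_bot_left, inf_relIndex_right, c2] at this
  -- (iv)
  have f4 : Nat.card N2.ker = 2 * Nat.card (φ.range ⊓ ψ.ker : AddSubgroup B) := by
    have hk : φ.ker ≤ N2.ker := by
      intro x hx
      rw [AddMonoidHom.mem_ker] at hx ⊢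
      rw [hN2a, hx, map_zero]
    have h3 := card_ker_map φ N2.ker hk
    have h4 : N2.ker.map φ = φ.range ⊓ ψ.ker := by
      ext y
      constructor
      · rintro ⟨x, hx, rfl⟩
        refine ⟨⟨x, rfl⟩, ?_⟩
        have hx' : N2 x = 0 := hx
        rw [hN2a] at hx'
        exact hx'
      · rintro ⟨⟨x, rfl⟩, hx⟩
        refine ⟨x, ?_, rfl⟩
        show N2 x = 0
        rw [hN2a]
        exact hx
    rw [h4, c1] at h3
    exact h3.symm
  have main : 4 * 2 ^ Module.finrank ℤ A = ψ.range.index * φ.range.index := by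
    calc 4 * 2 ^ Module.finrank ℤ A
        = 2 * 2 ^ Module.finrank ℤ A * (Nat.card (φ.range ⊓ ψ.ker : AddSubgroup B) *
            φ.range.relIndex ψ.ker) := by rw [f3]; ring
      _ = 2 ^ Module.finrank ℤ A * (2 * Nat.card (φ.range ⊓ ψ.ker : AddSubgroup B)) *
            φ.range.relIndex ψ.ker := by ring
      _ = N2.range.index * φ.range.relIndex ψ.ker := by rw [← f4, ← i1]
      _ = ψ.range.index * (φ.range.relIndex ψ.ker * (φ.range ⊔ ψ.ker).index) := by
          rw [f1]; ring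
      _ = ψ.range.index * φ.range.index := by rw [f2]
  have hne : ψ.range.index * φ.range.index ≠ 0 := by
    rw [← main]
    positivity
  exact ⟨left_ne_zero_of_mul hne, right_ne_zero_of_mul hne, main⟩

end Pool.Agent.R413.TI
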