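import Pool.Agent.Y676.IS.Alg4
import Pool.Agent.R413.TI.StmG

/-!
# GE-IMA: the two 2-isogenies over `ℚ` and their images (helper799, for helper413)
-/

set_option autoImplicit false
set_option linter.unusedSectionVars false

namespace Pool.Agent.R413.TI

open WeierstrassCurve

namespace ImaP

open Pool.Agent.Y676.IS

/-- the isogeny between curves equal to `Cu a b`, `Cu a' b'` -/
noncomputable def isoV {F : Type} [Field F] [CharZero F] {W W' : WeierstrassCurve.Affine F}
    {a b a' b' u : F} (hW : W = Cu a b) (hW' : W' = Cu a' b') (h : Dat a b a' b' u) :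
    W.Point → W'.Point := fun P => hW'.symm ▸ isoF h (hW ▸ P)

lemma isoV_zero {F : Type} [Field F] [CharZero F] {W W' : WeierstrassCurve.Affine F}
    {a b a' b' u : F} (hW : W = Cu a b) (hW' : W' = Cu a' b') (h : Dat a b a' b' u) :
    isoV hW hW' h .zero = .zero := by
  subst hW hW'
  rfl

lemma isoV_x0 {F : Type} [Field F] [CharZero F] {W W' : WeierstrassCurve.Affine F}
    {a b a' b' u : F} (hW : W = Cu a b) (hW' : W' = Cu a' b') (h : Dat a b a' b' u)
    {x y : F} (hxy : W.Nonsingular x y) (hx : x = 0) :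
    isoV hW hW' h (.some x y hxy) = .zero := by
  subst hW hW'
  exact isoF_x0 h hxy hx

lemma isoV_some {F : Type} [Field F] [CharZero F] {W W' : WeierstrassCurve.Affine F}
    {a b a' b' u : F} (hW : W = Cu a b) (hW' : W' = Cu a' b') (h : Dat a b a' b' u)
    {x y : F} (hxy : W.Nonsingular x y) (hx : x ≠ 0) :
    ∃ h', isoV hW hW' h (.some x y hxy) = .some (y ^ 2 / (u ^ 2 * x ^ 2))
      (y * (b - x ^ 2) / (u ^ 3 * x ^ 2)) h' := by
  subst hW hW'
  exact ⟨_, isoF_some h hxy hx⟩

lemma isoV_add {F : Type} [Field F] [CharZero F] [DecidableEq F] [IsAlgClosed F]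
    {W W' : WeierstrassCurve.Affine F}
    {a b a' b' u : F} (hW : W = Cu a b) (hW' : W' = Cu a' b') (h : Dat a b a' b' u)
    (P Q : W.Point) : isoV hW hW' h (P + Q) = isoV hW hW' h P + isoV hW hW' h Q := by
  subst hW hW'
  exact add_all h P Q

section

variable {K : Type} [Field K] [CharZero K] [DecidableEq K] {a b a' b' u : K}

lemma bcL (a b : K) (L : Type) [Field L] [Algebra K L] [CharZero L] :
    ((Cu a b : WeierstrassCurve K).baseChange L).toAffine =
    Cu (algebraMap K L a) (algebraMap K L b) := by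
  apply WeierstrassCurve.ext
  · exact map_zero (algebraMap K L)
  · rfl
  · exact map_zero (algebraMap K L)
  · rfl
  · exact map_zero (algebraMap K L)

lemma datL (h : Dat a b a' b' u) (L : Type) [Field L] [Algebra K L] [CharZero L] :
    Dat (algebraMap K L a) (algebraMap K L b) (algebraMap K L a') (algebraMap K L b')
      (algebraMap K L u) where
  hb := (map_ne_zero _).2 h.hb
  hb' := (map_ne_zero _).2 h.hb'
  hu := (map_ne_zero _).2 h.hu
  e1 := by
    have := congrArg (algebraMap K L) h.e1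
    rwa [map_mul, map_pow, map_mul, map_neg, map_ofNat] at this
  e2 := by
    have := congrArg (algebraMap K L) h.e2
    rwa [map_mul, map_pow, map_sub, map_mul, map_pow, map_ofNat] at this

/-- **additivity over any field of characteristic zero** -/
theorem add_K (h : Dat a b a' b' u) (P Q : (Cu a b).Point) :
    isoF h (P + Q) = isoF h P + isoF h Q := by
  classical
  let L := AlgebraicClosure K
  have cL : CharZero L := charZero_of_injective_algebraMap (algebraMap K L).injective
  let f : K →ₐ[K] L := Algebra.ofId K L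
  let m : (Cu a b).Point →+ ((Cu a b : WeierstrassCurve K).baseChange L).toAffine.Point :=
    Affine.Point.map (W' := Cu a b) f
  let m' : (Cu a' b').Point →+ ((Cu a' b' : WeierstrassCurve K).baseChange L).toAffine.Point :=
    Affine.Point.map (W' := Cu a' b') f
  have hm' : Function.Injective m' := Affine.Point.map_injective (W' := Cu a' b') f
  let g := isoV (bcL a b L) (bcL a' b' L) (datL h L)
  have hg : ∀ P Q, g (P + Q) = g P + g Q := isoV_add (bcL a b L) (bcL a' b' L) (datL h L)
  have hc : ∀ P : (Cu a b).Point, m' (isoF h P) = g (m P) := by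
    intro P
    rcases P with _ | ⟨x, y, hxy⟩
    · change m' (isoF h 0) = g (m 0)
      rw [isoF_zero, map_zero, map_zero]
      exact (isoV_zero (bcL a b L) (bcL a' b' L) (datL h L)).symm
    · have em : m (.some x y hxy) = .some (f x) (f y)
          (((Cu a b).baseChange_nonsingular f.injective ..).mpr hxy) := rfl
      by_cases hx : x = 0
      · rw [isoF_x0 h hxy hx, map_zero, em]
        exact (isoV_x0 (bcL a b L) (bcL a' b' L) (datL h L) _ (by rw [hx, map_zero])).symm
      · rw [isoF_some h hxy hx, em]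
        obtain ⟨g2, e2⟩ := isoV_some (bcL a b L) (bcL a' b' L) (datL h L)
          (((Cu a b).baseChange_nonsingular f.injective ..).mpr hxy)
          (by rwa [Ne, map_eq_zero] : f x ≠ 0)
        refine Eq.trans ?_ e2.symm
        change Affine.Point.some (f _) (f _) _ = Affine.Point.some _ _ _
        apply some_congr
        · have : ∀ z : K, algebraMap K L z = f z := fun z => rfl
          rw [map_div₀, map_mul, map_pow, map_pow, map_pow, this]
        · have : ∀ z : K, algebraMap K L z = f z := fun z => rfl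
          rw [map_div₀, map_mul, map_mul, map_sub, map_pow, map_pow, this, this]
  apply hm'
  rw [map_add, hc, hc, hc, map_add, hg]

/-- the image: the abscissa is a nonzero square -/
lemma im_sq (h : Dat a b a' b' u) {X Y w : K} (hw : X = w ^ 2) (hX : X ≠ 0)
    (hns : (Cu a' b').Nonsingular X Y) : ∃ P, isoF h P = .some X Y hns := by
  have hw0 : w ≠ 0 := by
    rintro rfl
    apply hX
    rw [hw]
    ring
  have hu := h.hu
  have hE := ns_eq hns
  subst hw
  obtain ⟨x, hx⟩ : ∃ x, x = (u ^ 2 * w ^ 2 - a - u ^ 2 * (Y / w)) / 2 := ⟨_, rfl⟩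
  obtain ⟨z, hz⟩ : ∃ z, z = Y / w := ⟨_, rfl⟩
  rw [← hz] at hx
  have hzY : Y = z * w := by rw [hz]; field_simp
  have hz2 : z ^ 2 = w ^ 4 + a' * w ^ 2 + b' := by
    apply mul_left_cancel₀ (pow_ne_zero 2 hw0)
    rw [hzY] at hE
    linear_combination hE
  have hq : x ^ 2 + (a - u ^ 2 * w ^ 2) * x + b = 0 := by
    rw [hx]
    linear_combination (u ^ 4 / 4) * hz2 + (u ^ 2 * w ^ 2 / 4) * h.e1 + (1 / 4) * h.e2
  have hr : b - x ^ 2 = u ^ 2 * x * z := by
    have e : x * (2 * x) = x * (u ^ 2 * w ^ 2 - a - u ^ 2 * z) := by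
      rw [hx]; ring
    linear_combination hq - e
  have hx0 : x ≠ 0 := by
    intro h0
    rw [h0] at hq
    apply h.hb
    linear_combination hq
  have hcu : (u * w * x) ^ 2 = x ^ 3 + a * x ^ 2 + b * x := by
    linear_combination (-x) * hq
  refine ⟨.some x (u * w * x) (cu_ns h.hb h.hd hcu), ?_⟩
  rw [isoF_some h _ hx0]
  apply some_congr
  · field_simp
  · rw [hr, hzY]
    field_simp

/-- the image: the point `(0, 0)` -/
lemma im_T (h : Dat a b a' b' u) {X Y d : K} (hd : b' = d ^ 2) (hX : X = 0)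
    (hns : (Cu a' b').Nonsingular X Y) : ∃ P, isoF h P = .some X Y hns := by
  have hu := h.hu
  have hE := ns_eq hns
  subst hX
  have hY : Y = 0 := by
    have : Y ^ 2 = 0 := by rw [hE]; ring
    exact pow_eq_zero_iff two_ne_zero |>.1 this
  obtain ⟨x, hx⟩ : ∃ x, x = (-a + u ^ 2 * d) / 2 := ⟨_, rfl⟩
  have hq : x ^ 2 + a * x + b = 0 := by
    have := h.e2
    rw [hd] at this
    rw [hx]
    linear_combination (1 / 4) * this
  have hx0 : x ≠ 0 := by
    intro h0
    rw [h0] at hq
    apply h.hb
    linear_combination hq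
  have hcu : (0 : K) ^ 2 = x ^ 3 + a * x ^ 2 + b * x := by
    linear_combination (-x) * hq
  refine ⟨.some x 0 (cu_ns h.hb h.hd hcu), ?_⟩
  rw [isoF_some h _ hx0]
  apply some_congr
  · simp
  · rw [hY]
    simp

end

lemma im_cl {a b : ℚ} {a' b' : ℤ} {u : ℚ} (h : Dat a b (a' : ℚ) (b' : ℚ) u)
    (P : (CE a' b').toAffine.Point) (hP : IsSquare (cl a' b' P)) :
    ∃ Q : (Cu a b).Point, isoF h Q = P := by
  rcases P with _ | ⟨x, y, hxy⟩
  · exact ⟨0, rfl⟩
  · by_cases hx : x = 0
    · have e : cl a' b' (.some x y hxy) = (b' : ℚ) := if_pos hx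
      rw [e] at hP
      obtain ⟨d, hd⟩ := hP
      exact im_T h (d := d) (by rw [hd]; ring) hx hxy
    · have e : cl a' b' (.some x y hxy) = x := if_neg hx
      rw [e] at hP
      obtain ⟨w, hw⟩ := hP
      exact im_sq h (w := w) (by rw [hw]; ring) hx hxy

end ImaP

open Pool.Agent.Y676.IS in
/-- **GE-IMA** -/
theorem ima : IMA := by
  intro a b hb hd
  have hbQ : (b : ℚ) ≠ 0 := by exact_mod_cast hb
  have hdQ : ((a ^ 2 - 4 * b : ℤ) : ℚ) ≠ 0 := by exact_mod_cast hd
  have h : Dat (a : ℚ) (b : ℚ) ((-2 * a : ℤ) : ℚ) ((a ^ 2 - 4 * b : ℤ) : ℚ) 1 :=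
    ⟨hbQ, hdQ, one_ne_zero, by push_cast; ring, by push_cast; ring⟩
  have h' : Dat ((-2 * a : ℤ) : ℚ) ((a ^ 2 - 4 * b : ℤ) : ℚ) (a : ℚ) (b : ℚ) 2 :=
    ⟨hdQ, hbQ, two_ne_zero, by push_cast; ring, by push_cast; ring⟩
  refine ⟨AddMonoidHom.mk' (isoF h) (ImaP.add_K h), AddMonoidHom.mk' (isoF h') (ImaP.add_K h'),
    TT h.hb h.hd, TT h'.hb h'.hd, ?_, ?_, ?_, ?_, ?_, ?_, ?_, ?_⟩
  · intro x
    exact dbl h h' (by norm_num) x
  · intro y
    exact dbl h' h (by norm_num) y
  · exact Affine.Point.some_ne_zero _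
  · exact Affine.Point.some_ne_zero _
  · intro x
    constructor
    · intro hx
      exact ker h x hx
    · rintro (hx | hx)
      · rw [hx]
        exact isoF_zero h
      · rw [hx]
        exact isoF_T h
  · intro x
    constructor
    · intro hx
      exact ker h' x hx
    · rintro (hx | hx)
      · rw [hx]
        exact isoF_zero h'
      · rw [hx]
        exact isoF_T h'
  · intro P hP
    exact ImaP.im_cl h' P hP
  · intro P hP
    exact ImaP.im_cl h P hP

end Pool.Agent.R413.TI
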