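import Pool.Agent.R413.TI.StmG

/-!
Project GE: the classes of rational points are classes of the problem.
-/

set_option autoImplicit false

namespace Pool.Agent.R413.TI

open WeierstrassCurve

namespace ImcP

/-- a rational solution gives a solution over every field of characteristic zero -/
theorem sol_of_rat {K : Type} [Field K] [CharZero K] {a b₁ b₂ : ℤ} (h : Sol ℚ a b₁ b₂) :
    Sol K a b₁ b₂ := by
  obtain ⟨N, M, e, h0, h⟩ := h
  refine ⟨(N : K), (M : K), (e : K), ?_, ?_⟩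
  · rcases h0 with h0 | h0
    · left
      exact_mod_cast h0
    · right
      exact_mod_cast h0
  · exact_mod_cast congrArg (fun q : ℚ => (q : K)) h

theorem mem_CL {a b b₁ : ℤ} (h1 : Squarefree b₁) (h2 : b₁ ∣ b) (h : Sol ℚ a b₁ (b / b₁)) :
    b₁ ∈ CL a b :=
  ⟨h1, h2, sol_of_rat h, fun _ _ => sol_of_rat h⟩

/-- the squarefree part -/
theorem sqfree_part {n : ℤ} (hn : n ≠ 0) : ∃ b t : ℤ, Squarefree b ∧ t ≠ 0 ∧ n = b * t ^ 2 := by
  obtain ⟨a, c, hac, ha⟩ := Nat.sq_mul_squarefree n.natAbs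
  have hc : c ≠ 0 := by
    rintro rfl
    apply hn
    rw [← Int.natAbs_eq_zero, ← hac]
    ring
  rcases Int.natAbs_eq n with h | h
  · refine ⟨a, c, ?_, by exact_mod_cast hc, ?_⟩
    · rw [← Int.squarefree_natAbs]
      simpa using ha
    · rw [h, ← hac]
      push_cast
      ring
  · refine ⟨-a, c, ?_, by exact_mod_cast hc, ?_⟩
    · rw [← Int.squarefree_natAbs]
      simpa using ha
    · rw [h, ← hac]
      push_cast
      ring

theorem main {a b : ℤ} {x y : ℚ} (hx : x ≠ 0) (h : y ^ 2 = x ^ 3 + a * x ^ 2 + b * x) :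
    ∃ b₁ ∈ CL a b, IsSquare ((b₁ : ℚ) * x) := by
  obtain ⟨u, hu⟩ : ∃ u : ℤ, u = x.num := ⟨_, rfl⟩
  obtain ⟨v, hv⟩ : ∃ v : ℤ, v = (x.den : ℤ) := ⟨_, rfl⟩
  have hu0 : u ≠ 0 := by
    rw [hu]
    exact Rat.num_ne_zero.2 hx
  have hv0 : v ≠ 0 := by
    rw [hv]
    exact_mod_cast x.den_ne_zero
  have hvQ : (v : ℚ) ≠ 0 := by exact_mod_cast hv0
  have hxuv : x = (u : ℚ) / (v : ℚ) := by
    rw [hu, hv]
    exact_mod_cast (Rat.num_div_den x).symm
  have hcop : IsCoprime u v := by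
    rw [Int.isCoprime_iff_gcd_eq_one, hu, hv]
    exact x.reduced
  obtain ⟨b₁, t, hsf, ht, hbt⟩ := sqfree_part (mul_ne_zero hu0 hv0)
  have hb0 : b₁ ≠ 0 := hsf.ne_zero
  have htQ : (t : ℚ) ≠ 0 := by exact_mod_cast ht
  have hbQ : (b₁ : ℚ) ≠ 0 := by exact_mod_cast hb0
  have hbtQ : (u : ℚ) * v = b₁ * t ^ 2 := by exact_mod_cast hbt
  -- integrality
  have hz : (y * v ^ 2 / t) ^ 2 = (((b₁ * (u ^ 2 + a * u * v + b * v ^ 2) : ℤ)) : ℚ) := by
    have e1 : (y * v ^ 2 / t) ^ 2 = (y ^ 2 * v ^ 4) / t ^ 2 := by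
      field_simp
    rw [e1, div_eq_iff (pow_ne_zero 2 htQ), h, hxuv]
    push_cast
    have e2 : (b₁ : ℚ) * ((u : ℚ) ^ 2 + a * u * v + b * v ^ 2) * t ^ 2 =
        (u * v) * ((u : ℚ) ^ 2 + a * u * v + b * v ^ 2) := by
      rw [hbtQ]
      ring
    rw [e2]
    field_simp
  have hint : _root_.IsIntegral ℤ ((y * (v : ℚ) ^ 2 / (t : ℚ)) ^ 2) := by
    rw [hz]
    exact isIntegral_algebraMap
  obtain ⟨z, hzz⟩ := IsIntegrallyClosed.exists_algebraMap_eq_of_isIntegral_pow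
    (R := ℤ) (K := ℚ) (n := 2) two_pos hint
  have hz2 : z ^ 2 = b₁ * (u ^ 2 + a * u * v + b * v ^ 2) := by
    rw [← hzz] at hz
    simp only [algebraMap_int_eq, eq_intCast] at hz
    exact_mod_cast hz
  have hbz : b₁ ∣ z := (hsf.dvd_pow_iff_dvd two_ne_zero).1 ⟨_, hz2⟩
  obtain ⟨z', hz'⟩ := hbz
  have hQ : b₁ * z' ^ 2 = u ^ 2 + a * u * v + b * v ^ 2 := by
    apply mul_left_cancel₀ hb0
    rw [← hz2, hz']
    ring
  have huv : b₁ ∣ u * v := ⟨t ^ 2, hbt⟩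
  have hd1 : b₁ ∣ u ^ 2 + b * v ^ 2 := by
    have h1 : b₁ ∣ u ^ 2 + a * u * v + b * v ^ 2 := ⟨z' ^ 2, hQ.symm⟩
    have h2 : b₁ ∣ a * (u * v) := huv.mul_left a
    have e : u ^ 2 + b * v ^ 2 = (u ^ 2 + a * u * v + b * v ^ 2) - a * (u * v) := by ring
    rw [e]
    exact dvd_sub h1 h2
  have hcop2 : IsCoprime b₁ v := by
    rw [Int.isCoprime_iff_gcd_eq_one]
    have g1 : ((Int.gcd b₁ v : ℕ) : ℤ) ∣ v := Int.gcd_dvd_right _ _
    have g2 : ((Int.gcd b₁ v : ℕ) : ℤ) ∣ b₁ := Int.gcd_dvd_left _ _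
    have g3 : ((Int.gcd b₁ v : ℕ) : ℤ) ∣ u ^ 2 := by
      have k1 := g2.trans hd1
      have k2 : ((Int.gcd b₁ v : ℕ) : ℤ) ∣ b * v ^ 2 := (dvd_pow g1 two_ne_zero).mul_left b
      have e : u ^ 2 = (u ^ 2 + b * v ^ 2) - b * v ^ 2 := by ring
      rw [e]
      exact dvd_sub k1 k2
    have g4 : IsUnit ((Int.gcd b₁ v : ℕ) : ℤ) := (hcop.pow_left (m := 2)).isUnit_of_dvd' g3 g1
    have g5 := Int.isUnit_iff_natAbs_eq.1 g4
    simpa using g5
  have hbu : b₁ ∣ u := hcop2.dvd_of_dvd_mul_right huv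
  have hbb : b₁ ∣ b := by
    have k1 : b₁ ∣ b * v ^ 2 := by
      have e : b * v ^ 2 = (u ^ 2 + b * v ^ 2) - u * u := by ring
      rw [e]
      exact dvd_sub hd1 (hbu.mul_left u)
    exact (hcop2.pow_right (n := 2)).dvd_of_dvd_mul_right k1
  have hxb : x = b₁ * ((t : ℚ) / v) ^ 2 := by
    rw [hxuv, div_pow, ← mul_div_assoc, ← hbtQ]
    field_simp
  refine ⟨b₁, mem_CL hsf hbb ?_, ?_⟩
  · refine ⟨y / (b₁ * ((t : ℚ) / v)), (t : ℚ) / v, 1, Or.inr one_ne_zero, ?_⟩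
    have hr : (t : ℚ) / v ≠ 0 := div_ne_zero htQ hvQ
    rw [Int.cast_div hbb hbQ]
    generalize (t : ℚ) / v = r at *
    rw [div_pow, h, hxb]
    field_simp
  · refine ⟨b₁ * ((t : ℚ) / v), ?_⟩
    rw [hxb]
    ring

end ImcP

theorem imc : IMC := by
  intro a b hb hab P
  match P with
  | .zero =>
    refine ⟨1, ImcP.mem_CL squarefree_one (one_dvd b) ?_, ?_⟩
    · exact ⟨1, 1, 0, Or.inl one_ne_zero, by norm_num⟩
    · exact ⟨1, by simp [cl]⟩
  | .some x y h =>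
    have heq : y ^ 2 = x ^ 3 + a * x ^ 2 + b * x := by
      have h1 := (WeierstrassCurve.Affine.equation_iff _ _).1 h.1
      simp only [CE] at h1
      linarith
    by_cases hx : x = 0
    · obtain ⟨b₁, t, hsf, ht, hbt⟩ := ImcP.sqfree_part hb
      have hb0 : b₁ ≠ 0 := hsf.ne_zero
      refine ⟨b₁, ImcP.mem_CL hsf ⟨_, hbt⟩ ?_, ?_⟩
      · refine ⟨t, 0, 1, Or.inr one_ne_zero, ?_⟩
        have e : b / b₁ = t ^ 2 := by
          rw [hbt, Int.mul_ediv_cancel_left _ hb0]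
        rw [e]
        push_cast
        ring
      · refine ⟨b₁ * t, ?_⟩
        simp only [cl, hx, if_true]
        rw [hbt]
        push_cast
        ring
    · obtain ⟨b₁, h1, h2⟩ := ImcP.main hx heq
      refine ⟨b₁, h1, ?_⟩
      simp only [cl, hx, if_false]
      exact h2

end Pool.Agent.R413.TI
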