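import Mathlib
import Pool.Agent.R413.TI.Stm

/-!
Project TI, piece INERT: solubility at the inert primes dividing `D`.
(`padic_sq` is the lemma of `Pool/Agent/W262/TW/Ex3.lean`.)
-/

set_option autoImplicit false

namespace Pool.Agent.R413.TI

namespace InertAux

open Polynomial in
lemma padic_sq {p : ℕ} [hp : Fact p.Prime] (hp2 : p ≠ 2) {n : ℤ} (hn : ¬ (p : ℤ) ∣ n)
    (h : IsSquare (n : ZMod p)) : IsSquare (n : ℚ_[p]) := by
  obtain ⟨a, ha⟩ := h
  obtain ⟨s, hs⟩ := ZMod.intCast_surjective a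
  have h1 : (p : ℤ) ∣ s ^ 2 - n := by
    rw [← ZMod.intCast_zmod_eq_zero_iff_dvd]
    push_cast
    rw [ha, hs]
    ring
  have h2 : ¬ (p : ℤ) ∣ 2 * s := by
    intro h2
    have hpi : Prime (p : ℤ) := Nat.prime_iff_prime_int.1 hp.out
    rcases hpi.dvd_or_dvd h2 with h3 | h3
    · have h5 : p ∣ 2 := by exact_mod_cast h3
      exact hp2 ((Nat.prime_dvd_prime_iff_eq hp.out Nat.prime_two).1 h5)
    · apply hn
      have := dvd_sub ((dvd_pow h3 two_ne_zero : (p : ℤ) ∣ s ^ 2)) h1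
      simpa using this
  have e1 : ∀ w : ℤ_[p], (aeval w) (X ^ 2 - C (n : ℤ_[p]) : ℤ_[p][X]) = w ^ 2 - n := by
    intro w; simp
  have e2 : ∀ w : ℤ_[p], (aeval w) (derivative (X ^ 2 - C (n : ℤ_[p]) : ℤ_[p][X])) = 2 * w := by
    intro w; simp; norm_num
  obtain ⟨z, hz, -⟩ := hensels_lemma (p := p) (R := ℤ_[p]) (F := X ^ 2 - C (n : ℤ_[p]))
    (a := (s : ℤ_[p])) (by
      rw [e1, e2]
      have h3 : ‖((s ^ 2 - n : ℤ) : ℤ_[p])‖ < 1 := by
        rw [PadicInt.norm_intCast_lt_one_iff]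
        exact h1
      have h4 : ‖((2 * s : ℤ) : ℤ_[p])‖ = 1 := by
        have h5 : ¬ ‖((2 * s : ℤ) : ℤ_[p])‖ < 1 := by
          rw [PadicInt.norm_intCast_lt_one_iff]
          exact h2
        exact le_antisymm (PadicInt.norm_le_one _) (not_lt.1 h5)
      push_cast at h3 h4
      rw [h4]
      simpa using h3)
  rw [e1] at hz
  have h6 := congrArg (fun w : ℤ_[p] => (w : ℚ_[p])) (sub_eq_zero.1 hz)
  push_cast at h6
  exact ⟨z, by rw [← h6]; ring⟩

/-- primitive integral solutions -/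
theorem prim {p : ℕ} [Fact p.Prime] {a b₁ b₂ : ℤ} (h : Sol ℚ_[p] a b₁ b₂) :
    ∃ N M e : ℤ_[p], (‖M‖ = 1 ∨ ‖e‖ = 1) ∧
      N ^ 2 = (b₁ : ℤ_[p]) * M ^ 4 + (a : ℤ_[p]) * M ^ 2 * e ^ 2 + (b₂ : ℤ_[p]) * e ^ 4 := by
  obtain ⟨N, M, e, hne, heq⟩ := h
  obtain ⟨t, ht0, hM, he, ht⟩ : ∃ t : ℚ_[p], t ≠ 0 ∧ ‖M‖ ≤ ‖t‖ ∧ ‖e‖ ≤ ‖t‖ ∧
      (M = t ∨ e = t) := by
    rcases le_total ‖M‖ ‖e‖ with hc | hc
    · refine ⟨e, ?_, hc, le_rfl, Or.inr rfl⟩
      rintro rfl
      rw [norm_zero] at hc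
      have : M = 0 := norm_le_zero_iff.1 hc
      rcases hne with h | h
      · exact h this
      · exact h rfl
    · refine ⟨M, ?_, le_rfl, hc, Or.inl rfl⟩
      rintro rfl
      rw [norm_zero] at hc
      have : e = 0 := norm_le_zero_iff.1 hc
      rcases hne with h | h
      · exact h rfl
      · exact h this
  have hM1 : ‖M / t‖ ≤ 1 := by
    rw [norm_div]
    exact div_le_one_of_le₀ hM (norm_nonneg _)
  have he1 : ‖e / t‖ ≤ 1 := by
    rw [norm_div]
    exact div_le_one_of_le₀ he (norm_nonneg _)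
  set M' : ℤ_[p] := ⟨M / t, hM1⟩ with hM'
  set e' : ℤ_[p] := ⟨e / t, he1⟩ with he'
  have hE : (N / t ^ 2) ^ 2 = (((b₁ : ℤ_[p]) * M' ^ 4 + (a : ℤ_[p]) * M' ^ 2 * e' ^ 2 +
      (b₂ : ℤ_[p]) * e' ^ 4 : ℤ_[p]) : ℚ_[p]) := by
    push_cast
    change (N / t ^ 2) ^ 2 = (b₁ : ℚ_[p]) * (M / t) ^ 4 + (a : ℚ_[p]) * (M / t) ^ 2 * (e / t) ^ 2 +
      (b₂ : ℚ_[p]) * (e / t) ^ 4
    rw [div_pow, heq]
    field_simp
  have hN1 : ‖N / t ^ 2‖ ≤ 1 := by
    have h1 : ‖N / t ^ 2‖ ^ 2 ≤ 1 := by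
      rw [← norm_pow, hE]
      exact PadicInt.norm_le_one _
    nlinarith [norm_nonneg (N / t ^ 2)]
  refine ⟨⟨N / t ^ 2, hN1⟩, M', e', ?_, ?_⟩
  · rcases ht with rfl | rfl
    · left
      rw [PadicInt.norm_def, hM']
      change ‖M / M‖ = 1
      rw [div_self ht0, norm_one]
    · right
      rw [PadicInt.norm_def, he']
      change ‖e / e‖ = 1
      rw [div_self ht0, norm_one]
  · apply Subtype.ext
    rw [← hE]
    push_cast
    rfl

theorem toZMod_eq_zero {p : ℕ} [Fact p.Prime] (x : ℤ_[p]) :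
    PadicInt.toZMod x = 0 ↔ ‖x‖ < 1 := by
  rw [← RingHom.mem_ker, PadicInt.ker_toZMod, IsLocalRing.mem_maximalIdeal, PadicInt.mem_nonunits]

theorem dvd_of_toZMod {p : ℕ} [Fact p.Prime] {x : ℤ_[p]} (h : PadicInt.toZMod x = 0) :
    ∃ y : ℤ_[p], x = p * y := by
  have h1 := (toZMod_eq_zero x).1 h
  obtain ⟨y, hy⟩ := (PadicInt.norm_lt_one_iff_dvd x).1 h1
  exact ⟨y, hy⟩

/-- the reduction of a solution when `q` divides everything -/
theorem reduce {q : ℕ} [Fact q.Prime] {A c B : ℤ} (h : Sol ℚ_[q] (q * A) (q * c) (q * B)) :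
    ∃ M e : ZMod q, (M ≠ 0 ∨ e ≠ 0) ∧
      (c : ZMod q) * M ^ 4 + (A : ZMod q) * M ^ 2 * e ^ 2 + (B : ZMod q) * e ^ 4 = 0 := by
  obtain ⟨N, M, e, hne, heq⟩ := prim h
  have hq0 : (q : ℤ_[q]) ≠ 0 := by
    have := (Fact.out : q.Prime).ne_zero
    exact_mod_cast this
  have hqz : PadicInt.toZMod (q : ℤ_[q]) = 0 := by
    rw [map_natCast, ZMod.natCast_self]
  push_cast at heq
  have h1 : PadicInt.toZMod N = 0 := by
    have h2 := congrArg PadicInt.toZMod heq
    rw [map_pow, map_add, map_add, map_mul, map_mul, map_mul, map_mul, map_mul, map_mul, map_mul,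
      hqz] at h2
    simp only [zero_mul, add_zero] at h2
    exact pow_eq_zero_iff two_ne_zero |>.1 h2
  obtain ⟨N', rfl⟩ := dvd_of_toZMod h1
  have h3 : (q : ℤ_[q]) * N' ^ 2 = (c : ℤ_[q]) * M ^ 4 + (A : ℤ_[q]) * M ^ 2 * e ^ 2 +
      (B : ℤ_[q]) * e ^ 4 := by
    apply mul_left_cancel₀ hq0
    linear_combination heq
  refine ⟨PadicInt.toZMod M, PadicInt.toZMod e, ?_, ?_⟩
  · rcases hne with h | h
    · left
      intro h0
      rw [toZMod_eq_zero, h] at h0
      exact lt_irrefl _ h0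
    · right
      intro h0
      rw [toZMod_eq_zero, h] at h0
      exact lt_irrefl _ h0
  · have h4 := congrArg PadicInt.toZMod h3
    rw [map_mul, hqz, zero_mul] at h4
    simp only [map_add, map_mul, map_pow, map_intCast] at h4
    exact h4.symm

/-- product of nonsquares -/
theorem sq_of_nonsq {q : ℕ} [Fact q.Prime] {x y : ZMod q} (hy : y ≠ 0) (h1 : ¬ IsSquare x)
    (h2 : ¬ IsSquare (x * y)) : IsSquare y := by
  have e1 := quadraticChar_neg_one_iff_not_isSquare.2 h1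
  have e2 := quadraticChar_neg_one_iff_not_isSquare.2 h2
  rw [map_mul, e1] at e2
  have e3 : quadraticChar (ZMod q) y = 1 := by linarith
  exact (quadraticChar_one_iff_isSquare hy).1 e3

end InertAux

open InertAux in
theorem inert : INERT := by
  intro q hqp D D' b₁ b₂ hq4 h7 hD hD' hsf
  have hq : q.Prime := hqp.out
  have hqi : Prime (q : ℤ) := Nat.prime_iff_prime_int.1 hq
  have hq2 : q ≠ 2 := by
    rintro rfl
    norm_num at hq4
  have hm1 : IsSquare (-1 : ZMod q) := by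
    rw [ZMod.exists_sq_eq_neg_one_iff]
    omega
  have h7' : ¬ IsSquare (7 : ZMod q) := by
    intro h
    apply h7
    have e : (-7 : ZMod q) = (-1) * 7 := by ring
    rw [e]
    exact hm1.mul h
  have h70 : (7 : ZMod q) ≠ 0 := by
    intro h
    apply h7'
    rw [h]
    exact IsSquare.zero
  have h20 : (2 : ZMod q) ≠ 0 := by
    intro h
    have h1 : ((2 : ℕ) : ZMod q) = 0 := by exact_mod_cast h
    rw [ZMod.natCast_eq_zero_iff] at h1
    exact hq2 ((Nat.prime_dvd_prime_iff_eq hq Nat.prime_two).1 h1)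
  have hD'0 : (D' : ZMod q) ≠ 0 := by
    intro h
    exact hD' ((ZMod.intCast_zmod_eq_zero_iff_dvd _ _).1 h)
  have hq0 : (q : ℤ) ≠ 0 := by exact_mod_cast hq.ne_zero
  -- the general statement of the easy direction
  have easy : ∀ (a w : ℤ), ¬ (q : ℤ) ∣ b₁ → b₁ * b₂ = w * D ^ 2 → ¬ IsSquare (w : ZMod q) →
      Sol ℚ_[q] a b₁ b₂ := by
    intro a w hb1 hprod hw
    have hb10 : (b₁ : ZMod q) ≠ 0 := fun h => hb1 ((ZMod.intCast_zmod_eq_zero_iff_dvd _ _).1 h)
    by_cases hs : IsSquare (b₁ : ZMod q)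
    · obtain ⟨N, hN⟩ := padic_sq hq2 hb1 hs
      refine ⟨N, 1, 0, Or.inl one_ne_zero, ?_⟩
      rw [hN]
      ring
    · have hdvd : (q : ℤ) ^ 2 ∣ b₂ := by
        have h1 : (q : ℤ) ^ 2 ∣ b₁ * b₂ := by
          rw [hprod, hD]
          exact ⟨w * D' ^ 2, by ring⟩
        have hcop : IsCoprime ((q : ℤ) ^ 2) b₁ :=
          IsCoprime.pow_left ((Prime.coprime_iff_not_dvd hqi).2 hb1)
        exact hcop.dvd_of_dvd_mul_left h1
      obtain ⟨b', rfl⟩ := hdvd
      have h2 : b₁ * b' = w * D' ^ 2 := by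
        have h3 : (q : ℤ) ^ 2 * (b₁ * b') = (q : ℤ) ^ 2 * (w * D' ^ 2) := by
          rw [hD] at hprod
          linear_combination hprod
        exact mul_left_cancel₀ (pow_ne_zero 2 hq0) h3
      have hw0 : (w : ZMod q) ≠ 0 := by
        intro h
        apply hw
        rw [h]
        exact IsSquare.zero
      have h3 : (b₁ : ZMod q) * (b' : ZMod q) = (w : ZMod q) * (D' : ZMod q) ^ 2 := by
        have := congrArg (Int.cast : ℤ → ZMod q) h2
        push_cast at this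
        exact this
      have hb'0 : (b' : ZMod q) ≠ 0 := by
        intro h
        rw [h, mul_zero] at h3
        exact mul_ne_zero hw0 (pow_ne_zero 2 hD'0) h3.symm
      have h4 : ¬ IsSquare ((b₁ : ZMod q) * (b' : ZMod q)) := by
        rw [h3]
        rintro ⟨z, hz⟩
        apply hw
        refine ⟨z / (D' : ZMod q), ?_⟩
        field_simp
        rw [hz]
        ring
      have h5 := sq_of_nonsq hb'0 hs h4
      have h6 : ¬ (q : ℤ) ∣ b' := fun h => hb'0 ((ZMod.intCast_zmod_eq_zero_iff_dvd _ _).2 h)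
      obtain ⟨N, hN⟩ := padic_sq hq2 h6 h5
      refine ⟨q * N, 0, 1, Or.inr one_ne_zero, ?_⟩
      push_cast
      rw [hN]
      ring
  -- the general statement of the other direction
  have hard : ∀ (A w : ℤ), (q : ℤ) ∣ b₁ → b₁ * b₂ = w * D ^ 2 → Sol ℚ_[q] (A * D) b₁ b₂ →
      ∃ (c : ℤ) (M e : ZMod q), (c : ZMod q) ≠ 0 ∧ (M ≠ 0 ∨ e ≠ 0) ∧
        (c : ZMod q) ^ 2 * M ^ 4 + (c : ZMod q) * (A : ZMod q) * (D' : ZMod q) * M ^ 2 * e ^ 2 +
          (w : ZMod q) * (D' : ZMod q) ^ 2 * e ^ 4 = 0 := by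
    rintro A w ⟨c, rfl⟩ hprod hsol
    have hc : ¬ (q : ℤ) ∣ c := by
      intro h
      have h1 : (q : ℤ) * q ∣ q * c := mul_dvd_mul_left _ h
      have h2 := hsf q h1
      exact hqi.not_isUnit h2
    have h1 : c * b₂ = q * (w * D' ^ 2) := by
      have h3 : (q : ℤ) * (c * b₂) = (q : ℤ) * (q * (w * D' ^ 2)) := by
        rw [hD] at hprod
        linear_combination hprod
      exact mul_left_cancel₀ hq0 h3
    have h2 : (q : ℤ) ∣ b₂ := by
      have h3 : (q : ℤ) ∣ c * b₂ := ⟨_, h1⟩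
      exact (hqi.dvd_or_dvd h3).resolve_left hc
    obtain ⟨B, rfl⟩ := h2
    have h3 : c * B = w * D' ^ 2 := by
      have h4 : (q : ℤ) * (c * B) = q * (w * D' ^ 2) := by linear_combination h1
      exact mul_left_cancel₀ hq0 h4
    have h4 : A * D = q * (A * D') := by rw [hD]; ring
    rw [h4] at hsol
    obtain ⟨M, e, hne, heq⟩ := reduce hsol
    refine ⟨c, M, e, fun h => hc ((ZMod.intCast_zmod_eq_zero_iff_dvd _ _).1 h), hne, ?_⟩
    have h5 : (c : ZMod q) * (B : ZMod q) = (w : ZMod q) * (D' : ZMod q) ^ 2 := by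
      have := congrArg (Int.cast : ℤ → ZMod q) h3
      push_cast at this
      exact this
    push_cast at heq
    linear_combination (c : ZMod q) * heq - e ^ 4 * h5
  have hzero : ∀ (c A w M e : ZMod q), c ≠ 0 →
      c ^ 2 * M ^ 4 + c * A * M ^ 2 * e ^ 2 + w * e ^ 4 = 0 → e = 0 → M = 0 := by
    intro c A w M e hc h he
    rw [he] at h
    have h1 : c ^ 2 * M ^ 4 = 0 := by linear_combination h
    rcases mul_eq_zero.1 h1 with h2 | h2
    · exact absurd (pow_eq_zero_iff two_ne_zero |>.1 h2) hc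
    · exact pow_eq_zero_iff (by norm_num) |>.1 h2
  refine ⟨fun hprod => ⟨fun hsol hb => ?_, fun hb => ?_⟩, fun hprod => ⟨fun hsol hb => ?_,
    fun hb => ?_⟩⟩
  · obtain ⟨c, M, e, hc, hne, heq⟩ := hard 21 112 hb hprod hsol
    push_cast at heq
    have hM := hzero (c : ZMod q) (21 * (D' : ZMod q)) (112 * (D' : ZMod q) ^ 2) M e hc
      (by linear_combination heq)
    by_cases he : e = 0
    · rcases hne with h | h
      · exact h (hM he)
      · exact h he
    · apply h7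
      refine ⟨(2 * c * M ^ 2 + 21 * D' * e ^ 2) / (D' * e ^ 2), ?_⟩
      field_simp
      linear_combination (-4 : ZMod q) * heq
  · exact easy _ 112 hb hprod (by
      push_cast
      rintro ⟨z, hz⟩
      apply h7'
      refine ⟨z / 4, ?_⟩
      have h40 : (4 : ZMod q) ≠ 0 := by
        have : (4 : ZMod q) = 2 * 2 := by norm_num
        rw [this]
        exact mul_ne_zero h20 h20
      field_simp
      linear_combination hz)
  · obtain ⟨c, M, e, hc, hne, heq⟩ := hard (-42) (-7) hb hprod hsol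
    push_cast at heq
    have hM := hzero (c : ZMod q) (-42 * (D' : ZMod q)) (-7 * (D' : ZMod q) ^ 2) M e hc
      (by linear_combination heq)
    by_cases he : e = 0
    · rcases hne with h | h
      · exact h (hM he)
      · exact h he
    · apply h7'
      have h80 : (8 : ZMod q) ≠ 0 := by
        have : (8 : ZMod q) = 2 * 2 * 2 := by norm_num
        rw [this]
        exact mul_ne_zero (mul_ne_zero h20 h20) h20
      refine ⟨(c * M ^ 2 - 21 * D' * e ^ 2) / (8 * D' * e ^ 2), ?_⟩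
      field_simp
      linear_combination (-1 : ZMod q) * heq
  · exact easy _ (-7) hb hprod (by push_cast; exact h7)

end Pool.Agent.R413.TI
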