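import Pool.Agent.R413.TI.Glob

/-!
The two curves.
-/

set_option autoImplicit false

namespace Pool.Agent.R413.TI

open Pool.Agent.Results.MP_4a9ea6_nt.TwoPartTwistsX49 (split mat nonsq nonfourth Adm inert)
open Pool.Agent.R413.CK (corank)

variable {D : ℕ}

/-- squarefree numbers with prime factors `7` and split primes -/
theorem form (hD : Adm D) {b : ℤ} (hb : Squarefree b)
    (h : ∀ p : ℕ, p.Prime → (p : ℤ) ∣ b → p = 7 ∨ p ∈ split D) :
    ∃ V ⊆ split D, b = dV V ∨ b = 7 * dV V ∨ b = -dV V ∨ b = -(7 * dV V) := by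
  classical
  have hn : Squarefree b.natAbs := Int.squarefree_natAbs.2 hb
  have hn0 := hn.ne_zero
  have hpr := Nat.prod_primeFactors_of_squarefree hn
  have h7 : ∀ p ∈ b.natAbs.primeFactors, p = 7 ∨ p ∈ split D := fun p hp =>
    h p (Nat.prime_of_mem_primeFactors hp)
      (Int.natCast_dvd.2 (Nat.dvd_of_mem_primeFactors hp))
  refine ⟨b.natAbs.primeFactors.erase 7, fun p hp => ?_, ?_⟩
  · exact (h7 p (Finset.mem_of_mem_erase hp)).resolve_left (Finset.ne_of_mem_erase hp)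
  · by_cases h0 : 7 ∈ b.natAbs.primeFactors
    · have h1 : (b.natAbs : ℤ) = 7 * dV (b.natAbs.primeFactors.erase 7) := by
        unfold dV
        rw [← Finset.mul_prod_erase _ _ h0] at hpr
        conv_lhs => rw [← hpr]
        push_cast
        ring
      rcases Int.natAbs_eq b with h2 | h2
      · exact Or.inr (Or.inl (h2.trans h1))
      · exact Or.inr (Or.inr (Or.inr (h2.trans (by rw [h1]))))
    · have h1 : (b.natAbs : ℤ) = dV (b.natAbs.primeFactors.erase 7) := by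
        unfold dV
        rw [Finset.erase_eq_of_notMem h0, hpr]
      rcases Int.natAbs_eq b with h2 | h2
      · exact Or.inl (h2.trans h1)
      · exact Or.inr (Or.inr (Or.inl (h2.trans (by rw [h1]))))

theorem adm4 (hD : Adm D) : (D : ℤ) % 4 = 1 := by
  have h1 := Pool.Agent.Y698.prod_mod_four (S := D.primeFactors) hD.2
  rw [Nat.prod_primeFactors_of_squarefree hD.1] at h1
  omega

theorem cof {p D' : ℕ} (hD : Adm D) (hp : p.Prime) (h : D = p * D') : ¬ (p : ℤ) ∣ (D' : ℤ) := by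
  rw [Int.natCast_dvd_natCast]
  rintro ⟨k, rfl⟩
  have h1 : p * p ∣ D := ⟨k, by rw [h]; ring⟩
  exact hp.one_lt.ne' (Nat.isUnit_iff.1 (hD.1 p h1))

/-- a prime factor of `b` -/
theorem fac_cases (hD : Adm D) {b B k : ℤ} (hbB : b ∣ B) (hB : B = k * (D : ℤ) ^ 2)
    (hk : ∀ p : ℕ, p.Prime → (p : ℤ) ∣ k → p = 2 ∨ p = 7) (h2 : b % 2 = 1)
    (hi : ∀ q : ℕ, q.Prime → q ∈ inert D → ¬ (q : ℤ) ∣ b) (p : ℕ) (hp : p.Prime)
    (hpb : (p : ℤ) ∣ b) : p = 7 ∨ p ∈ split D := by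
  have hpp := Nat.prime_iff_prime_int.1 hp
  have h1 : (p : ℤ) ∣ k * (D : ℤ) ^ 2 := hB ▸ hpb.trans hbB
  rcases hpp.dvd_or_dvd h1 with h | h
  · rcases hk p hp h with rfl | rfl
    · exfalso
      have : (2 : ℤ) ∣ b := by exact_mod_cast hpb
      omega
    · exact Or.inl rfl
  · right
    have h3 : p ∣ D := by
      have := hpp.dvd_of_dvd_pow h
      exact_mod_cast this
    have h4 : p ∈ D.primeFactors := Nat.mem_primeFactors.2 ⟨hp, h3, hD.1.ne_zero⟩
    by_cases hs : IsSquare (-7 : ZMod p)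
    · exact mem_split.2 ⟨h4, hs⟩
    · exact absurd hpb (hi p hp (mem_inert.2 ⟨h4, hs⟩))

theorem p27 {p : ℕ} (hp : p.Prime) {n : ℕ} (hn : n = 112 ∨ n = 7) (h : p ∣ n) :
    p = 2 ∨ p = 7 := by
  have h1 : p ∣ 2 ^ 4 * 7 := by
    rcases hn with rfl | rfl
    · simpa using h
    · exact h.trans ⟨16, by norm_num⟩
  rcases hp.dvd_mul.1 h1 with h2 | h2
  · exact Or.inl ((Nat.prime_dvd_prime_iff_eq hp Nat.prime_two).1 (hp.dvd_of_dvd_pow h2))
  · exact Or.inr ((Nat.prime_dvd_prime_iff_eq hp (by norm_num)).1 h2)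

/-- good reduction -/
theorem good_of (hG : GOOD) (hD : Adm D) {l : ℕ} [hl : Fact l.Prime] (h2 : l ≠ 2) (h7 : l ≠ 7)
    (hlD : ¬ l ∣ D) {a b₁ b₂ B k k' : ℤ} (hb : b₁ * b₂ = B) (hB : B = k * (D : ℤ) ^ 2)
    (ha : a ^ 2 - 4 * B = k' * (D : ℤ) ^ 2)
    (hk : ∀ p : ℕ, p.Prime → (p : ℤ) ∣ k → p = 2 ∨ p = 7)
    (hk' : ∀ p : ℕ, p.Prime → (p : ℤ) ∣ k' → p = 2 ∨ p = 7) : Sol ℚ_[l] a b₁ b₂ := by
  have hll := Nat.prime_iff_prime_int.1 hl.out
  have hD2 : ¬ (l : ℤ) ∣ (D : ℤ) ^ 2 := by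
    intro h
    apply hlD
    have := hll.dvd_of_dvd_pow h
    exact_mod_cast this
  have hB' : ¬ (l : ℤ) ∣ B := by
    rw [hB]
    intro h
    rcases hll.dvd_or_dvd h with h | h
    · rcases hk l hl.out h with h | h
      · exact h2 h
      · exact h7 h
    · exact hD2 h
  refine hG l a b₁ b₂ h2 (fun h => hB' (hb ▸ h.mul_right _)) (fun h => hB' (hb ▸ h.mul_left _)) ?_
  have e : a ^ 2 - 4 * b₁ * b₂ = k' * (D : ℤ) ^ 2 := by
    rw [← ha, ← hb]
    ring
  rw [e]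
  intro h
  rcases hll.dvd_or_dvd h with h | h
  · rcases hk' l hl.out h with h | h
    · exact h2 h
    · exact h7 h
  · exact hD2 h

/-- the first curve -/
theorem data1 (hG : GOOD) (hT : TWO) (hI : INERT) (hS : SPLIT1) (hD : Adm D) :
    Data D (21 * D) (112 * (D : ℤ) ^ 2) 7 where
  spl := fun p _ D' ρ hp hρ hDD b₁ b₂ hsf hb => by
    have h := hS p D D' b₁ b₂ ρ (split_prime hD hp).2.1 hρ (by exact_mod_cast hDD)
      (cof hD (split_prime hD hp).1 hDD) hsf hb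
    rw [Int.cast_natCast] at h
    exact h
  ine := fun q _ hq b₁ b₂ hsf hb => by
    obtain ⟨h1, h2⟩ := mem_inert.1 hq
    obtain ⟨D', hD'⟩ := Nat.dvd_of_mem_primeFactors h1
    exact (hI q D D' b₁ b₂ (hD.2 q h1) h2 (by exact_mod_cast hD')
      (cof hD (Nat.prime_of_mem_primeFactors h1) hD') hsf).1 hb
  two := fun b₁ b₂ hsf hb h4 => (hT D b₁ b₂ (adm4 hD) hsf).2.1 hb h4
  good := fun l _ h2 h7 hlD b₁ b₂ hb => by
    refine good_of hG hD h2 h7 hlD (k := 112) (k' := -7) hb rfl (by ring) ?_ ?_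
    · intro p hp h
      exact p27 hp (Or.inl rfl) (by exact_mod_cast h)
    · intro p hp h
      exact p27 hp (Or.inr rfl) (by
        have := (dvd_neg).2 h
        norm_num at this
        exact_mod_cast this)
  wval := Or.inl rfl
  nec := fun b₁ ⟨hsf, hdv, hR, hloc⟩ => by
    have hbB : b₁ * ((112 * (D : ℤ) ^ 2) / b₁) = 112 * (D : ℤ) ^ 2 := Int.mul_ediv_cancel' hdv
    have h2 : b₁ % 2 = 1 := (hT D b₁ _ (adm4 hD) hsf).1 hbB (hloc 2)
    have hD0 : (D : ℝ) ≠ 0 := by exact_mod_cast hD.1.ne_zero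
    have hpos : 0 < b₁ := by
      by_contra hneg
      have hb0 : b₁ ≤ 0 := not_lt.1 hneg
      obtain ⟨N, M, e, hMe, hN⟩ := hR
      have hbR : (b₁ : ℝ) ≤ 0 := by exact_mod_cast hb0
      have h5 : (b₁ : ℝ) * (((112 * (D : ℤ) ^ 2) / b₁ : ℤ) : ℝ) = 112 * (D : ℝ) ^ 2 := by
        exact_mod_cast hbB
      push_cast at hN
      have h6 : 4 * (b₁ : ℝ) * N ^ 2 = (2 * b₁ * M ^ 2 + 21 * D * e ^ 2) ^ 2 +
          7 * (D : ℝ) ^ 2 * e ^ 4 := by
        rw [hN]
        linear_combination 4 * e ^ 4 * h5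
      have h7 : 4 * (b₁ : ℝ) * N ^ 2 ≤ 0 := by nlinarith [sq_nonneg N]
      have h8 : 0 ≤ 7 * (D : ℝ) ^ 2 * e ^ 4 := by positivity
      have h9 : 7 * (D : ℝ) ^ 2 * e ^ 4 = 0 := by
        nlinarith [sq_nonneg (2 * b₁ * M ^ 2 + 21 * D * e ^ 2)]
      have he : e = 0 := by
        by_contra he
        have : 0 < 7 * (D : ℝ) ^ 2 * e ^ 4 := by positivity
        linarith
      have h10 : (2 * (b₁ : ℝ) * M ^ 2 + 21 * D * e ^ 2) ^ 2 = 0 := by
        nlinarith [sq_nonneg (2 * b₁ * M ^ 2 + 21 * D * e ^ 2)]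
      rw [he] at h10
      have hM : M = 0 := by
        by_contra hM
        have hb1 : (b₁ : ℝ) ≠ 0 := by exact_mod_cast hsf.ne_zero
        have h11 := pow_eq_zero_iff (two_ne_zero) |>.1 h10
        have h12 : 2 * (b₁ : ℝ) * M ^ 2 = 0 := by linarith
        rcases mul_eq_zero.1 h12 with h13 | h13
        · exact hb1 (by linarith)
        · exact hM (pow_eq_zero_iff two_ne_zero |>.1 h13)
      rcases hMe with h | h
      · exact h hM
      · exact h he
    have hq : ∀ q : ℕ, q.Prime → q ∈ inert D → ¬ (q : ℤ) ∣ b₁ := by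
      intro q hqp hq
      have : Fact q.Prime := ⟨hqp⟩
      obtain ⟨h3, h4⟩ := mem_inert.1 hq
      obtain ⟨D', hD'⟩ := Nat.dvd_of_mem_primeFactors h3
      exact ((hI q D D' b₁ _ (hD.2 q h3) h4 (by exact_mod_cast hD')
        (cof hD hqp hD') hsf).1 hbB).1 (hloc q)
    obtain ⟨V, hV, hb⟩ := form hD hsf (fac_cases hD hdv rfl (fun p hp h =>
      p27 hp (Or.inl rfl) (by exact_mod_cast h)) h2 hq)
    have hVp := dV_pos hD hV
    refine ⟨V, hV, ?_⟩
    rcases hb with h | h | h | h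
    · exact Or.inl h
    · exact Or.inr h
    · omega
    · omega
  fac := fun d m hDm => by
    refine ⟨4 * m, ?_, by rw [hDm]; ring⟩
    rintro h
    have hm : m = 0 := by omega
    rw [hm, mul_zero] at hDm
    exact hD.1.ne_zero (by exact_mod_cast hDm)

/-- the second curve -/
theorem data2 (hG : GOOD) (hT : TWO) (hI : INERT) (hS : SPLIT2) (hD : Adm D) :
    Data D (-42 * D) (-7 * (D : ℤ) ^ 2) (-7) where
  spl := fun p _ D' ρ hp hρ hDD b₁ b₂ hsf hb => by
    have h := hS p D D' b₁ b₂ ρ (split_prime hD hp).2.1 hρ (by exact_mod_cast hDD)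
      (cof hD (split_prime hD hp).1 hDD) hsf hb
    rw [Int.cast_natCast] at h
    exact h
  ine := fun q _ hq b₁ b₂ hsf hb => by
    obtain ⟨h1, h2⟩ := mem_inert.1 hq
    obtain ⟨D', hD'⟩ := Nat.dvd_of_mem_primeFactors h1
    exact (hI q D D' b₁ b₂ (hD.2 q h1) h2 (by exact_mod_cast hD')
      (cof hD (Nat.prime_of_mem_primeFactors h1) hD') hsf).2 hb
  two := fun b₁ b₂ hsf hb h4 => (hT D b₁ b₂ (adm4 hD) hsf).2.2.2 hb h4
  good := fun l _ h2 h7 hlD b₁ b₂ hb => by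
    refine good_of hG hD h2 h7 hlD (k := -7) (k' := 1792) hb rfl (by ring) ?_ ?_
    · intro p hp h
      exact p27 hp (Or.inr rfl) (by
        have := (dvd_neg).2 h
        norm_num at this
        exact_mod_cast this)
    · intro p hp h
      have h1 : p ∣ 2 ^ 8 * 7 := by
        have h0 : (p : ℤ) ∣ ((2 ^ 8 * 7 : ℕ) : ℤ) := by
          norm_num
          exact h
        exact_mod_cast h0
      rcases hp.dvd_mul.1 h1 with h2 | h2
      · exact Or.inl ((Nat.prime_dvd_prime_iff_eq hp Nat.prime_two).1 (hp.dvd_of_dvd_pow h2))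
      · exact Or.inr ((Nat.prime_dvd_prime_iff_eq hp (by norm_num)).1 h2)
  wval := Or.inr rfl
  nec := fun b₁ ⟨hsf, hdv, hR, hloc⟩ => by
    have hbB : b₁ * ((-7 * (D : ℤ) ^ 2) / b₁) = -7 * (D : ℤ) ^ 2 := Int.mul_ediv_cancel' hdv
    have h4 : b₁ % 4 = 1 := (hT D b₁ _ (adm4 hD) hsf).2.2.1 hbB (hloc 2)
    have hq : ∀ q : ℕ, q.Prime → q ∈ inert D → ¬ (q : ℤ) ∣ b₁ := by
      intro q hqp hq
      have : Fact q.Prime := ⟨hqp⟩
      obtain ⟨h3, h4⟩ := mem_inert.1 hq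
      obtain ⟨D', hD'⟩ := Nat.dvd_of_mem_primeFactors h3
      exact ((hI q D D' b₁ _ (hD.2 q h3) h4 (by exact_mod_cast hD')
        (cof hD hqp hD') hsf).2 hbB).1 (hloc q)
    obtain ⟨V, hV, hb⟩ := form hD hsf (fac_cases hD hdv rfl (fun p hp h =>
      p27 hp (Or.inr rfl) (by
        have := (dvd_neg).2 h
        norm_num at this
        exact_mod_cast this)) (by omega) hq)
    have hVm := dV_mod hD hV
    refine ⟨V, hV, ?_⟩
    rcases hb with h | h | h | h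
    · exact Or.inl h
    · omega
    · omega
    · exact Or.inr (by rw [h]; ring)
  fac := fun d m hDm => by
    refine ⟨m, ?_, by rw [hDm]; ring⟩
    rintro rfl
    rw [mul_zero] at hDm
    exact hD.1.ne_zero (by exact_mod_cast hDm)

end Pool.Agent.R413.TI
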