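import Mathlib

/-!
Project GE (helper413), second round: one fixed prime. Statements (Mathlib only).
-/

set_option autoImplicit false

open scoped Classical

namespace Pool.Agent.R413.TI

open Finset

/-- only the trivial solution of the bordered system of a graph -/
def QG {n : ℕ} (w : Fin n → ZMod 2) (G : SimpleGraph (Fin n)) (v : Fin n → ZMod 2) : Prop :=
  ∀ (x₀ : ZMod 2) (x : Fin n → ZMod 2), ∑ i, w i * x i = 0 →
    (∀ i, w i * x₀ + (v i + w i) * x i +
      ∑ k, (if G.Adj i k then (1 : ZMod 2) else 0) * (x k + x i) = 0) → x₀ = 0 ∧ x = 0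

/-- GE-TR: the number of the graphs does not depend on `v`.
PROOF. Let `G'` be the graph with `g'_ij = g_ij + v_i w_j + v_j w_i + s w_i w_j` for `i ≠ j`, `s = ∑ v` (a
bijection `G ↦ G'` of the graphs, an involution). `G` satisfies the left side iff `G'` satisfies the right:
(a) summing the equations of the right side over `j` gives `w·y = 0` (the double sum of
`g'_jk (y_k + y_j)` vanishes by the symmetry); for `w·y = 0`, as `w·1 = 1`,
`∑_k g'_jk (y_k + y_j) = ∑_k g_jk (y_k + y_j) + v_j y_j + w_j (v·y)` (the terms `k = j` vanish; the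
coefficient of `w_j y_j` is `s + s = 0`). So `y` satisfies the right side iff `(x₀, x) = (v·y, y)` satisfies
the left side. (b) a solution `(x₀, x)` of the left side has `x₀ = v·x`: sum its equations over `i`. -/
def TRG : Prop := ∀ (n : ℕ) (w v : Fin n → ZMod 2), ∑ i, w i = 1 →
  Nat.card {G : SimpleGraph (Fin n) // QG w G v} =
    Nat.card {G : SimpleGraph (Fin n) // ∀ y : Fin n → ZMod 2, (∀ j, w j * y j +
        ∑ k, (if G.Adj j k then (1 : ZMod 2) else 0) * (y k + y j) = 0) → y = 0}

/-- GE-DT: the kernel vectors (as sets of primes) of the matrix of `q` and of the `p i`.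
PROOF. A subset `V` of `insert q (image p)` is the pair `x₀ = [q ∈ V]`, `x_i = [p_i ∈ V]`. With
`w_i = g q (p i)`, `∑ w = 1` and `f q = 1` the diagonal entry at `q` is `1 + ∑ w = 0`, so the equation at
`q` is `∑ w_i x_i = 0`; the equation at `p i` is
`(f (p i) + w_i + ∑_{k ≠ i} g_ik) x_i + w_i x₀ + ∑_{k ≠ i} g_ik x_k = 0`. -/
def DTG : Prop := ∀ (n : ℕ) (p : Fin n → ℕ) (q : ℕ) (f : ℕ → ZMod 2) (g : ℕ → ℕ → ZMod 2)
  (G : SimpleGraph (Fin n)),
  Function.Injective p → (∀ i, p i ≠ q) → (∀ i, g (p i) q = g q (p i)) →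
  (∀ i k, i ≠ k → g (p i) (p k) = if G.Adj i k then 1 else 0) →
  f q = 1 → ∑ i, g q (p i) = 1 →
  ((∀ V ⊆ insert q (univ.image p), (∀ s ∈ insert q (univ.image p),
      ∑ j ∈ V, (if s = j then f s + ∑ l ∈ (insert q (univ.image p)).erase s, g s l
        else g s j) = 0) → V = ∅) ↔
    QG (fun i => g q (p i)) G (fun i => f (p i)))

end Pool.Agent.R413.TI
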