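import Pool.Agent.R413.TI.MatG
import Pool.Agent.R413.TI.StmH

/-!
Project GE: the law with one fixed prime.
-/

set_option autoImplicit false

open scoped Classical

namespace Pool.Agent.R413.TI

open Finset Function
open Pool.Agent.R338.EQ
open Pool.Agent.Y219.CQ (sp)
open Pool.Agent.Results.MP_4a9ea6_nt.TwoPartTwistsX49 (nonsq)

theorem prob_fix (hT : TRG) {n : ℕ} (hn : 0 < n) (w v : Fin n → ZMod 2) (hw : ∑ i, w i = 1) :
    (Nat.card {G : SimpleGraph (Fin n) // QG w G v} : ℝ) / Nat.card (SimpleGraph (Fin n)) =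
      sp (n - 1) := by
  have h1 := LawG.graph_prob_all hn w
  have hw0 : w ≠ 0 := by
    rintro rfl
    simp at hw
  unfold LawG.wt at h1
  rw [if_neg hw0, if_pos hw] at h1
  rw [hT n w v hw, ← h1]
  congr 2
  refine Nat.card_congr (Equiv.subtypeEquivRight fun G => ?_)
  exact (LawG.symMat_rows G w).symm

/-- the law with one fixed prime -/
theorem law_fix (hT : TRG) {n : ℕ} (hn : 0 < n) {M : ℕ} (hM : 0 < M) (hM8 : 8 ∣ M) (a : Fin n → ℕ)
    (ha : ∀ i, Nat.Coprime (a i) M) (ha8 : ∀ i, a i % 8 = 1) (w : Fin n → ZMod 2)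
    (hw : ∑ i, w i = 1) :
    ∃ A : ℝ, 0 ≤ A ∧ ∀ (f : ℕ → ZMod 2) (X : Fin n → ℕ) (z : ℕ), 2 ≤ z → (∀ i, z ≤ X i) →
      (∀ i, Real.log (X i) ≤ (z : ℝ) ^ (1 / (24 * n : ℝ))) →
      |(((Fintype.piFinset fun i => clsM M (a i) (X i)).filter fun p =>
          Injective p ∧ QG w (symG p) (fun i => f (p i))).card : ℝ) -
          sp (n - 1) * (((Fintype.piFinset fun i => clsM M (a i) (X i)).filter fun p =>
            Injective p).card : ℝ)| ≤
        A * (z : ℝ) ^ (-(1 / 24 : ℝ)) *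
          (((Fintype.piFinset fun i => clsM M (a i) (X i)).filter fun p => Injective p).card : ℝ) := by
  have h4 : 4 ∣ M := Dvd.dvd.trans (by norm_num) hM8
  obtain ⟨A, hA, h⟩ := graph_law_f hn hM h4 a ha (fun i => by
    have := ha8 i
    omega) (fun G v => QG w G v)
  refine ⟨A, hA, fun f X z hz hzX hlog => ?_⟩
  have key := h f X z hz hzX hlog
  have hsum : ∑ p ∈ (Fintype.piFinset fun i => clsM M (a i) (X i)).filter fun p => Injective p,
      (Nat.card {G : SimpleGraph (Fin n) // QG w G (fun i => f (p i))} : ℝ) /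
        Nat.card (SimpleGraph (Fin n)) =
      sp (n - 1) * (((Fintype.piFinset fun i => clsM M (a i) (X i)).filter fun p =>
        Injective p).card : ℝ) := by
    rw [sum_congr rfl fun p _ => prob_fix hT hn w (fun i => f (p i)) hw, sum_const, nsmul_eq_mul,
      mul_comm]
  rw [hsum] at key
  exact key

theorem corank_zero_ker {f : ℕ → ZMod 2} {S : Finset ℕ} :
    corankG f S = 0 ↔ ∀ V ⊆ S, (∀ p ∈ S, ∑ j ∈ V, en f S p j = 0) → V = ∅ := by
  have h1 := card_kerG f S
  have h0 : (∅ : Finset ℕ) ∈ {V | KerG f S V} := ⟨empty_subset S, fun p _ => sum_empty⟩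
  constructor
  · intro h V hV hk
    rw [h, pow_zero, Set.ncard_eq_one] at h1
    obtain ⟨W, hW⟩ := h1
    have h2 : V ∈ {V | KerG f S V} := ⟨hV, hk⟩
    rw [hW] at h2 h0
    rw [Set.mem_singleton_iff] at h2 h0
    rw [h2, ← h0]
  · intro h
    have h2 : {V | KerG f S V} = {∅} := by
      ext V
      rw [Set.mem_singleton_iff]
      constructor
      · rintro ⟨hV, hk⟩
        exact h V hV hk
      · rintro rfl
        exact h0
    rw [h2, Set.ncard_singleton] at h1
    by_contra h3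
    have := Nat.one_lt_two_pow h3
    omega

theorem nonsq_symm {p q : ℕ} (hp : p.Prime) (hq : q.Prime) (hp4 : p % 4 = 1) (hq4 : q % 4 = 1) :
    nonsq p q = nonsq q p := by
  have : Fact p.Prime := ⟨hp⟩
  have : Fact q.Prime := ⟨hq⟩
  have h := ZMod.exists_sq_eq_prime_iff_of_mod_four_eq_one (p := p) (q := q) hp4 (by
    rintro rfl
    omega)
  unfold nonsq
  by_cases h1 : IsSquare (p : ZMod q)
  · rw [if_pos h1, if_pos (h.2 h1)]
  · rw [if_neg h1, if_neg fun h2 => h1 (h.1 h2)]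

/-- the matrix with one fixed prime -/
theorem corank_fix (hD : DTG) {n : ℕ} {p : Fin n → ℕ} {q : ℕ} (hinj : Injective p)
    (hp : ∀ i, (p i).Prime ∧ p i % 4 = 1) (hq : q.Prime) (hq4 : q % 4 = 1) (hpq : ∀ i, p i ≠ q)
    {f : ℕ → ZMod 2} (hf : f q = 1) (hw : ∑ i, nonsq q (p i) = 1) :
    corankG f (insert q (univ.image p)) = 0 ↔
      QG (fun i => nonsq q (p i)) (symG p) (fun i => f (p i)) := by
  rw [corank_zero_ker]
  have hadj : ∀ i j, (symG p).Adj i j ↔ i ≠ j ∧ ¬ IsSquare ((p j : ℕ) : ZMod (p i)) := by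
    intro i j
    have h1 : ∀ i j, IsSquare ((p j : ℕ) : ZMod (p i)) ↔ Pool.Agent.Y703.CQ.nr (p i) (p j) = 0 := by
      intro i j
      unfold Pool.Agent.Y703.CQ.nr
      by_cases h : IsSquare ((p j : ℕ) : ZMod (p i))
      · rw [if_pos h]
        simp [h]
      · rw [if_neg h]
        simp [h]
    unfold symG
    rw [SimpleGraph.fromRel_adj, h1, h1, nr_symm (hp j).1 (hp j).2 (hp i).1 (hp i).2, or_self]
  refine hD n p q f nonsq (symG p) hinj hpq (fun i => nonsq_symm (hp i).1 hq (hp i).2 hq4)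
    (fun i k hik => ?_) hf hw
  unfold nonsq
  by_cases h : IsSquare ((p k : ℕ) : ZMod (p i))
  · rw [if_pos h, if_neg fun h' => ((hadj _ _).1 h').2 h]
  · rw [if_neg h, if_pos ((hadj _ _).2 ⟨hik, h⟩)]

end Pool.Agent.R413.TI
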