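import Pool.Agent.R413.TI.Cnt
import Pool.Agent.R413.TI.Stm

/-!
The conditions at the split primes as linear equations.
-/

set_option autoImplicit false

namespace Pool.Agent.R413.TI

open Pool.Agent.Results.MP_4a9ea6_nt.TwoPartTwistsX49 (split mat nonsq nonfourth Adm inert)

section symbols

variable {p : ℕ} [hp : Fact p.Prime]

open Classical in
/-- the additive quadratic residue symbol -/
noncomputable def sg (p : ℕ) (x : ZMod p) : ZMod 2 := if IsSquare x then 0 else 1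

theorem sg_zero {x : ZMod p} : sg p x = 0 ↔ IsSquare x := by
  unfold sg
  by_cases h : IsSquare x
  · rw [if_pos h]
    exact ⟨fun _ => h, fun _ => rfl⟩
  · rw [if_neg h]
    exact ⟨fun h' => absurd h' (by decide), fun h' => absurd h' h⟩

theorem nonsq_sg (m : ℕ) : nonsq p m = sg p (m : ZMod p) := by
  unfold nonsq sg
  rfl

theorem sg_mul {x y : ZMod p} (hx : x ≠ 0) (hy : y ≠ 0) : sg p (x * y) = sg p x + sg p y := by
  have hxy : x * y ≠ 0 := mul_ne_zero hx hy
  have h1 := map_mul (quadraticChar (ZMod p)) x y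
  have key : ∀ z : ZMod p, z ≠ 0 → sg p z = if quadraticChar (ZMod p) z = 1 then 0 else 1 := by
    intro z hz
    unfold sg
    by_cases h : IsSquare z
    · rw [if_pos h, if_pos ((quadraticChar_one_iff_isSquare hz).2 h)]
    · rw [if_neg h, if_neg (fun h' => h ((quadraticChar_one_iff_isSquare hz).1 h'))]
  rw [key _ hxy, key _ hx, key _ hy, h1]
  rcases quadraticChar_dichotomy hx with h2 | h2 <;> rcases quadraticChar_dichotomy hy with h3 | h3
  · rw [h2, h3]
    decide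
  · rw [h2, h3]
    decide
  · rw [h2, h3]
    decide
  · rw [h2, h3]
    decide

theorem sg_prod (s : Finset ℕ) (hs : ∀ j ∈ s, (j : ZMod p) ≠ 0) :
    ((∏ j ∈ s, j : ℕ) : ZMod p) ≠ 0 ∧ sg p ((∏ j ∈ s, j : ℕ) : ZMod p) = ∑ j ∈ s, nonsq p j := by
  classical
  induction s using Finset.induction_on with
  | empty =>
    refine ⟨by simp, ?_⟩
    rw [Finset.prod_empty, Finset.sum_empty, Nat.cast_one]
    exact sg_zero.2 ⟨1, by ring⟩
  | insert a s ha ih =>
    obtain ⟨h1, h2⟩ := ih fun j hj => hs j (Finset.mem_insert_of_mem hj)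
    have h3 : (a : ZMod p) ≠ 0 := hs a (Finset.mem_insert_self a s)
    rw [Finset.prod_insert ha, Finset.sum_insert ha, Nat.cast_mul]
    exact ⟨mul_ne_zero h3 h1, by rw [sg_mul h3 h1, h2, nonsq_sg]⟩

theorem neg_one_sq (h4 : p % 4 = 1) : IsSquare (-1 : ZMod p) := by
  rw [ZMod.exists_sq_eq_neg_one_iff]
  omega

theorem seven_ne (h4 : p % 4 = 1) : (7 : ZMod p) ≠ 0 := by
  intro h
  have h1 : ((7 : ℕ) : ZMod p) = 0 := by exact_mod_cast h
  rw [ZMod.natCast_eq_zero_iff] at h1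
  have h2 := (Nat.prime_dvd_prime_iff_eq hp.out (by norm_num : Nat.Prime 7)).1 h1
  omega

theorem rho_ne (h4 : p % 4 = 1) {ρ : ZMod p} (h : ρ ^ 2 = -7) : ρ ≠ 0 := by
  rintro rfl
  apply seven_ne h4
  linear_combination h

theorem nonfourth_sg (h4 : p % 4 = 1) {ρ : ZMod p} (h : ρ ^ 2 = -7) : nonfourth p = sg p ρ := by
  unfold nonfourth sg
  have e : (∃ y : ZMod p, y ^ 4 = -7) ↔ IsSquare ρ := by
    constructor
    · rintro ⟨y, hy⟩
      have h1 : (y ^ 2 - ρ) * (y ^ 2 + ρ) = 0 := by linear_combination hy - h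
      rcases mul_eq_zero.1 h1 with h2 | h2
      · exact ⟨y, by linear_combination -h2⟩
      · obtain ⟨i, hi⟩ := neg_one_sq h4
        refine ⟨i * y, ?_⟩
        have : (i * y) * (i * y) = (i * i) * y ^ 2 := by ring
        rw [this, ← hi]
        linear_combination h2
    · rintro ⟨z, hz⟩
      refine ⟨z, ?_⟩
      have : z ^ 4 = (z * z) ^ 2 := by ring
      rw [this, ← hz, h]
  by_cases h1 : IsSquare ρ
  · rw [if_pos (e.2 h1), if_pos h1]
  · rw [if_neg (fun h2 => h1 (e.1 h2)), if_neg h1]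

end symbols

section adm

variable {D : ℕ}

theorem mem_split {p : ℕ} : p ∈ split D ↔ p ∈ D.primeFactors ∧ IsSquare (-7 : ZMod p) := by
  classical
  unfold split
  rw [Finset.mem_filter]

theorem mem_inert {p : ℕ} : p ∈ inert D ↔ p ∈ D.primeFactors ∧ ¬ IsSquare (-7 : ZMod p) := by
  classical
  unfold inert
  rw [Finset.mem_filter]

theorem cast_ne {p j : ℕ} (hp : p.Prime) (hj : j.Prime) (h : j ≠ p) : (j : ZMod p) ≠ 0 := by
  intro h1
  rw [ZMod.natCast_eq_zero_iff] at h1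
  exact h ((Nat.prime_dvd_prime_iff_eq hp hj).1 h1).symm

/-- the condition at a split prime outside `V` -/
theorem leg_out {V : Finset ℕ} (hV : V ⊆ split D) {p : ℕ} [hp : Fact p.Prime]
    (hpV : p ∉ V) : IsSquare ((∏ j ∈ V, j : ℕ) : ZMod p) ↔ ∑ j ∈ V, ent D p j = 0 := by
  have h1 : ∀ j ∈ V, (j : ZMod p) ≠ 0 := fun j hj =>
    cast_ne hp.out (Nat.prime_of_mem_primeFactors (mem_split.1 (hV hj)).1)
      (fun e : j = p => hpV (e ▸ hj))
  rw [← sg_zero, (sg_prod V h1).2]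
  have h2 : ∑ j ∈ V, nonsq p j = ∑ j ∈ V, ent D p j := by
    refine Finset.sum_congr rfl fun j hj => ?_
    unfold ent
    rw [if_neg (fun e : p = j => hpV (e ▸ hj))]
  rw [h2]

/-- the condition at a split prime in `V` -/
theorem leg_in (hD : Adm D) {V : Finset ℕ} (hV : V ⊆ split D) {p : ℕ} [hp : Fact p.Prime]
    (hpV : p ∈ V) {ρ : ZMod p} (hρ : ρ ^ 2 = -7) {D' : ℕ} (hD' : D = p * D') :
    IsSquare (((∏ j ∈ V.erase p, j : ℕ) : ZMod p) * (D' : ZMod p) * ρ) ↔
      ∑ j ∈ V, ent D p j = 0 := by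
  have hpD : p ∈ D.primeFactors := (mem_split.1 (hV hpV)).1
  have h4 : p % 4 = 1 := hD.2 p hpD
  have h1 : ∀ j ∈ V.erase p, (j : ZMod p) ≠ 0 := fun j hj =>
    cast_ne hp.out (Nat.prime_of_mem_primeFactors
      (mem_split.1 (hV (Finset.mem_of_mem_erase hj))).1) (Finset.ne_of_mem_erase hj)
  have h2 : ∀ j ∈ D.primeFactors.erase p, (j : ZMod p) ≠ 0 := fun j hj =>
    cast_ne hp.out (Nat.prime_of_mem_primeFactors (Finset.mem_of_mem_erase hj))
      (Finset.ne_of_mem_erase hj)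
  have hD2 : D' = ∏ j ∈ D.primeFactors.erase p, j := by
    have h3 := Nat.prod_primeFactors_of_squarefree hD.1
    rw [← Finset.mul_prod_erase _ _ hpD] at h3
    have h5 : p * ∏ j ∈ D.primeFactors.erase p, j = p * D' := h3.trans hD'
    exact (Nat.eq_of_mul_eq_mul_left hp.out.pos h5).symm
  obtain ⟨k1, k2⟩ := sg_prod (p := p) _ h1
  obtain ⟨k3, k4⟩ := sg_prod (p := p) _ h2
  rw [← hD2] at k3 k4
  rw [← sg_zero, sg_mul (mul_ne_zero k1 k3) (rho_ne h4 hρ), sg_mul k1 k3, k2, k4,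
    ← nonfourth_sg h4 hρ, ← Finset.add_sum_erase V _ hpV]
  have h6 : ∑ j ∈ V.erase p, nonsq p j = ∑ j ∈ V.erase p, ent D p j := by
    refine Finset.sum_congr rfl fun j hj => ?_
    unfold ent
    rw [if_neg (fun e => Finset.ne_of_mem_erase hj e.symm)]
  have h7 : ent D p p = nonfourth p + ∑ l ∈ D.primeFactors.erase p, nonsq p l := by
    unfold ent
    rw [if_pos rfl]
  rw [h6, h7]
  have e : ∀ a b c : ZMod 2, a + b + c = c + b + a := fun a b c => by ring
  rw [e]

end adm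

end Pool.Agent.R413.TI
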