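import Pool.Agent.R413.TI.GlobG2
import Pool.Agent.R413.TI.LawG

/-!
Project GE: the matrix, its corank, the number of the kernel vectors, and the law.
-/

set_option autoImplicit false

open scoped Classical

namespace Pool.Agent.R413.TI

open Pool.Agent.Results.MP_4a9ea6_nt.TwoPartTwistsX49 (nonsq)

/-- the matrix -/
noncomputable def matG (f : ℕ → ZMod 2) (S : Finset ℕ) : Matrix S S (ZMod 2) :=
  Matrix.of fun i j => if i = j then f i + ∑ l ∈ S.erase (i : ℕ), nonsq i l else nonsq i j

/-- its corank -/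
noncomputable def corankG (f : ℕ → ZMod 2) (S : Finset ℕ) : ℕ := S.card - (matG f S).rank

theorem matG_en (f : ℕ → ZMod 2) (S : Finset ℕ) (i j : S) : matG f S i j = en f S i j := by
  unfold matG en
  rw [Matrix.of_apply]
  by_cases h : i = j
  · rw [if_pos h, if_pos (congrArg Subtype.val h)]
  · rw [if_neg h, if_neg (fun h' => h (Subtype.ext h'))]

/-- the set of a vector -/
noncomputable def toSetG {S : Finset ℕ} (v : S → ZMod 2) : Finset ℕ :=
  S.filter fun p => ∃ h : p ∈ S, v ⟨p, h⟩ = 1

theorem z2G (a : ZMod 2) : a = 0 ∨ a = 1 := by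
  revert a
  decide

theorem mulVec_toSetG (f : ℕ → ZMod 2) {S : Finset ℕ} (v : S → ZMod 2) (p : S) :
    (matG f S).mulVec v p = ∑ j ∈ toSetG v, en f S p j := by
  unfold Matrix.mulVec dotProduct toSetG
  rw [Finset.sum_filter, ← Finset.sum_coe_sort S]
  refine Finset.sum_congr rfl fun j _ => ?_
  show matG f S p j * v j = _
  rw [matG_en]
  rcases z2G (v j) with h | h
  · rw [h, mul_zero, if_neg]
    rintro ⟨h1, h2⟩
    rw [h] at h2
    exact absurd h2 (by decide)
  · rw [h, mul_one, if_pos ⟨j.2, h⟩]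

theorem toSetG_inj {S : Finset ℕ} {v w : S → ZMod 2} (h : toSetG v = toSetG w) : v = w := by
  funext j
  have h1 : (j : ℕ) ∈ toSetG v ↔ (j : ℕ) ∈ toSetG w := by rw [h]
  unfold toSetG at h1
  rw [Finset.mem_filter, Finset.mem_filter] at h1
  have h2 : v j = 1 ↔ w j = 1 := by
    constructor
    · intro hv
      obtain ⟨-, h3, h4⟩ := h1.1 ⟨j.2, j.2, hv⟩
      exact h4
    · intro hw
      obtain ⟨-, h3, h4⟩ := h1.2 ⟨j.2, j.2, hw⟩
      exact h4
  rcases z2G (v j) with h3 | h3 <;> rcases z2G (w j) with h4 | h4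
  · rw [h3, h4]
  · rw [h3] at h2
    exact absurd (h2.2 h4) (by decide)
  · rw [h4] at h2
    exact absurd (h2.1 h3) (by decide)
  · rw [h3, h4]

theorem toSetG_ind {S V : Finset ℕ} (hV : V ⊆ S) :
    toSetG (fun j : S => if (j : ℕ) ∈ V then (1 : ZMod 2) else 0) = V := by
  ext p
  unfold toSetG
  rw [Finset.mem_filter]
  constructor
  · rintro ⟨-, h1, h2⟩
    by_contra h3
    have h2' : (if p ∈ V then (1 : ZMod 2) else 0) = 1 := h2
    rw [if_neg h3] at h2'
    exact absurd h2' (by decide)
  · intro h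
    exact ⟨hV h, hV h, if_pos h⟩

/-- **the number of the kernel vectors** -/
theorem card_kerG (f : ℕ → ZMod 2) (S : Finset ℕ) :
    {V | KerG f S V}.ncard = 2 ^ corankG f S := by
  have h1 : Nat.card (LinearMap.ker (matG f S).mulVecLin) = 2 ^ corankG f S := by
    have h2 := Module.card_eq_pow_finrank (K := ZMod 2) (V := LinearMap.ker (matG f S).mulVecLin)
    rw [Nat.card_eq_fintype_card, h2, ZMod.card]
    congr 1
    have h3 := LinearMap.finrank_range_add_finrank_ker (matG f S).mulVecLin
    rw [Module.finrank_pi, Fintype.card_coe] at h3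
    unfold corankG Matrix.rank
    omega
  rw [← h1, ← Nat.card_coe_set_eq]
  symm
  have hsub : ∀ v : S → ZMod 2, toSetG v ⊆ S := fun v => by
    unfold toSetG
    exact Finset.filter_subset _ _
  refine Nat.card_congr (Equiv.ofBijective
    (fun v : LinearMap.ker (matG f S).mulVecLin =>
      (⟨toSetG v.1, hsub v.1, fun p hp => ?_⟩ : ({V | KerG f S V} : Set (Finset ℕ)))) ⟨?_, ?_⟩)
  · rw [← mulVec_toSetG f v.1 ⟨p, hp⟩]
    have := LinearMap.mem_ker.1 v.2
    exact congrFun this ⟨p, hp⟩
  · intro v w h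
    exact Subtype.ext (toSetG_inj (congrArg Subtype.val h))
  · rintro ⟨V, hV1, hV2⟩
    refine ⟨⟨fun j : S => if (j : ℕ) ∈ V then (1 : ZMod 2) else 0, ?_⟩, Subtype.ext (toSetG_ind hV1)⟩
    rw [LinearMap.mem_ker]
    funext p
    show (matG f S).mulVec _ p = 0
    rw [mulVec_toSetG, toSetG_ind hV1]
    exact hV2 p p.2

theorem corankG_zero {f : ℕ → ZMod 2} {S : Finset ℕ} : corankG f S = 0 ↔ (matG f S).det ≠ 0 := by
  unfold corankG
  have h1 : (matG f S).rank ≤ S.card := by
    have := Matrix.rank_le_card_width (matG f S)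
    rwa [Fintype.card_coe] at this
  constructor
  · intro h hd
    have h2 : (matG f S).rank = S.card := by omega
    obtain ⟨x, hx0, hx⟩ := Matrix.exists_mulVec_eq_zero_iff.2 hd
    have h3 := LinearMap.finrank_range_add_finrank_ker (matG f S).mulVecLin
    rw [Module.finrank_fintype_fun_eq_card, Fintype.card_coe] at h3
    have h4 : Module.finrank (ZMod 2) (LinearMap.range (matG f S).mulVecLin) = (matG f S).rank := rfl
    have h5 : Module.finrank (ZMod 2) (LinearMap.ker (matG f S).mulVecLin) = 0 := by omega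
    rw [Submodule.finrank_eq_zero, LinearMap.ker_eq_bot'] at h5
    exact hx0 (h5 x hx)
  · intro hd
    have h2 : IsUnit (matG f S) := (Matrix.isUnit_iff_isUnit_det _).2 (isUnit_iff_ne_zero.2 hd)
    have h3 := Matrix.rank_of_isUnit _ h2
    rw [Fintype.card_coe] at h3
    omega

/-- the matrix of the law of `LawG` -/
theorem det_symMat {n : ℕ} {p : Fin n → ℕ} (hinj : Function.Injective p)
    (hp : ∀ i, (p i).Prime ∧ p i % 4 = 1) (f : ℕ → ZMod 2) :
    (Pool.Agent.R338.EQ.symMat (Pool.Agent.R338.EQ.symG p) (fun i => f (p i)) Finset.univ).det ≠ 0 ↔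
      (matG f (Finset.univ.image p)).det ≠ 0 := by
  have hadj : ∀ i j, (Pool.Agent.R338.EQ.symG p).Adj i j ↔
      i ≠ j ∧ ¬ IsSquare ((p j : ℕ) : ZMod (p i)) := by
    intro i j
    have h1 : ∀ i j, IsSquare ((p j : ℕ) : ZMod (p i)) ↔ Pool.Agent.Y703.CQ.nr (p i) (p j) = 0 := by
      intro i j
      unfold Pool.Agent.Y703.CQ.nr
      by_cases h : IsSquare ((p j : ℕ) : ZMod (p i))
      · rw [if_pos h]
        simp [h]
      · rw [if_neg h]
        simp [h]
    unfold Pool.Agent.R338.EQ.symG
    rw [SimpleGraph.fromRel_adj, h1, h1,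
      Pool.Agent.R338.EQ.nr_symm (hp j).1 (hp j).2 (hp i).1 (hp i).2, or_self]
  let T : Finset (Fin n) := Finset.univ
  have hSP : ∀ q, q ∈ Finset.univ.image p ↔ ∃ i ∈ T, p i = q := by
    intro q
    rw [Finset.mem_image]
  let e0 : T → (Finset.univ.image p : Finset ℕ) := fun i => ⟨p i, (hSP _).2 ⟨i, i.2, rfl⟩⟩
  have he0 : Function.Bijective e0 := by
    constructor
    · intro i j h
      exact Subtype.ext (hinj (congrArg Subtype.val h))
    · rintro ⟨q, hq⟩
      obtain ⟨i, hi, rfl⟩ := (hSP q).1 hq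
      exact ⟨⟨i, hi⟩, rfl⟩
  let e : T ≃ (Finset.univ.image p : Finset ℕ) := Equiv.ofBijective e0 he0
  have hM : Pool.Agent.R338.EQ.symMat (Pool.Agent.R338.EQ.symG p) (fun i => f (p i)) T =
      (matG f (Finset.univ.image p)).submatrix e e := by
    ext i j
    rw [Matrix.submatrix_apply]
    have he : ∀ i : T, ((e i : (Finset.univ.image p : Finset ℕ)) : ℕ) = p i := fun i => rfl
    by_cases hij : i = j
    · subst hij
      rw [Pool.Agent.R338.EQ.symMat_self]
      unfold matG
      rw [Matrix.of_apply, if_pos rfl, he, add_comm]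
      congr 1
      have h2 : (Finset.univ.image p).erase (p i) = (Finset.univ.erase (i : Fin n)).image p := by
        rw [Finset.image_erase hinj]
      rw [Finset.card_filter, Nat.cast_sum]
      have h3 : ∑ l ∈ (Finset.univ.erase (i : Fin n)).image p, nonsq (p i) l =
          ∑ l ∈ Finset.univ.erase (i : Fin n), nonsq (p i) (p l) :=
        Finset.sum_image fun x _ y _ h => hinj h
      have h4 : ∑ l ∈ (Finset.univ.image p).erase (p i), nonsq (p i) l =
          ∑ l ∈ Finset.univ.erase (i : Fin n), nonsq (p i) (p l) := by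
        rw [← h3]
        exact Finset.sum_congr (by convert h2) fun _ _ => rfl
      have h5 : ∑ l ∈ T, (((if (Pool.Agent.R338.EQ.symG p).Adj (i : Fin n) l then 1 else 0 : ℕ)) : ZMod 2) =
          ∑ l ∈ Finset.univ.erase (i : Fin n), nonsq (p i) (p l) := by
        rw [← Finset.add_sum_erase T _ (Finset.mem_univ (i : Fin n)),
          if_neg (SimpleGraph.irrefl _), Nat.cast_zero, zero_add]
        refine Finset.sum_congr rfl fun l hl => ?_
        unfold nonsq
        by_cases h : IsSquare ((p l : ℕ) : ZMod (p i))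
        · rw [if_pos h, if_neg fun h' => ((hadj _ _).1 h').2 h, Nat.cast_zero]
        · rw [if_neg h, if_pos ((hadj _ _).2 ⟨(Finset.ne_of_mem_erase hl).symm, h⟩), Nat.cast_one]
      rw [h5, ← h4]
    · rw [Pool.Agent.R338.EQ.symMat_ne hij]
      unfold matG
      have hne : e i ≠ e j := fun h => hij (e.injective h)
      rw [Matrix.of_apply, if_neg hne, he, he]
      have h1 := hadj (i : Fin n) j
      have hne' : (i : Fin n) ≠ j := fun h => hij (Subtype.ext h)
      unfold nonsq
      by_cases h : IsSquare ((p j : ℕ) : ZMod (p i))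
      · rw [if_pos h, if_neg fun h' => (h1.1 h').2 h]
      · rw [if_neg h, if_pos (h1.2 ⟨hne', h⟩)]
  have h6 := congrArg Matrix.det hM
  rw [Matrix.det_submatrix_equiv_self] at h6
  have h7 : (Pool.Agent.R338.EQ.symMat (Pool.Agent.R338.EQ.symG p) (fun i => f (p i))
      Finset.univ).det = (matG f (Finset.univ.image p)).det := h6
  rw [h7]

end Pool.Agent.R413.TI
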