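import Pool.Agent.R413.TI.FgG
import Pool.Agent.R413.TI.Grp
import Pool.Agent.R413.TI.Ima
import Pool.Agent.R413.TI.Imb
import Pool.Agent.R413.TI.Imc

/-!
Project GE: the bound for the rank.
-/

set_option autoImplicit false

namespace Pool.Agent.R413.TI

open WeierstrassCurve

/-- a subgroup with a class map into a set of integers -/
theorem index_le {a b : ℤ} (hb : b ≠ 0) (hd : a ^ 2 - 4 * b ≠ 0)
    (H : AddSubgroup (CE a b).toAffine.Point) (hH : ∀ P, IsSquare (cl a b P) → P ∈ H) (hfin : (CL a b).Finite) :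
    H.index ≤ (CL a b).ncard := by
  classical
  choose g hg using imc a b hb hd
  -- equal classes give the same coset
  have key : ∀ P Q : (CE a b).toAffine.Point, g P = g Q → P - Q ∈ H := by
    intro P Q h
    apply hH
    obtain ⟨hQ0, hQn, -⟩ := imb a b hb hd Q Q
    obtain ⟨hP0, -, h1⟩ := imb a b hb hd P (-Q)
    rw [hQn, ← sub_eq_add_neg] at h1
    have h2 := (hg P).2
    have h3 := (hg Q).2
    rw [h] at h2
    have hgQ : ((g Q : ℤ) : ℚ) ≠ 0 := by
      have := (hg Q).1.1.ne_zero
      exact_mod_cast this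
    -- (g * clP)(g * clQ) = g² clP clQ a square
    obtain ⟨x, hx⟩ := h2
    obtain ⟨y, hy⟩ := h3
    obtain ⟨w, hw⟩ := h1
    have hx0 : x ≠ 0 := by
      rintro rfl
      rw [mul_zero] at hx
      exact mul_ne_zero hgQ hP0 hx
    have hy0 : y ≠ 0 := by
      rintro rfl
      rw [mul_zero] at hy
      exact mul_ne_zero hgQ hQ0 hy
    refine ⟨w * g Q / (x * y) , ?_⟩
    have e1 : cl a b P = x * x / g Q := by
      rw [eq_div_iff hgQ]
      linear_combination hx
    have e2 : cl a b Q = y * y / g Q := by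
      rw [eq_div_iff hgQ]
      linear_combination hy
    rw [e1, e2] at hw
    field_simp at hw ⊢
    linear_combination hw
  have : Finite (CL a b) := hfin
  -- the injection from the quotient
  let F : (CE a b).toAffine.Point ⧸ H → CL a b := fun q => ⟨g q.out, (hg q.out).1⟩
  have hF : Function.Injective F := by
    intro q q' h
    have h1 : g q.out = g q'.out := congrArg Subtype.val h
    have h2 := key _ _ h1
    rw [← q.out_eq, ← q'.out_eq]
    refine (QuotientAddGroup.eq (s := H)).2 ?_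
    have h3 := H.neg_mem h2
    rw [neg_sub] at h3
    rw [neg_add_eq_sub]
    exact h3
  have h4 := Nat.card_le_card_of_injective F hF
  rw [Nat.card_coe_set_eq] at h4
  exact h4

/-- **the bound for the rank** -/
theorem rank_boundG {a b : ℤ} (hb : b ≠ 0) (hd : a ^ 2 - 4 * b ≠ 0) (hf : (CL a b).Finite)
    (hf' : (CL (-2 * a) (a ^ 2 - 4 * b)).Finite) :
    4 * 2 ^ Module.finrank ℤ (CE a b).toAffine.Point ≤
      (CL a b).ncard * (CL (-2 * a) (a ^ 2 - 4 * b)).ncard := by
  have hd' : (-2 * a) ^ 2 - 4 * (a ^ 2 - 4 * b) ≠ 0 := by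
    intro h
    apply hb
    have : 16 * b = 0 := by linear_combination h
    omega
  have := ce_fg hb hd
  have := ce_fg (a := -2 * a) hd hd'
  obtain ⟨φ, ψ, T, T', h1, h2, h3, h4, h5, h6, h7, h8⟩ := ima a b hb hd
  obtain ⟨-, -, h9⟩ := grp _ _ φ ψ T T' h1 h2 h3 h4 h5 h6
  rw [h9]
  exact Nat.mul_le_mul (index_le hb hd _ h7 hf) (index_le hd hd' _ h8 hf')

end Pool.Agent.R413.TI
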