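import Pool.Agent.R413.TI.StmG

/-!
Project GE: piece SYM.
-/

set_option autoImplicit false

namespace Pool.Agent.R413.TI

theorem sym : SYM := by
  intro p _ a b e e' hp hb hd hi hbs he he'
  obtain ⟨i, hi⟩ := hi
  obtain ⟨β0, hβ0⟩ := hbs
  obtain ⟨β, hβ, hβ2⟩ : ∃ β : ZMod p, b = β * β ∧ e' = a + 2 * β := by
    have h1 : (e' - a - 2 * β0) * (e' - a + 2 * β0) = 0 := by
      linear_combination he' + 4 * hβ0
    rcases mul_eq_zero.1 h1 with h | h
    · exact ⟨β0, hβ0, by linear_combination h⟩
    · exact ⟨-β0, by rw [hβ0]; ring, by linear_combination h⟩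
  have he0 : e ≠ 0 := by
    intro h
    apply hb
    rw [h] at he
    linear_combination he
  have he0' : e' ≠ 0 := by
    intro h
    apply hd
    rw [h] at he'
    linear_combination he'
  have hi0 : i ≠ 0 := by
    intro h
    rw [h, mul_zero] at hi
    exact one_ne_zero (neg_eq_zero.1 hi)
  have key : e * (-e') = (e - β) * (e - β) := by
    rw [hβ2]
    linear_combination -he + hβ
  constructor
  · rintro ⟨s, hs⟩
    have hs0 : s ≠ 0 := by
      intro h
      apply he0
      rw [hs, h, mul_zero]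
    refine ⟨i * (e - β) / s, ?_⟩
    field_simp
    have h2 : i ^ 2 = -1 := by rw [hi]; ring
    have h3 : s ^ 2 = e := by rw [hs]; ring
    have h4 : (e - β) ^ 2 = e * (-e') := by rw [key]; ring
    rw [h2, h3, h4]
    ring
  · rintro ⟨t, ht⟩
    have ht0 : t ≠ 0 := by
      intro h
      apply he0'
      rw [ht, h, mul_zero]
    refine ⟨(e - β) / (i * t), ?_⟩
    field_simp
    have h2 : i ^ 2 = -1 := by rw [hi]; ring
    have h3 : t ^ 2 = e' := by rw [ht]; ring
    have h4 : (e - β) ^ 2 = e * (-e') := by rw [key]; ring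
    rw [h4]
    linear_combination e * t ^ 2 * h2 - e * h3

end Pool.Agent.R413.TI
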