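import Pool.Agent.R413.TI.GlobG2
import Pool.Agent.R413.TI.Sym

/-!
Project GE: the symbols of the roots.
-/

set_option autoImplicit false

open scoped Classical

namespace Pool.Agent.R413.TI

/-- `0` if a root of `x² + a x + b` modulo `p` is a square, otherwise `1` -/
noncomputable def fe (a b : ℤ) (p : ℕ) : ZMod 2 :=
  if ∃ e : ZMod p, e ^ 2 + (a : ZMod p) * e + (b : ZMod p) = 0 ∧ IsSquare e then 0 else 1

variable {a b : ℤ} {S : Finset ℕ}

theorem sq_other {p : ℕ} [Fact p.Prime] {a b e e' : ZMod p} (hb : IsSquare b) (hb0 : b ≠ 0)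
    (he : e ^ 2 + a * e + b = 0) (he' : e' ^ 2 + a * e' + b = 0) (h : IsSquare e) : IsSquare e' := by
  have h1 : (e - e') * (e + e' + a) = 0 := by linear_combination he - he'
  rcases mul_eq_zero.1 h1 with h2 | h2
  · have : e = e' := sub_eq_zero.1 h2
    rwa [← this]
  · have h3 : e * e' = b := by linear_combination e * h2 - he
    have he0 : e ≠ 0 := by
      rintro rfl
      rw [zero_mul] at h3
      exact hb0 h3.symm
    have h4 : e' = b / e := by
      rw [eq_div_iff he0]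
      linear_combination h3
    rw [h4]
    exact hb.div h

theorem root_ex (hb : b ≠ 0) (hd : a ^ 2 - 4 * b ≠ 0) (hS : SS a b S) {p : ℕ} (hp : p ∈ S) :
    ∃ e : ZMod p, e ^ 2 + (a : ZMod p) * e + (b : ZMod p) = 0 ∧ fe a b p = sg p e := by
  have : Fact p.Prime := ⟨(hS p hp).1⟩
  have hp8 := (hS p hp).2.1
  have hbs := bad_sq hS hp hb fun l _ h => Or.inr (h.mul_right _)
  obtain ⟨-, r, hr⟩ := bad_sq hS hp hd fun l _ h => Or.inr (h.mul_left _)
  push_cast at hr
  have h2 : (2 : ZMod p) ≠ 0 := by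
    intro h
    have h3 : ((2 : ℕ) : ZMod p) = 0 := by exact_mod_cast h
    rw [ZMod.natCast_eq_zero_iff] at h3
    have := Nat.le_of_dvd two_pos h3
    have := (hS p hp).1.two_le
    omega
  have he : ((-a + r) / 2 : ZMod p) ^ 2 + (a : ZMod p) * ((-a + r) / 2) + (b : ZMod p) = 0 := by
    field_simp
    linear_combination -hr
  refine ⟨(-a + r) / 2, he, ?_⟩
  unfold fe sg
  by_cases h : IsSquare ((-a + r) / 2 : ZMod p)
  · rw [if_pos h, if_pos ⟨_, he, h⟩]
  · rw [if_neg h, if_neg]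
    rintro ⟨e', he', hs⟩
    exact h (sq_other hbs.2 hbs.1 he' he hs)

theorem rootG (hb : b ≠ 0) (hd : a ^ 2 - 4 * b ≠ 0) (hS : SS a b S) : Root a b S (fe a b) :=
  fun _ hp => root_ex hb hd hS hp

/-- the split primes of the isogenous curve -/
theorem ss_iso (hS : SS a b S) : SS (-2 * a) (a ^ 2 - 4 * b) S := by
  intro p hp
  obtain ⟨h1, h2, h3⟩ := hS p hp
  refine ⟨h1, h2, fun l hl hl2 hd => h3 l hl hl2 ?_⟩
  have e : (a ^ 2 - 4 * b) * ((-2 * a) ^ 2 - 4 * (a ^ 2 - 4 * b)) = 16 * (b * (a ^ 2 - 4 * b)) := by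
    ring
  rw [e] at hd
  rcases (Nat.prime_iff_prime_int.1 hl).dvd_or_dvd hd with h | h
  · exfalso
    have h4 : l ∣ 16 := by exact_mod_cast h
    have h5 : l ∣ 2 := hl.dvd_of_dvd_pow (show l ∣ 2 ^ 4 by norm_num; exact h4)
    exact hl2 ((Nat.prime_dvd_prime_iff_eq hl Nat.prime_two).1 h5)
  · exact h

/-- the symbols of the roots for the isogenous curve -/
theorem fe_iso (hb : b ≠ 0) (hd : a ^ 2 - 4 * b ≠ 0) (hS : SS a b S) {p : ℕ} (hp : p ∈ S) :
    fe (-2 * a) (a ^ 2 - 4 * b) p = fe a b p := by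
  have : Fact p.Prime := ⟨(hS p hp).1⟩
  have hp8 := (hS p hp).2.1
  have hd' : (-2 * a) ^ 2 - 4 * (a ^ 2 - 4 * b) ≠ 0 := by
    intro h
    apply hb
    have : 16 * b = 0 := by linear_combination h
    omega
  obtain ⟨e, he, h1⟩ := root_ex hb hd hS hp
  obtain ⟨e', he', h2⟩ := root_ex hd hd' (ss_iso hS) hp
  have hbs := bad_sq hS hp hb fun l _ h => Or.inr (h.mul_right _)
  have hds := bad_sq hS hp hd fun l _ h => Or.inr (h.mul_left _)
  have h3 := sym p (a : ZMod p) (b : ZMod p) e e' (by omega) hbs.1 (by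
    have := hds.1
    push_cast at this
    exact this) (neg_one_sq (by omega)) hbs.2 he (by
    push_cast at he'
    linear_combination he')
  rw [h1, h2]
  unfold sg
  by_cases h : IsSquare e
  · rw [if_pos h, if_pos (h3.1 h)]
  · rw [if_neg h, if_neg fun h' => h (h3.2 h')]

end Pool.Agent.R413.TI
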