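import Pool.Agent.R413.TI.Stm

/-!
# TI-SPLIT2: solubility at split primes, second curve
-/

set_option autoImplicit false

namespace Pool.Agent.R413.TI

namespace Split2Aux

open Polynomial

variable {p : ℕ} [hp : Fact p.Prime]

theorem phi_dvd {x : ℤ_[p]} : PadicInt.toZMod x = 0 ↔ (p : ℤ_[p]) ∣ x := by
  rw [← RingHom.mem_ker, PadicInt.ker_toZMod, PadicInt.maximalIdeal_eq_span_p,
    Ideal.mem_span_singleton]

theorem phi_norm {x : ℤ_[p]} : PadicInt.toZMod x = 0 ↔ ‖x‖ < 1 := by
  rw [phi_dvd, PadicInt.norm_lt_one_iff_dvd]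

theorem hens (hp2 : p ≠ 2) {x : ℤ_[p]} {s : ZMod p} (hs : s ≠ 0)
    (h : PadicInt.toZMod x = s ^ 2) : ∃ z : ℤ_[p], z ^ 2 = x ∧ PadicInt.toZMod z = s := by
  obtain ⟨a, ha⟩ := ZMod.ringHom_surjective (PadicInt.toZMod (p := p)) s
  have h20 : (2 : ZMod p) ≠ 0 := by
    intro h2
    have h3 : ((2 : ℕ) : ZMod p) = 0 := by exact_mod_cast h2
    rw [ZMod.natCast_eq_zero_iff] at h3
    exact hp2 ((Nat.prime_dvd_prime_iff_eq hp.out Nat.prime_two).1 h3)
  have e1 : ∀ w : ℤ_[p], (aeval w) (X ^ 2 - C x : ℤ_[p][X]) = w ^ 2 - x := by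
    intro w; simp
  have e2 : ∀ w : ℤ_[p], (aeval w) (derivative (X ^ 2 - C x : ℤ_[p][X])) = 2 * w := by
    intro w; simp; norm_num
  have n1 : ‖a ^ 2 - x‖ < 1 := by
    rw [← phi_norm, map_sub, map_pow, ha, h, sub_self]
  have n2 : ‖2 * a‖ = 1 := by
    have h5 : ¬ ‖2 * a‖ < 1 := by
      rw [← phi_norm, map_mul, ha, map_ofNat]
      exact mul_ne_zero h20 hs
    exact le_antisymm (PadicInt.norm_le_one _) (not_lt.1 h5)
  obtain ⟨z, hz, hz2, -⟩ := hensels_lemma (p := p) (R := ℤ_[p]) (F := X ^ 2 - C x)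
    (a := a) (by
      rw [e1, e2, n2]
      simpa using n1)
  rw [e1] at hz
  rw [e2, n2, ← phi_norm, map_sub, ha] at hz2
  exact ⟨z, sub_eq_zero.1 hz, sub_eq_zero.1 hz2⟩

theorem prim {a b₁ b₂ : ℤ} (h : Sol ℚ_[p] a b₁ b₂) :
    (∃ N e : ℤ_[p], N ^ 2 = b₁ + a * e ^ 2 + b₂ * e ^ 4) ∨
    (∃ N M : ℤ_[p], PadicInt.toZMod M = 0 ∧ N ^ 2 = b₁ * M ^ 4 + a * M ^ 2 + b₂) := by
  obtain ⟨N, M, e, hne, h⟩ := h
  have key : ∀ (x : ℚ_[p]) (R : ℤ_[p]), x ^ 2 = (R : ℚ_[p]) → ∃ y : ℤ_[p], y ^ 2 = R := by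
    intro x R hx
    have h1 : ‖x‖ ^ 2 ≤ 1 := by
      rw [← norm_pow, hx]
      exact PadicInt.norm_le_one R
    have h2 : ‖x‖ ≤ 1 := (pow_le_one_iff_of_nonneg (norm_nonneg _) two_ne_zero).1 h1
    refine ⟨⟨x, h2⟩, ?_⟩
    apply Subtype.ext
    exact hx
  rcases le_or_gt ‖e‖ ‖M‖ with hle | hlt
  · left
    have hM : M ≠ 0 := by
      intro hM
      rw [hM, norm_zero] at hle
      have he : e = 0 := norm_le_zero_iff.1 hle
      rcases hne with h' | h'
      · exact h' hM
      · exact h' he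
    have he : ‖e / M‖ ≤ 1 := by
      rw [norm_div]
      exact div_le_one_of_le₀ hle (norm_nonneg _)
    obtain ⟨e', he'⟩ : ∃ e' : ℤ_[p], (e' : ℚ_[p]) = e / M := ⟨⟨e / M, he⟩, rfl⟩
    obtain ⟨y, hy⟩ := key (N / M ^ 2) ((b₁ : ℤ_[p]) + a * e' ^ 2 + b₂ * e' ^ 4) (by
        push_cast
        rw [he']
        field_simp
        linear_combination h)
    exact ⟨y, e', hy⟩
  · right
    have hM : ‖M / e‖ < 1 := by
      rw [norm_div]
      have : 0 < ‖e‖ := lt_of_le_of_lt (norm_nonneg _) hlt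
      rwa [div_lt_one this]
    have he : e ≠ 0 := by
      intro he
      rw [he, norm_zero] at hlt
      exact absurd hlt (not_lt.2 (norm_nonneg _))
    obtain ⟨m, hm⟩ : ∃ m : ℤ_[p], (m : ℚ_[p]) = M / e := ⟨⟨M / e, hM.le⟩, rfl⟩
    have hm1 : ‖m‖ < 1 := by
      rw [PadicInt.norm_def, hm]
      exact hM
    obtain ⟨y, hy⟩ := key (N / e ^ 2) ((b₁ : ℤ_[p]) * m ^ 4 + a * m ^ 2 + b₂) (by
        push_cast
        rw [hm]
        field_simp
        linear_combination h)
    exact ⟨y, m, phi_norm.2 hm1, hy⟩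

theorem intCast_ne {c : ℤ} (h : ¬ (p : ℤ) ∣ c) : (c : ZMod p) ≠ 0 := by
  rwa [Ne, ZMod.intCast_zmod_eq_zero_iff_dvd]

end Split2Aux

open Split2Aux

theorem split2 : SPLIT2 := by
  intro p hp D D' b₁ b₂ ρ hp4 hρ hD hD' hb hbb
  have hpi : Prime (p : ℤ) := Nat.prime_iff_prime_int.1 hp.out
  have hp2 : p ≠ 2 := by
    rintro rfl
    norm_num at hp4
  have h20 : (2 : ZMod p) ≠ 0 := by
    intro h2
    have h3 : ((2 : ℕ) : ZMod p) = 0 := by exact_mod_cast h2
    rw [ZMod.natCast_eq_zero_iff] at h3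
    exact hp2 ((Nat.prime_dvd_prime_iff_eq hp.out Nat.prime_two).1 h3)
  have h70 : (7 : ZMod p) ≠ 0 := by
    intro h2
    have h3 : ((7 : ℕ) : ZMod p) = 0 := by exact_mod_cast h2
    rw [ZMod.natCast_eq_zero_iff] at h3
    have h4 := (Nat.prime_dvd_prime_iff_eq hp.out (by norm_num)).1 h3
    subst h4
    norm_num at hp4
  have hρ0 : ρ ≠ 0 := by
    rintro rfl
    apply h70
    have : (0 : ZMod p) ^ 2 = 0 := by norm_num
    rw [this] at hρ
    linear_combination hρ
  have hDz : (D' : ZMod p) ≠ 0 := intCast_ne hD'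
  have hpz : (p : ℤ_[p]) ≠ 0 := by exact_mod_cast hp.out.ne_zero
  have hpZ : (p : ℤ) ≠ 0 := by exact_mod_cast hp.out.ne_zero
  have hpm : ((p : ℕ) : ZMod p) = 0 := ZMod.natCast_self p
  obtain ⟨ι, hι⟩ : ∃ ι : ZMod p, ι ^ 2 = -1 := by
    obtain ⟨y, hy⟩ := ZMod.exists_sq_eq_neg_one_iff.2 (show p % 4 ≠ 3 by omega)
    exact ⟨y, by rw [hy]; ring⟩
  constructor
  · intro hb1
    have hb1z : (b₁ : ZMod p) ≠ 0 := intCast_ne hb1
    obtain ⟨b', rfl⟩ : (p : ℤ) ^ 2 ∣ b₂ := by
      refine hpi.pow_dvd_of_dvd_mul_left 2 hb1 ?_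
      rw [hbb, hD]
      exact ⟨-7 * D' ^ 2, by ring⟩
    have hbb' : b₁ * b' = -7 * D' ^ 2 := by
      rw [hD] at hbb
      have : (p : ℤ) ^ 2 * (b₁ * b') = (p : ℤ) ^ 2 * (-7 * D' ^ 2) := by linear_combination hbb
      exact mul_left_cancel₀ (pow_ne_zero 2 hpZ) this
    have hz : (b₁ : ZMod p) * b' = (ρ * D') ^ 2 := by
      have := congrArg (fun x : ℤ => (x : ZMod p)) hbb'
      push_cast at this
      rw [this, mul_pow, hρ]
    constructor
    · intro h
      rcases prim h with ⟨N, e, hN⟩ | ⟨N, M, hM, hN⟩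
      · have h1 := congrArg PadicInt.toZMod hN
        rw [hD] at h1
        push_cast at h1
        simp only [map_pow, map_add, map_mul, map_intCast, map_natCast, map_neg, map_ofNat,
          hpm] at h1
        refine ⟨PadicInt.toZMod N, ?_⟩
        linear_combination -h1
      · have h1 := congrArg PadicInt.toZMod hN
        rw [hD] at h1
        push_cast at h1
        simp only [map_pow, map_add, map_mul, map_intCast, map_natCast, map_neg, map_ofNat,
          hpm, hM] at h1
        have hN0 : PadicInt.toZMod N = 0 := by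
          have : PadicInt.toZMod N ^ 2 = 0 := by linear_combination h1
          exact pow_eq_zero_iff two_ne_zero |>.1 this
        obtain ⟨N1, rfl⟩ := phi_dvd.1 hN0
        obtain ⟨M1, rfl⟩ := phi_dvd.1 hM
        have h2 : N1 ^ 2 = b₁ * p ^ 2 * M1 ^ 4 - 42 * p * D' * M1 ^ 2 + b' := by
          have h3 : (p : ℤ_[p]) ^ 2 * N1 ^ 2 =
              (p : ℤ_[p]) ^ 2 * (b₁ * p ^ 2 * M1 ^ 4 - 42 * p * D' * M1 ^ 2 + b') := by
            rw [hD] at hN
            push_cast at hN
            linear_combination hN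
          exact mul_left_cancel₀ (pow_ne_zero 2 hpz) h3
        have h4 := congrArg PadicInt.toZMod h2
        simp only [map_pow, map_add, map_sub, map_mul, map_intCast, map_natCast, map_ofNat,
          hpm] at h4
        set n1 := PadicInt.toZMod N1 with hn1
        have h5 : n1 ^ 2 = b' := by linear_combination h4
        have h6 : (b₁ : ZMod p) * n1 ^ 2 = (ρ * D') ^ 2 := by rw [h5, hz]
        have hn0 : n1 ≠ 0 := by
          intro h7
          rw [h7] at h6
          have h8 : (ρ * D') ^ 2 = 0 := by rw [← h6]; ring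
          exact (mul_ne_zero hρ0 hDz) (pow_eq_zero_iff two_ne_zero |>.1 h8)
        refine ⟨ρ * D' / n1, ?_⟩
        field_simp
        linear_combination h6
    · rintro ⟨s, hs⟩
      have hs0 : s ≠ 0 := by
        rintro rfl
        exact hb1z (by rw [hs]; ring)
      obtain ⟨z, hz1, -⟩ := hens hp2 (x := (b₁ : ℤ_[p])) hs0 (by
        rw [map_intCast, hs]; ring)
      have hz2 : (z : ℚ_[p]) ^ 2 = b₁ := by exact_mod_cast congrArg (fun x : ℤ_[p] => (x : ℚ_[p])) hz1
      exact ⟨z, 1, 0, Or.inl one_ne_zero, by rw [hz2]; ring⟩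
  · rintro c rfl
    have hc : ¬ (p : ℤ) ∣ c := by
      rintro ⟨d, rfl⟩
      have h1 := hb p ⟨d, by ring⟩
      exact hpi.not_isUnit h1
    have hcz : (c : ZMod p) ≠ 0 := intCast_ne hc
    have h1 : c * b₂ = p * (-7 * D' ^ 2) := by
      rw [hD] at hbb
      have : (p : ℤ) * (c * b₂) = (p : ℤ) * (p * (-7 * D' ^ 2)) := by linear_combination hbb
      exact mul_left_cancel₀ hpZ this
    obtain ⟨b', rfl⟩ : (p : ℤ) ∣ b₂ := by
      rcases hpi.dvd_or_dvd (⟨_, h1⟩ : (p : ℤ) ∣ c * b₂) with h | h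
      · exact absurd h hc
      · exact h
    have hbb' : c * b' = -7 * D' ^ 2 := by
      have : (p : ℤ) * (c * b') = (p : ℤ) * (-7 * D' ^ 2) := by linear_combination h1
      exact mul_left_cancel₀ hpZ this
    have hz : (c : ZMod p) * b' = -7 * D' ^ 2 := by
      have := congrArg (fun x : ℤ => (x : ZMod p)) hbb'
      push_cast at this
      exact this
    constructor
    · intro h
      rcases prim h with ⟨N, e, hN⟩ | ⟨N, M, hM, hN⟩
      · have h2 := congrArg PadicInt.toZMod hN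
        rw [hD] at h2
        push_cast at h2
        simp only [map_pow, map_add, map_mul, map_intCast, map_natCast, map_neg, map_ofNat,
          hpm] at h2
        have hN0 : PadicInt.toZMod N = 0 := by
          have : PadicInt.toZMod N ^ 2 = 0 := by linear_combination h2
          exact pow_eq_zero_iff two_ne_zero |>.1 this
        obtain ⟨N1, rfl⟩ := phi_dvd.1 hN0
        have h3 : p * N1 ^ 2 = c - 42 * D' * e ^ 2 + b' * e ^ 4 := by
          have h3 : (p : ℤ_[p]) * (p * N1 ^ 2) =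
              (p : ℤ_[p]) * (c - 42 * D' * e ^ 2 + b' * e ^ 4) := by
            rw [hD] at hN
            push_cast at hN
            linear_combination hN
          exact mul_left_cancel₀ hpz h3
        have h4 := congrArg PadicInt.toZMod h3
        simp only [map_pow, map_add, map_sub, map_mul, map_intCast, map_natCast, map_ofNat,
          hpm] at h4
        set y := PadicInt.toZMod e with hy
        have h5 : ((c : ZMod p) - 21 * D' * y ^ 2) ^ 2 = (8 * (ι * ρ) * D' * y ^ 2) ^ 2 := by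
          have e1 : (ι * ρ) ^ 2 = 7 := by rw [mul_pow, hι, hρ]; ring
          have e2 : (8 * (ι * ρ) * D' * y ^ 2) ^ 2 = 64 * (ι * ρ) ^ 2 * D' ^ 2 * y ^ 4 := by ring
          rw [e2, e1]
          linear_combination -(c : ZMod p) * h4 - y ^ 4 * hz
        have fin : ∀ j : ZMod p, j ^ 2 = -1 →
            (c : ZMod p) - 21 * D' * y ^ 2 = 8 * (j * ρ) * D' * y ^ 2 →
            IsSquare ((c : ZMod p) * (D' : ZMod p) * ρ) := by
          intro j hj hcj
          refine ⟨D' * y * (ρ * (3 + j * ρ) * (1 + j) / 2), ?_⟩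
          have e1 : (ρ * (3 + j * ρ) * (1 + j)) ^ 2 = 4 * (ρ * (21 + 8 * (j * ρ))) := by
            have a1 : (3 + j * ρ) ^ 2 = 16 + 6 * (j * ρ) := by
              linear_combination ρ ^ 2 * hj - hρ
            have a2 : (1 + j) ^ 2 = 2 * j := by linear_combination hj
            rw [mul_pow, mul_pow, a1, a2]
            linear_combination 12 * ρ * (ρ ^ 2 * hj - hρ)
          have e3 : (c : ZMod p) = D' * y ^ 2 * (21 + 8 * (j * ρ)) := by linear_combination hcj
          rw [e3]
          have h40 : (4 : ZMod p) ≠ 0 := by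
            have : (4 : ZMod p) = 2 * 2 := by norm_num
            rw [this]
            exact mul_ne_zero h20 h20
          have e4 : D' * y * (ρ * (3 + j * ρ) * (1 + j) / 2) *
              (D' * y * (ρ * (3 + j * ρ) * (1 + j) / 2)) =
              D' ^ 2 * y ^ 2 * ((ρ * (3 + j * ρ) * (1 + j)) ^ 2 / 4) := by
            field_simp
            ring
          rw [e4, e1]
          field_simp
        rcases sq_eq_sq_iff_eq_or_eq_neg.1 h5 with h6 | h6
        · exact fin ι hι h6
        · refine fin (-ι) (by rw [neg_sq, hι]) ?_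
          rw [h6]
          ring
      · exfalso
        have h2 := congrArg PadicInt.toZMod hN
        rw [hD] at h2
        push_cast at h2
        simp only [map_pow, map_add, map_mul, map_intCast, map_natCast, map_neg, map_ofNat,
          hpm, hM] at h2
        have hN0 : PadicInt.toZMod N = 0 := by
          have : PadicInt.toZMod N ^ 2 = 0 := by linear_combination h2
          exact pow_eq_zero_iff two_ne_zero |>.1 this
        obtain ⟨N1, rfl⟩ := phi_dvd.1 hN0
        obtain ⟨M1, rfl⟩ := phi_dvd.1 hM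
        have h3 : p * N1 ^ 2 = c * p ^ 4 * M1 ^ 4 - 42 * D' * p ^ 2 * M1 ^ 2 + b' := by
          have h3 : (p : ℤ_[p]) * (p * N1 ^ 2) =
              (p : ℤ_[p]) * (c * p ^ 4 * M1 ^ 4 - 42 * D' * p ^ 2 * M1 ^ 2 + b') := by
            rw [hD] at hN
            push_cast at hN
            linear_combination hN
          exact mul_left_cancel₀ hpz h3
        have h4 := congrArg PadicInt.toZMod h3
        simp only [map_pow, map_add, map_sub, map_mul, map_intCast, map_natCast, map_ofNat,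
          hpm] at h4
        have h5 : (b' : ZMod p) = 0 := by linear_combination -h4
        rw [h5, mul_zero] at hz
        have h6 : (-7 : ZMod p) * D' ^ 2 ≠ 0 :=
          mul_ne_zero (neg_ne_zero.2 h70) (pow_ne_zero 2 hDz)
        exact h6 hz.symm
    · rintro ⟨s, hs⟩
      have hs0 : s ≠ 0 := by
        rintro rfl
        rw [mul_zero] at hs
        exact mul_ne_zero (mul_ne_zero hcz hDz) hρ0 hs
      have hι0 : ι ≠ 0 := by
        rintro rfl
        have : (0 : ZMod p) ^ 2 = 0 := by norm_num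
        rw [this] at hι
        have h1 : (1 : ZMod p) = 0 := by linear_combination hι
        exact one_ne_zero h1
      obtain ⟨i, hi, -⟩ := hens hp2 (x := (-1 : ℤ_[p])) hι0 (by rw [map_neg, map_one, hι])
      obtain ⟨r, hr, hrρ⟩ := hens hp2 (x := (-7 : ℤ_[p])) hρ0 (by rw [map_neg, map_ofNat, hρ])
      obtain ⟨w, hw, -⟩ := hens hp2 (x := (c * D' * r : ℤ_[p])) hs0 (by
        rw [map_mul, map_mul, map_intCast, map_intCast, hrρ, hs]; ring)
      have hi' : (i : ℚ_[p]) ^ 2 = -1 := by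
        exact_mod_cast congrArg (fun x : ℤ_[p] => (x : ℚ_[p])) hi
      have hr' : (r : ℚ_[p]) ^ 2 = -7 := by
        exact_mod_cast congrArg (fun x : ℤ_[p] => (x : ℚ_[p])) hr
      have hw' : (w : ℚ_[p]) ^ 2 = c * D' * r := by
        have := congrArg (fun x : ℤ_[p] => (x : ℚ_[p])) hw
        push_cast at this
        exact this
      have hc0 : (c : ℚ_[p]) ≠ 0 := by
        have : c ≠ 0 := by
          rintro rfl
          exact hc (dvd_zero _)
        exact_mod_cast this
      have hbq : (c : ℚ_[p]) * b' = -7 * D' ^ 2 := by exact_mod_cast hbb'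
      set I : ℚ_[p] := (i : ℚ_[p]) with hI
      set R : ℚ_[p] := (r : ℚ_[p]) with hR
      set W : ℚ_[p] := (w : ℚ_[p]) with hW
      have hM2 : (W * (3 + I * R) * (1 + I) / (2 * c)) ^ 2 = D' * (21 + 8 * (I * R)) / c := by
        have e1 : (W * (3 + I * R) * (1 + I) / (2 * c)) ^ 2 =
            W ^ 2 * (3 + I * R) ^ 2 * (1 + I) ^ 2 / (4 * c ^ 2) := by
          field_simp
          ring
        have e2 : (3 + I * R) ^ 2 = 16 + 6 * (I * R) := by
          linear_combination R ^ 2 * hi' - hr'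
        have e3 : (1 + I) ^ 2 = 2 * I := by linear_combination hi'
        have e4 : R * (16 + 6 * (I * R)) * (2 * I) = 4 * (21 + 8 * (I * R)) := by
          linear_combination 12 * R ^ 2 * hi' - 12 * hr'
        have hc4 : (4 : ℚ_[p]) * c ^ 2 ≠ 0 := mul_ne_zero (by norm_num) (pow_ne_zero 2 hc0)
        rw [e1, e2, e3, hw', div_eq_div_iff hc4 hc0]
        linear_combination (c : ℚ_[p]) ^ 2 * D' * e4
      refine ⟨0, W * (3 + I * R) * (1 + I) / (2 * c), 1, Or.inr one_ne_zero, ?_⟩
      have hM4 : (W * (3 + I * R) * (1 + I) / (2 * c)) ^ 4 =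
          (D' * (21 + 8 * (I * R)) / c) ^ 2 := by
        rw [← hM2]
        ring
      rw [hM4, hM2, hD]
      push_cast
      have hb2 : (b' : ℚ_[p]) = -7 * D' ^ 2 / c := by
        rw [eq_div_iff hc0]
        linear_combination hbq
      rw [hb2]
      have e5 : (I * R) ^ 2 = 7 := by rw [mul_pow, hi', hr']; ring
      set T : ℚ_[p] := 21 + 8 * (I * R) with hT
      have e6 : T ^ 2 - 42 * T - 7 = 0 := by
        rw [hT]
        linear_combination 64 * e5
      have e7 : ((p : ℚ_[p]) * c) * (D' * T / c) ^ 2 + -(42 * (p * D')) * (D' * T / c) * 1 ^ 2 +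
          p * (-7 * D' ^ 2 / c) * 1 ^ 4 = p * D' ^ 2 / c * (T ^ 2 - 42 * T - 7) := by
        field_simp
        ring
      rw [e6, mul_zero] at e7
      linear_combination -e7

end Pool.Agent.R413.TI
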