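import Pool.Agent.R413.TI.StmH

/-!
Project GE: graphs and a bordered linear system.
-/

set_option autoImplicit false

open scoped Classical

namespace Pool.Agent.R413.TI

open Finset

namespace TrgP

variable {n : ℕ} {w v : Fin n → ZMod 2}

theorem dbl (x : ZMod 2) : x + x = 0 := CharTwo.add_self_eq_zero x

theorem z2c (a : ZMod 2) : a = 0 ∨ a = 1 := by
  revert a
  decide

/-- the shift -/
def cc (w v : Fin n → ZMod 2) (i j : Fin n) : ZMod 2 :=
  v i * w j + v j * w i + (∑ k, v k) * (w i * w j)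

theorem cc_symm (i j : Fin n) : cc w v i j = cc w v j i := by
  unfold cc
  ring

/-- the shifted graph -/
def Phi (w v : Fin n → ZMod 2) (G : SimpleGraph (Fin n)) : SimpleGraph (Fin n) where
  Adj i j := i ≠ j ∧ (G.Adj i j ↔ cc w v i j = 0)
  symm := ⟨fun i j h => by
    refine ⟨h.1.symm, ?_⟩
    rw [cc_symm, G.adj_comm]
    exact h.2⟩
  loopless := ⟨fun i h => h.1 rfl⟩

theorem Phi_inv (w v : Fin n → ZMod 2) : Function.Involutive (Phi w v) := by
  intro G
  ext i j
  show (i ≠ j ∧ ((i ≠ j ∧ (G.Adj i j ↔ cc w v i j = 0)) ↔ cc w v i j = 0)) ↔ G.Adj i j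
  constructor
  · rintro ⟨h1, h2⟩
    by_cases h3 : cc w v i j = 0
    · exact (h2.2 h3).2.2 h3
    · by_contra h4
      exact h3 (h2.1 ⟨h1, iff_of_false h4 h3⟩)
  · intro h
    refine ⟨h.ne, fun h1 => h1.2.1 h, fun h1 => ⟨h.ne, iff_of_true h h1⟩⟩

theorem Phi_adj (G : SimpleGraph (Fin n)) {i j : Fin n} (hij : i ≠ j) :
    (if (Phi w v G).Adj i j then (1 : ZMod 2) else 0) =
      (if G.Adj i j then (1 : ZMod 2) else 0) + cc w v i j := by
  have h : (Phi w v G).Adj i j ↔ (i ≠ j ∧ (G.Adj i j ↔ cc w v i j = 0)) := Iff.rfl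
  rcases z2c (cc w v i j) with h0 | h0
  · rw [h0, add_zero]
    rw [h0] at h
    by_cases h1 : G.Adj i j
    · rw [if_pos h1, if_pos (h.2 ⟨hij, iff_of_true h1 rfl⟩)]
    · rw [if_neg h1, if_neg fun h2 => h1 ((h.1 h2).2.2 rfl)]
  · rw [h0]
    rw [h0] at h
    by_cases h1 : G.Adj i j
    · rw [if_pos h1, if_neg fun h2 => one_ne_zero ((h.1 h2).2.1 h1), dbl]
    · rw [if_neg h1, if_pos (h.2 ⟨hij, iff_of_false h1 one_ne_zero⟩), zero_add]

/-- the Laplacian sum -/
noncomputable def lap (G : SimpleGraph (Fin n)) (y : Fin n → ZMod 2) (j : Fin n) : ZMod 2 :=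
  ∑ k, (if G.Adj j k then (1 : ZMod 2) else 0) * (y k + y j)

theorem lap_sum (G : SimpleGraph (Fin n)) (y : Fin n → ZMod 2) : ∑ j, lap G y j = 0 := by
  unfold lap
  have h1 : ∑ j, ∑ k, (if G.Adj j k then (1 : ZMod 2) else 0) * (y k + y j) =
      ∑ j, ∑ k, (if G.Adj j k then (1 : ZMod 2) else 0) * y k +
        ∑ j, ∑ k, (if G.Adj j k then (1 : ZMod 2) else 0) * y j := by
    rw [← sum_add_distrib]
    refine sum_congr rfl fun j _ => ?_
    rw [← sum_add_distrib]
    exact sum_congr rfl fun k _ => mul_add _ _ _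
  have h2 : ∑ j, ∑ k, (if G.Adj j k then (1 : ZMod 2) else 0) * y k =
      ∑ j, ∑ k, (if G.Adj j k then (1 : ZMod 2) else 0) * y j := by
    rw [sum_comm]
    refine sum_congr rfl fun j _ => sum_congr rfl fun k _ => ?_
    congr 1
    exact if_congr (G.adj_comm k j) rfl rfl
  rw [h1, h2, dbl]

theorem lap_Phi (hw : ∑ i, w i = 1) (G : SimpleGraph (Fin n)) {y : Fin n → ZMod 2}
    (hy : ∑ i, w i * y i = 0) (j : Fin n) :
    lap (Phi w v G) y j = lap G y j + v j * y j + w j * ∑ k, v k * y k := by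
  have h1 : lap (Phi w v G) y j = lap G y j + ∑ k, cc w v j k * (y k + y j) := by
    unfold lap
    rw [← sum_add_distrib]
    refine sum_congr rfl fun k _ => ?_
    by_cases hk : j = k
    · subst hk
      rw [dbl, mul_zero, mul_zero, mul_zero, add_zero]
    · rw [Phi_adj G hk, add_mul]
  have h2 : ∑ k, cc w v j k * (y k + y j) = v j * (∑ k, w k * y k) + v j * y j * (∑ k, w k) +
      w j * (∑ k, v k * y k) + w j * y j * (∑ k, v k) + (∑ k, v k) * w j * (∑ k, w k * y k) +
      (∑ k, v k) * w j * y j * (∑ k, w k) := by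
    have h3 : ∀ k, cc w v j k * (y k + y j) = v j * (w k * y k) + v j * y j * w k +
        w j * (v k * y k) + w j * y j * v k + (∑ k, v k) * w j * (w k * y k) +
        (∑ k, v k) * w j * y j * w k := by
      intro k
      unfold cc
      ring
    rw [sum_congr rfl fun k _ => h3 k]
    simp only [sum_add_distrib, ← mul_sum]
  rw [h1, h2, hy, hw]
  have h4 : ∀ a b c s t : ZMod 2, a + (b * 0 + b * c * 1 + t + s + 0 + s) = a + b * c + t := by
    decide
  have e : ∀ W Y S : ZMod 2, S * W * Y * 1 = W * Y * S ∧ S * W * 0 = 0 := fun W Y S =>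
    ⟨by ring, by ring⟩
  rw [(e (w j) (y j) _).1, (e (w j) (y j) _).2]
  exact h4 _ _ _ _ _

end TrgP

open TrgP in
theorem trg : TRG := by
  intro n w v hw
  refine Nat.card_congr (Equiv.subtypeEquiv ((Phi_inv w v).toPerm (Phi w v)) fun G => ?_)
  show QG w G v ↔ ∀ y : Fin n → ZMod 2, (∀ j, w j * y j + lap (Phi w v G) y j = 0) → y = 0
  constructor
  · intro h y hy
    have h1 : ∑ i, w i * y i = 0 := by
      have h2 : ∑ j, (w j * y j + lap (Phi w v G) y j) = 0 := sum_eq_zero fun j _ => hy j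
      rw [sum_add_distrib, lap_sum, add_zero] at h2
      exact h2
    refine (h (∑ k, v k * y k) y h1 fun i => ?_).2
    have h2 := hy i
    rw [lap_Phi hw G h1] at h2
    show w i * (∑ k, v k * y k) + (v i + w i) * y i + lap G y i = 0
    rw [← h2]
    ring
  · intro h x₀ x hx hk
    have h1 : x₀ = ∑ k, v k * x k := by
      have h2 : ∑ i, (w i * x₀ + (v i + w i) * x i + lap G x i) = 0 := sum_eq_zero fun i _ => hk i
      rw [sum_add_distrib, lap_sum, add_zero, sum_add_distrib, ← sum_mul, hw, one_mul] at h2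
      have h3 : ∑ i, (v i + w i) * x i = ∑ k, v k * x k := by
        have h4 : ∀ i, (v i + w i) * x i = v i * x i + w i * x i := fun i => by ring
        rw [sum_congr rfl fun i _ => h4 i, sum_add_distrib, hx, add_zero]
      rw [h3] at h2
      have h5 : x₀ + ∑ k, v k * x k + ∑ k, v k * x k = ∑ k, v k * x k := by rw [h2, zero_add]
      rwa [add_assoc, dbl, add_zero] at h5
    have h2 : x = 0 := h x fun j => by
      rw [lap_Phi hw G hx, ← h1]
      have h3 : w j * x₀ + (v j + w j) * x j + lap G x j = 0 := hk j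
      rw [← h3]
      ring
    refine ⟨?_, h2⟩
    rw [h1, h2]
    simp

end Pool.Agent.R413.TI
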