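import Pool.Agent.R413.TI.Stm
import Pool.Agent.R413.TI.Inert

/-!
# TI-TWO: solubility of the quartics over `ℚ₂`
(`padic_sq2` is the lemma of `Pool/Agent/TH841/LS/Lin.lean`.)
-/

set_option autoImplicit false

namespace Pool.Agent.R413.TI

namespace TwoAux

open Polynomial in
lemma padic_sq2 {n : ℤ} (hn : n % 8 = 1) : IsSquare (n : ℚ_[2]) := by
  have e1 : ∀ w : ℤ_[2], (aeval w) (X ^ 2 - C (n : ℤ_[2]) : ℤ_[2][X]) = w ^ 2 - n := by
    intro w; simp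
  have e2 : ∀ w : ℤ_[2], (aeval w) (derivative (X ^ 2 - C (n : ℤ_[2]) : ℤ_[2][X])) = 2 * w := by
    intro w; simp; norm_num
  obtain ⟨z, hz, -⟩ := hensels_lemma (p := 2) (R := ℤ_[2]) (F := X ^ 2 - C (n : ℤ_[2]))
    (a := 1) (by
      rw [e1, e2]
      have h4 : ‖(2 : ℤ_[2])‖ = 2⁻¹ := by
        have := PadicInt.norm_p (p := 2)
        exact_mod_cast this
      have h3 : ‖((1 - n : ℤ) : ℤ_[2])‖ ≤ ((2 : ℕ) : ℝ) ^ (-(3 : ℕ) : ℤ) := by
        rw [PadicInt.norm_int_le_pow_iff_dvd]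
        push_cast
        omega
      push_cast at h3
      rw [one_pow, mul_one, h4]
      refine lt_of_le_of_lt h3 ?_
      norm_num)
  rw [e1] at hz
  have h6 := congrArg (fun w : ℤ_[2] => (w : ℚ_[2])) (sub_eq_zero.1 hz)
  push_cast at h6
  exact ⟨z, by rw [← h6]; ring⟩

/-- reduction modulo 16 -/
noncomputable def red : ℤ_[2] →+* ZMod 16 :=
  (ZMod.castHom (show 16 ∣ 2 ^ 4 by norm_num) (ZMod 16)).comp (PadicInt.toZModPow 4)

theorem sq_vals : ∀ x : ZMod 16, x ^ 2 ∈ ([0, 1, 4, 9] : List (ZMod 16)) := by decide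

theorem sq_unit : ∀ x y : ZMod 16, x * y = 1 → x ^ 2 = 1 ∨ x ^ 2 = 9 := by decide

theorem red_unit {M : ℤ_[2]} (h : ‖M‖ = 1) : red M ^ 2 = 1 ∨ red M ^ 2 = 9 := by
  have h1 : IsUnit M := PadicInt.isUnit_iff.mpr h
  obtain ⟨y, hy⟩ := (h1.map red).exists_right_inv
  exact sq_unit _ _ hy

/-- a solution gives a solution in terms of squares modulo 16 -/
theorem reduce {a b₁ b₂ : ℤ} (h : Sol ℚ_[2] a b₁ b₂) :
    ∃ n m E : ZMod 16, n ∈ ([0, 1, 4, 9] : List (ZMod 16)) ∧ m ∈ ([0, 1, 4, 9] : List (ZMod 16)) ∧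
      E ∈ ([0, 1, 4, 9] : List (ZMod 16)) ∧ ((m = 1 ∨ m = 9) ∨ (E = 1 ∨ E = 9)) ∧
      n = (b₁ : ZMod 16) * m ^ 2 + (a : ZMod 16) * m * E + (b₂ : ZMod 16) * E ^ 2 := by
  obtain ⟨N, M, e, hu, heq⟩ := InertAux.prim h
  refine ⟨red N ^ 2, red M ^ 2, red e ^ 2, sq_vals _, sq_vals _, sq_vals _, ?_, ?_⟩
  · rcases hu with hu | hu
    · exact Or.inl (red_unit hu)
    · exact Or.inr (red_unit hu)
  · have h1 := congrArg red heq
    simp only [map_add, map_mul, map_pow, map_intCast] at h1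
    rw [h1]
    ring

theorem mod16 (x : ℤ) : (x : ZMod 16) = ((x % 16 : ℤ) : ZMod 16) :=
  (ZMod.intCast_mod x 16).symm

theorem D_mem {D : ℤ} (h : D % 4 = 1) : (D : ZMod 16) ∈ ([1, 5, 9, 13] : List (ZMod 16)) := by
  rw [mod16]
  have : D % 16 = 1 ∨ D % 16 = 5 ∨ D % 16 = 9 ∨ D % 16 = 13 := by omega
  rcases this with h | h | h | h <;> rw [h] <;> decide

theorem c_mem {c : ℤ} (h : c % 2 = 1) :
    (c : ZMod 16) ∈ ([1, 3, 5, 7, 9, 11, 13, 15] : List (ZMod 16)) := by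
  rw [mod16]
  have : c % 16 = 1 ∨ c % 16 = 3 ∨ c % 16 = 5 ∨ c % 16 = 7 ∨ c % 16 = 9 ∨ c % 16 = 11 ∨
    c % 16 = 13 ∨ c % 16 = 15 := by omega
  rcases this with h | h | h | h | h | h | h | h <;> rw [h] <;> decide

theorem b_mem2 {b : ℤ} (h : b % 4 = 2) : (b : ZMod 16) ∈ ([2, 6, 10, 14] : List (ZMod 16)) := by
  rw [mod16]
  have : b % 16 = 2 ∨ b % 16 = 6 ∨ b % 16 = 10 ∨ b % 16 = 14 := by omega
  rcases this with h | h | h | h <;> rw [h] <;> decide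

theorem b_mem3 {b : ℤ} (h : b % 4 = 3) : (b : ZMod 16) ∈ ([3, 7, 11, 15] : List (ZMod 16)) := by
  rw [mod16]
  have : b % 16 = 3 ∨ b % 16 = 7 ∨ b % 16 = 11 ∨ b % 16 = 15 := by omega
  rcases this with h | h | h | h <;> rw [h] <;> decide

set_option maxRecDepth 100000 in
theorem fin8 : ∀ c ∈ ([1, 3, 5, 7, 9, 11, 13, 15] : List (ZMod 16)),
    ∀ D ∈ ([1, 5, 9, 13] : List (ZMod 16)), ∀ b : ZMod 16, c * b = 56 * D ^ 2 → b = 8 := by
  decide

/-- no solution modulo 16 -/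
def NoSol (b a b' : ZMod 16) : Prop :=
    ∀ n ∈ ([0, 1, 4, 9] : List (ZMod 16)), ∀ m ∈ ([0, 1, 4, 9] : List (ZMod 16)),
    ∀ E ∈ ([0, 1, 4, 9] : List (ZMod 16)), ((m = 1 ∨ m = 9) ∨ (E = 1 ∨ E = 9)) →
    n ≠ b * m ^ 2 + a * m * E + b' * E ^ 2

instance (b a b' : ZMod 16) : Decidable (NoSol b a b') := by
  unfold NoSol
  infer_instance

set_option maxRecDepth 100000 in
theorem fin1 : ∀ b ∈ ([2, 6, 10, 14] : List (ZMod 16)), ∀ D ∈ ([1, 5, 9, 13] : List (ZMod 16)),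
    NoSol b (21 * D) 8 := by
  decide

set_option maxRecDepth 100000 in
theorem fin3 : ∀ b ∈ ([3, 7, 11, 15] : List (ZMod 16)), ∀ D ∈ ([1, 5, 9, 13] : List (ZMod 16)),
    ∀ b' : ZMod 16, b * b' = -7 * D ^ 2 → NoSol b (-42 * D) b' := by
  decide

theorem odd_sq {x : ℤ} (h : x % 2 = 1) : ∃ q : ℤ, x ^ 2 = 8 * q + 1 := by
  obtain ⟨k, rfl⟩ : ∃ k, x = 2 * k + 1 := ⟨x / 2, by omega⟩
  obtain ⟨q, hq⟩ := Int.even_mul_succ_self k
  exact ⟨q, by linear_combination 4 * hq⟩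

theorem sol_of_sq {a b₁ b₂ : ℤ} (e t f' : ℤ) (hf : b₁ + a * e ^ 2 + b₂ * e ^ 4 = t ^ 2 * f')
    (hf' : f' % 8 = 1) : Sol ℚ_[2] a b₁ b₂ := by
  obtain ⟨z, hz⟩ := padic_sq2 hf'
  refine ⟨t * z, 1, e, Or.inl one_ne_zero, ?_⟩
  have h1 : ((b₁ + a * e ^ 2 + b₂ * e ^ 4 : ℤ) : ℚ_[2]) = ((t ^ 2 * f' : ℤ) : ℚ_[2]) := by
    rw [hf]
  push_cast at h1
  rw [hz] at h1
  linear_combination -h1

end TwoAux

open TwoAux

theorem two : TWO := by
  intro D b₁ b₂ hD hsf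
  have hDodd : D % 2 = 1 := by omega
  refine ⟨?_, ?_, ?_, ?_⟩
  · intro hb hsol
    by_contra hodd
    have h4 : ¬ (4 : ℤ) ∣ b₁ := by
      intro h
      have h2 : IsUnit (2 : ℤ) := hsf 2 (by norm_num; exact h)
      rw [Int.isUnit_iff] at h2
      omega
    have hb4 : b₁ % 4 = 2 := by omega
    obtain ⟨c, rfl⟩ : ∃ c, b₁ = 2 * c := ⟨b₁ / 2, by omega⟩
    have hc : c % 2 = 1 := by omega
    have h56 : c * b₂ = 56 * D ^ 2 := by linarith
    have hb2 : (b₂ : ZMod 16) = 8 := by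
      apply fin8 _ (c_mem hc) _ (D_mem hD)
      exact_mod_cast congrArg (fun z : ℤ => (z : ZMod 16)) h56
    obtain ⟨n, m, E, hn, hm, hE, hu, heq⟩ := reduce hsol
    apply fin1 _ (b_mem2 hb4) _ (D_mem hD) n hn m hm E hE hu
    rw [heq, hb2]
    push_cast
    ring
  · intro hb hb1
    have h8 : b₁ % 8 = 1 ∨ b₁ % 8 = 5 := by omega
    rcases h8 with h8 | h8
    · exact sol_of_sq 0 1 b₁ (by ring) h8
    · exact sol_of_sq 2 1 (b₁ + 21 * D * 2 ^ 2 + b₂ * 2 ^ 4) (by ring) (by omega)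
  · intro hb hsol
    have hodd : b₁ % 2 = 1 := by
      by_contra h
      have h2 : (2 : ℤ) ∣ b₁ := by omega
      have h3 : (2 : ℤ) ∣ -7 * D ^ 2 := by
        rw [← hb]
        exact Dvd.dvd.mul_right h2 _
      obtain ⟨q, hq⟩ := odd_sq hDodd
      rw [hq] at h3
      omega
    by_contra h1
    have h3 : b₁ % 4 = 3 := by omega
    obtain ⟨n, m, E, hn, hm, hE, hu, heq⟩ := reduce hsol
    apply fin3 _ (b_mem3 h3) _ (D_mem hD) (b₂ : ZMod 16)
      (by exact_mod_cast congrArg (fun z : ℤ => (z : ZMod 16)) hb) n hn m hm E hE hu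
    rw [heq]
    push_cast
    ring
  · intro hb hb1
    have h8 : b₁ % 8 = 1 ∨ b₁ % 8 = 5 := by omega
    rcases h8 with h8 | h8
    · exact sol_of_sq 0 1 b₁ (by ring) h8
    have hco : ∀ k : ℕ, IsCoprime ((2 : ℤ) ^ k) b₁ := by
      intro k
      apply IsCoprime.pow_left
      refine ⟨-(b₁ / 2), 1, ?_⟩
      omega
    have hD8 : D % 8 = 1 ∨ D % 8 = 5 := by omega
    rcases hD8 with hD8 | hD8
    · -- choose e
      obtain ⟨e, heodd, he⟩ : ∃ e : ℤ, e % 2 = 1 ∧ (b₁ - 21 * D * e ^ 2) % 32 = 16 := by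
        have h4 : (b₁ - 21 * D * 1) % 32 = 16 ∨ (b₁ - 21 * D * 9) % 32 = 16 ∨
          (b₁ - 21 * D * 25) % 32 = 16 ∨ (b₁ - 21 * D * 49) % 32 = 16 := by omega
        rcases h4 with h | h | h | h
        · exact ⟨1, by norm_num, by norm_num; omega⟩
        · exact ⟨3, by norm_num, by norm_num; omega⟩
        · exact ⟨5, by norm_num, by norm_num; omega⟩
        · exact ⟨7, by norm_num, by norm_num; omega⟩
      obtain ⟨y, hy⟩ : ∃ y, b₁ - 21 * D * e ^ 2 = 16 * (2 * y + 1) :=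
        ⟨(b₁ - 21 * D * e ^ 2) / 32, by omega⟩
      obtain ⟨q, hq⟩ := odd_sq (x := 2 * y + 1) (by omega)
      have hDe : (D * e ^ 2) % 2 = 1 := by
        obtain ⟨q1, hq1⟩ := odd_sq heodd
        rw [hq1]
        have : D * (8 * q1 + 1) = 2 * (4 * (D * q1)) + D := by ring
        rw [this]
        omega
      obtain ⟨q', hq'⟩ := odd_sq hDe
      have hbf : b₁ * (b₁ + -42 * D * e ^ 2 + b₂ * e ^ 4) = 64 * (32 * q - 56 * q' - 3) := by
        have e1 : b₁ * (b₁ + -42 * D * e ^ 2 + b₂ * e ^ 4) =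
            (b₁ - 21 * D * e ^ 2) ^ 2 - 448 * (D * e ^ 2) ^ 2 := by
          linear_combination e ^ 4 * hb
        rw [e1, hy, hq']
        linear_combination 256 * hq
      have hdvd : (64 : ℤ) ∣ b₁ + -42 * D * e ^ 2 + b₂ * e ^ 4 := by
        have h6 := hco 6
        norm_num at h6
        exact h6.dvd_of_dvd_mul_left ⟨_, hbf⟩
      obtain ⟨f', hf'⟩ := hdvd
      have hbf' : b₁ * f' = 32 * q - 56 * q' - 3 := by
        rw [hf'] at hbf
        have : 64 * (b₁ * f') = 64 * (32 * q - 56 * q' - 3) := by linarith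
        linarith
      have hmod : f' % 8 = 1 := by
        obtain ⟨k, rfl⟩ : ∃ k, b₁ = 8 * k + 5 := ⟨b₁ / 8, by omega⟩
        have : (8 * k + 5) * f' = 8 * (k * f') + 5 * f' := by ring
        rw [this] at hbf'
        omega
      exact sol_of_sq e 8 f' (by rw [hf']; ring) hmod
    · obtain ⟨y, hy⟩ : ∃ y, b₁ - 21 * D = 4 * (2 * y + 1) := ⟨(b₁ - 21 * D) / 8, by omega⟩
      obtain ⟨q, hq⟩ := odd_sq (x := 2 * y + 1) (by omega)
      obtain ⟨q', hq'⟩ := odd_sq hDodd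
      have hbf : b₁ * (b₁ + -42 * D * 1 ^ 2 + b₂ * 1 ^ 4) = 16 * (8 * q - 224 * q' - 27) := by
        have e1 : b₁ * (b₁ + -42 * D * 1 ^ 2 + b₂ * 1 ^ 4) =
            (b₁ - 21 * D) ^ 2 - 448 * D ^ 2 := by
          linear_combination hb
        rw [e1, hy, hq']
        linear_combination 16 * hq
      have hdvd : (16 : ℤ) ∣ b₁ + -42 * D * 1 ^ 2 + b₂ * 1 ^ 4 := by
        have h6 := hco 4
        norm_num at h6
        exact h6.dvd_of_dvd_mul_left ⟨_, hbf⟩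
      obtain ⟨f', hf'⟩ := hdvd
      have hbf' : b₁ * f' = 8 * q - 224 * q' - 27 := by
        rw [hf'] at hbf
        have : 16 * (b₁ * f') = 16 * (8 * q - 224 * q' - 27) := by linarith
        linarith
      have hmod : f' % 8 = 1 := by
        obtain ⟨k, rfl⟩ : ∃ k, b₁ = 8 * k + 5 := ⟨b₁ / 8, by omega⟩
        have : (8 * k + 5) * f' = 8 * (k * f') + 5 * f' := by ring
        rw [this] at hbf'
        omega
      exact sol_of_sq 1 4 f' (by rw [hf']; ring) hmod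

end Pool.Agent.R413.TI
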